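import Pool.Agent.PWE.Defs
import Pool.Agent.OMG.Win

/-!
# PWE GAM: Chernoff bounds for the Gamma weights

gam: OMG.win_gam. tail: with λ = s0, lo = (1-η) k/λ, hi = (1+η) k/λ, τ = η λ/4
(OMG.win_tail): the tail is at most e^(-τ hi) (λ-1-τ)^(-k-1) + e^(τ lo) (λ-1+τ)^(-k-1).
-/

set_option autoImplicit false

open Complex Finset Filter Topology MeasureTheory

namespace Pool.PWE

theorem gam {B : ℝ} (hB : 0 < B) (k : ℕ) :
    IntegrableOn (fun y : ℝ => Real.exp (-B * y) * y ^ k / (k.factorial : ℝ)) (Set.Ioi 0) ∧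
    ∫ y in Set.Ioi (0 : ℝ), Real.exp (-B * y) * y ^ k / (k.factorial : ℝ) = (1 / B) ^ (k + 1) := by
  obtain ⟨h1, h2⟩ := Pool.OMG.win_gam hB k
  have h3 : ∀ y : ℝ, Real.exp (-B * y) * y ^ k / (k.factorial : ℝ) =
      y ^ k * Real.exp (-(B * y)) / (k.factorial : ℝ) := by
    intro y
    rw [neg_mul, mul_comm (Real.exp _)]
  simp only [h3]
  refine ⟨h1.div_const _, ?_⟩
  have hm : ((k.factorial : ℕ) : ℝ) ≠ 0 := Nat.cast_ne_zero.2 (Nat.factorial_ne_zero k)
  rw [integral_div, h2, one_div, inv_pow]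
  field_simp

private theorem base1 {η z : ℝ} (hη : 0 < η) (hη1 : η ≤ 1 / 2) (hz : 64 ≤ z * η ^ 2)
    (hz0 : 0 < z) : Real.exp (-(η * (1 + η) / 4)) * z < z - 1 - z * η / 4 := by
  set u := η * (1 + η) / 4 with hu
  have hu0 : 0 ≤ u := by positivity
  have hu1 : u ≤ 3 * η / 8 := by nlinarith
  have hu2 : |(-u)| ≤ 1 := by
    rw [abs_neg, abs_of_nonneg hu0]
    linarith
  have h1 := Real.abs_exp_sub_one_sub_id_le hu2
  have h2 := (abs_le.1 h1).2
  have h3 : Real.exp (-u) ≤ 1 - u + u ^ 2 := by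
    have : (-u) ^ 2 = u ^ 2 := by ring
    linarith
  have h4 : u ^ 2 ≤ 9 / 64 * η ^ 2 := by nlinarith
  have h5 : Real.exp (-u) * z ≤ (1 - u + 9 / 64 * η ^ 2) * z :=
    mul_le_mul_of_nonneg_right (by linarith) hz0.le
  have h6 : (1 - u + 9 / 64 * η ^ 2) * z = z - z * η / 4 - 7 / 64 * (z * η ^ 2) := by
    rw [hu]
    ring
  linarith

private theorem base2 {η z : ℝ} (hη : 0 < η) (hη1 : η ≤ 1 / 2) (hz : 64 ≤ z * η ^ 2)
    (hz0 : 0 < z) : Real.exp (η * (1 - η) / 4) * z < z - 1 + z * η / 4 := by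
  set v := η * (1 - η) / 4 with hv
  have hv0 : 0 ≤ v := by
    rw [hv]
    have : 0 ≤ 1 - η := by linarith
    positivity
  have hv1 : v ≤ η / 4 := by rw [hv]; nlinarith
  have hv2 : |v| ≤ 1 := by
    rw [abs_of_nonneg hv0]
    linarith
  have h1 := Real.abs_exp_sub_one_sub_id_le hv2
  have h2 := (abs_le.1 h1).2
  have h3 : Real.exp v ≤ 1 + v + v ^ 2 := by linarith
  have h4 : v ^ 2 ≤ 1 / 16 * η ^ 2 := by nlinarith
  have h5 : Real.exp v * z ≤ (1 + v + 1 / 16 * η ^ 2) * z :=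
    mul_le_mul_of_nonneg_right (by linarith) hz0.le
  have h6 : (1 + v + 1 / 16 * η ^ 2) * z = z + z * η / 4 - 3 / 16 * (z * η ^ 2) := by
    rw [hv]
    ring
  linarith

theorem tail {η s0 : ℝ} (hη : 0 < η) (hη1 : η ≤ 1 / 2) (hs : 64 / η ^ 2 ≤ s0) :
    ∃ C q : ℝ, 0 < C ∧ 0 < q ∧ q < 1 ∧ ∀ k : ℕ,
      ∫ y in Set.Ioi (0 : ℝ) \ Set.Icc ((1 - η) * k / s0) ((1 + η) * k / s0),
        Real.exp y * Real.exp (-s0 * y) * y ^ k / (k.factorial : ℝ) ≤ C * (q / s0) ^ k := by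
  have hη2 : 0 < η ^ 2 := by positivity
  have hz64 : 64 ≤ s0 * η ^ 2 := (div_le_iff₀ hη2).1 hs
  have hz32 : 256 ≤ s0 := by nlinarith
  have hz0 : 0 < s0 := by linarith
  set τ := s0 * η / 4 with hτ
  have hτ0 : 0 ≤ τ := by positivity
  have hτz : τ ≤ s0 / 8 := by rw [hτ]; nlinarith
  set B1 := s0 - 1 - τ with hB1
  set B2 := s0 - 1 + τ with hB2
  have hB1' : 1 ≤ B1 := by rw [hB1]; linarith
  have hB2' : 1 ≤ B2 := by rw [hB2]; linarith
  set E1 := Real.exp (-(η * (1 + η) / 4)) with hE1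
  set E2 := Real.exp (η * (1 - η) / 4) with hE2
  set q1 := E1 * s0 / B1 with hq1
  set q2 := E2 * s0 / B2 with hq2
  have hq1p : 0 < q1 := by positivity
  have hq2p : 0 < q2 := by positivity
  have hq1l : q1 < 1 := by
    rw [hq1, div_lt_one (by linarith)]
    exact base1 hη hη1 hz64 hz0
  have hq2l : q2 < 1 := by
    rw [hq2, div_lt_one (by linarith)]
    exact base2 hη hη1 hz64 hz0
  set q := max q1 q2 with hq
  have hq0 : 0 < q := lt_max_of_lt_left hq1p
  refine ⟨2, q, by norm_num, hq0, max_lt hq1l hq2l, fun k => ?_⟩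
  set lo := (1 - η) * k / s0 with hlo
  set hi := (1 + η) * k / s0 with hhi
  have hhiτ : Real.exp (-(τ * hi)) = E1 ^ k := by
    rw [hE1, ← Real.exp_nat_mul]
    congr 1
    rw [hhi, hτ]
    field_simp
  have hloτ : Real.exp (τ * lo) = E2 ^ k := by
    rw [hE2, ← Real.exp_nat_mul]
    congr 1
    rw [hlo, hτ]
    field_simp
  obtain ⟨i0, v0⟩ := gam (B := s0 - 1) (by linarith) k
  obtain ⟨i1, v1⟩ := gam (B := B1) (by linarith) k
  obtain ⟨i2, v2⟩ := gam (B := B2) (by linarith) k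
  have hf0 : ∀ y : ℝ, Real.exp y * Real.exp (-s0 * y) * y ^ k / (k.factorial : ℝ) =
      Real.exp (-(s0 - 1) * y) * y ^ k / (k.factorial : ℝ) := by
    intro y
    rw [← Real.exp_add]
    congr 3
    ring
  have hf1 : ∀ y : ℝ, Real.exp y * Real.exp (-s0 * y) * y ^ k / (k.factorial : ℝ) *
      (Real.exp (τ * (y - hi)) + Real.exp (τ * (lo - y))) =
      E1 ^ k * (Real.exp (-B1 * y) * y ^ k / (k.factorial : ℝ)) +
        E2 ^ k * (Real.exp (-B2 * y) * y ^ k / (k.factorial : ℝ)) := by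
    intro y
    have a1 : Real.exp (-(s0 - 1) * y) * Real.exp (τ * (y - hi)) =
        E1 ^ k * Real.exp (-B1 * y) := by
      rw [← hhiτ, ← Real.exp_add, ← Real.exp_add]
      congr 1
      rw [hB1]
      ring
    have a2 : Real.exp (-(s0 - 1) * y) * Real.exp (τ * (lo - y)) =
        E2 ^ k * Real.exp (-B2 * y) := by
      rw [← hloτ, ← Real.exp_add, ← Real.exp_add]
      congr 1
      rw [hB2]
      ring
    rw [hf0]
    calc Real.exp (-(s0 - 1) * y) * y ^ k / (k.factorial : ℝ) *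
          (Real.exp (τ * (y - hi)) + Real.exp (τ * (lo - y)))
        = (Real.exp (-(s0 - 1) * y) * Real.exp (τ * (y - hi))) * (y ^ k / (k.factorial : ℝ)) +
          (Real.exp (-(s0 - 1) * y) * Real.exp (τ * (lo - y))) *
            (y ^ k / (k.factorial : ℝ)) := by ring
      _ = _ := by
          rw [a1, a2]
          ring
  have hI0 : IntegrableOn (fun y : ℝ => Real.exp y * Real.exp (-s0 * y) * y ^ k /
      (k.factorial : ℝ)) (Set.Ioi 0) := by
    simp only [hf0]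
    exact i0
  have hI1 : IntegrableOn (fun y : ℝ => Real.exp y * Real.exp (-s0 * y) * y ^ k /
      (k.factorial : ℝ) * (Real.exp (τ * (y - hi)) + Real.exp (τ * (lo - y)))) (Set.Ioi 0) := by
    simp only [hf1]
    exact (i1.const_mul _).add (i2.const_mul _)
  have key := Pool.OMG.win_tail (lo := lo) (hi := hi) hτ0
    (f := fun y : ℝ => Real.exp y * Real.exp (-s0 * y) * y ^ k / (k.factorial : ℝ))
    (fun y hy => by
      have : (0 : ℝ) < y := hy
      positivity) hI0 hI1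
  refine key.trans ?_
  simp only [hf1]
  rw [integral_add (i1.const_mul _) (i2.const_mul _), integral_const_mul, integral_const_mul,
    v1, v2]
  have e1 : E1 ^ k * (1 / B1) ^ (k + 1) ≤ (q / s0) ^ k := by
    have h1 : E1 ^ k * (1 / B1) ^ (k + 1) = (q1 / s0) ^ k * (1 / B1) := by
      have : q1 / s0 = E1 * (1 / B1) := by
        rw [hq1]
        field_simp
      rw [this, mul_pow, pow_succ]
      ring
    rw [h1]
    have h2 : (q1 / s0) ^ k ≤ (q / s0) ^ k :=
      pow_le_pow_left₀ (by positivity) (div_le_div_of_nonneg_right (le_max_left _ _) hz0.le) k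
    have h3 : 1 / B1 ≤ 1 := by rw [div_le_one (by linarith)]; exact hB1'
    calc (q1 / s0) ^ k * (1 / B1) ≤ (q1 / s0) ^ k * 1 :=
          mul_le_mul_of_nonneg_left h3 (by positivity)
      _ ≤ (q / s0) ^ k := by rw [mul_one]; exact h2
  have e2 : E2 ^ k * (1 / B2) ^ (k + 1) ≤ (q / s0) ^ k := by
    have h1 : E2 ^ k * (1 / B2) ^ (k + 1) = (q2 / s0) ^ k * (1 / B2) := by
      have : q2 / s0 = E2 * (1 / B2) := by
        rw [hq2]
        field_simp
      rw [this, mul_pow, pow_succ]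
      ring
    rw [h1]
    have h2 : (q2 / s0) ^ k ≤ (q / s0) ^ k :=
      pow_le_pow_left₀ (by positivity) (div_le_div_of_nonneg_right (le_max_right _ _) hz0.le) k
    have h3 : 1 / B2 ≤ 1 := by rw [div_le_one (by linarith)]; exact hB2'
    calc (q2 / s0) ^ k * (1 / B2) ≤ (q2 / s0) ^ k * 1 :=
          mul_le_mul_of_nonneg_left h3 (by positivity)
      _ ≤ (q / s0) ^ k := by rw [mul_one]; exact h2
  linarith

end Pool.PWE
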