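import Pool.Agent.PWE.Lap
import Pool.Agent.PWE.Gam

/-!
# PWE EXIST: a point with |E x| <= x^(1/6-δ) in every [X, X^(1+ε)]

Without loss of generality ε <= 1. η = ε/8, s0 = 64/η^2 (so s0 > 2), J_bound (C1, r),
δ with 0 < δ < 1/6 and ρ = s0 - 1/6 + δ < r (then ρ < s0 too), tail (C2, q), E_bound
(C3), E_sign (C0). Let X be large and suppose |E x| > x^(1/6-δ) for all x in
[X, X^(1+ε)]; for large X this is > C0, so E has a constant sign there. Let
k = ⌈s0 log X/(1-η)⌉, lo = (1-η)k/s0 >= log X, hi = (1+η)k/s0 <= (1+ε) log X for large X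
((1+η)/(1-η) <= 1 + 3η), W = Icc lo hi, w = e^(-s0 y) y^k/k!. Then
int_W |E(e^y)| w = |int_W E(e^y) w| <= |J_k| + C3 tail_k <= C1 r^(-k) + C3 C2 (q/s0)^k and
int_W |E(e^y)| w >= int_W e^((1/6-δ) y) w >= ρ^(-k-1) - tail_k (gam with B = ρ;
e^((1/6-δ)y) <= e^y). Multiply with ρ^k:
1/ρ <= C1 (ρ/r)^k + (C3+1) C2 (q ρ/s0)^k, false for large k (k -> oo with X).
-/

set_option autoImplicit false

open Complex Finset Filter Topology MeasureTheory

namespace Pool.PWE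

/-- The window: the point `k` and the ends. -/
private theorem ex_window {η s0 L : ℝ} (hη : 0 < η) (hη1 : η ≤ 1 / 8) (hs : s0 = 64 / η ^ 2)
    (hL : 1 ≤ L) :
    ∃ k : ℕ, L ≤ k ∧ L ≤ (1 - η) * k / s0 ∧ (1 + η) * k / s0 ≤ (1 + 8 * η) * L := by
  have hη2 : 0 < η ^ 2 := by positivity
  have hs1 : 64 ≤ s0 := by
    rw [hs, le_div_iff₀ hη2]
    nlinarith
  have hs0 : 0 < s0 := by linarith
  have h1η : 0 < 1 - η := by linarith
  have hval : 0 ≤ s0 * L / (1 - η) := by positivity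
  refine ⟨⌈s0 * L / (1 - η)⌉₊, ?_, ?_, ?_⟩
  · have h1 := Nat.le_ceil (s0 * L / (1 - η))
    have h2 : L ≤ s0 * L / (1 - η) := by
      rw [le_div_iff₀ h1η]
      nlinarith
    linarith
  · have h1 := Nat.le_ceil (s0 * L / (1 - η))
    rw [le_div_iff₀ hs0]
    rw [div_le_iff₀ h1η] at h1
    linarith
  · have h1 : ((⌈s0 * L / (1 - η)⌉₊ : ℕ) : ℝ) < s0 * L / (1 - η) + 1 := Nat.ceil_lt_add_one hval
    rw [div_le_iff₀ hs0]
    have h2 : s0 * L / (1 - η) ≤ (1 + 3 / 2 * η) * (s0 * L) := by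
      rw [div_le_iff₀ h1η]
      have : 1 ≤ (1 + 3 / 2 * η) * (1 - η) := by nlinarith
      have h3 : 0 ≤ s0 * L := by positivity
      nlinarith
    have h4 : (1 + η) * ((⌈s0 * L / (1 - η)⌉₊ : ℕ) : ℝ) ≤
        (1 + η) * ((1 + 3 / 2 * η) * (s0 * L) + 1) :=
      mul_le_mul_of_nonneg_left (by linarith) (by linarith)
    have h5 : (1 + η) * (1 + 3 / 2 * η) ≤ 1 + 3 * η := by nlinarith
    have h6 : 0 ≤ s0 * L := by positivity
    have h7 : 1 + η ≤ 5 * η * (s0 * L) := by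
      have h8 : 5 * η * s0 ≥ 2 := by
        rw [hs]
        have h9 : 5 * η * (64 / η ^ 2) = 320 / η := by field_simp; ring
        rw [h9, ge_iff_le, le_div_iff₀ hη]
        linarith
      have h10 : 5 * η * s0 * 1 ≤ 5 * η * s0 * L := by
        refine mul_le_mul_of_nonneg_left hL ?_
        linarith
      nlinarith
    calc (1 + η) * ((⌈s0 * L / (1 - η)⌉₊ : ℕ) : ℝ) ≤
        (1 + η) * ((1 + 3 / 2 * η) * (s0 * L) + 1) := h4
      _ = (1 + η) * (1 + 3 / 2 * η) * (s0 * L) + (1 + η) := by ring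
      _ ≤ (1 + 3 * η) * (s0 * L) + 5 * η * (s0 * L) :=
          add_le_add (mul_le_mul_of_nonneg_right h5 h6) h7
      _ = (1 + 8 * η) * L * s0 := by ring

/-- The main inequality at one `k`. -/
private theorem ex_main {s0 δ ρ lo hi C1 r C2 q C3 : ℝ} {k : ℕ} (hs0 : 1 < s0) (hδ : 0 < δ)
    (hδ1 : δ < 1 / 6) (hρ : ρ = s0 - 1 / 6 + δ) (hlo : 0 < lo)
    (hJ : |J s0 k| ≤ C1 * (1 / r) ^ k)
    (hT : ∫ y in Set.Ioi (0 : ℝ) \ Set.Icc lo hi,
        Real.exp y * Real.exp (-s0 * y) * y ^ k / (k.factorial : ℝ) ≤ C2 * (q / s0) ^ k)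
    (hC3 : 0 < C3) (hE : ∀ x : ℝ, 1 ≤ x → |E x| ≤ C3 * x)
    (hsign : (∀ y ∈ Set.Icc lo hi, 0 < E (Real.exp y)) ∨
      (∀ y ∈ Set.Icc lo hi, E (Real.exp y) < 0))
    (hbig : ∀ y ∈ Set.Icc lo hi, Real.exp ((1 / 6 - δ) * y) ≤ |E (Real.exp y)|) :
    (1 / ρ) ^ (k + 1) ≤ C1 * (1 / r) ^ k + (C3 + 1) * (C2 * (q / s0) ^ k) := by
  have hρ0 : 0 < ρ := by rw [hρ]; linarith
  set W : Set ℝ := Set.Icc lo hi with hW
  set f : ℝ → ℝ := fun y => E (Real.exp y) * Real.exp (-s0 * y) * y ^ k / (k.factorial : ℝ)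
    with hf
  set g : ℝ → ℝ := fun y => Real.exp y * Real.exp (-s0 * y) * y ^ k / (k.factorial : ℝ) with hg
  set p : ℝ → ℝ := fun y => Real.exp (-ρ * y) * y ^ k / (k.factorial : ℝ) with hp
  have hk : 0 < (k.factorial : ℝ) := by exact_mod_cast Nat.factorial_pos k
  have hfI : IntegrableOn f (Set.Ioi 0) := J_integrable hs0 k
  have hpI : IntegrableOn p (Set.Ioi 0) := (gam hρ0 k).1
  have hpv : ∫ y in Set.Ioi (0 : ℝ), p y = (1 / ρ) ^ (k + 1) := (gam hρ0 k).2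
  have hgI : IntegrableOn g (Set.Ioi 0) := by
    have h := (gam (B := s0 - 1) (by linarith) k).1
    refine h.congr_fun (fun y _ => ?_) measurableSet_Ioi
    have h1 : Real.exp (-(s0 - 1) * y) = Real.exp y * Real.exp (-s0 * y) := by
      rw [← Real.exp_add]
      congr 1
      ring
    simp only [hg, h1]
  have hWs : W ⊆ Set.Ioi 0 := fun y hy => lt_of_lt_of_le hlo hy.1
  have hWm : MeasurableSet W := measurableSet_Icc
  have hDm : MeasurableSet (Set.Ioi (0 : ℝ) \ W) := measurableSet_Ioi.diff hWm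
  have hsplit : ∀ h : ℝ → ℝ, IntegrableOn h (Set.Ioi 0) →
      ∫ y in Set.Ioi (0 : ℝ), h y = (∫ y in W, h y) + ∫ y in Set.Ioi (0 : ℝ) \ W, h y := by
    intro h hh
    have h1 := setIntegral_union (μ := volume) (f := h) (s := W) (t := Set.Ioi (0 : ℝ) \ W)
      Set.disjoint_sdiff_right hDm (hh.mono_set hWs) (hh.mono_set Set.sdiff_subset)
    rw [← h1, Set.union_sdiff_cancel hWs]
  -- the part outside
  have hout : |∫ y in Set.Ioi (0 : ℝ) \ W, f y| ≤ C3 * (C2 * (q / s0) ^ k) := by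
    calc |∫ y in Set.Ioi (0 : ℝ) \ W, f y| ≤ ∫ y in Set.Ioi (0 : ℝ) \ W, |f y| :=
          abs_integral_le_integral_abs
      _ ≤ ∫ y in Set.Ioi (0 : ℝ) \ W, C3 * g y := by
          refine setIntegral_mono_on (hfI.mono_set Set.sdiff_subset).abs
            ((hgI.mono_set Set.sdiff_subset).const_mul C3) hDm fun y hy => ?_
          have hy0 : (0 : ℝ) < y := hy.1
          have h1 := hE (Real.exp y) (Real.one_le_exp hy0.le)
          simp only [hf, hg]
          rw [abs_div, abs_mul, abs_mul, abs_of_pos (Real.exp_pos _), abs_of_pos hk,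
            abs_of_nonneg (by positivity : (0 : ℝ) ≤ y ^ k)]
          have h2 : |E (Real.exp y)| * Real.exp (-s0 * y) * y ^ k / (k.factorial : ℝ) ≤
              C3 * Real.exp y * Real.exp (-s0 * y) * y ^ k / (k.factorial : ℝ) := by gcongr
          refine h2.trans (le_of_eq ?_)
          ring
      _ = C3 * ∫ y in Set.Ioi (0 : ℝ) \ W, g y := integral_const_mul _ _
      _ ≤ C3 * (C2 * (q / s0) ^ k) := mul_le_mul_of_nonneg_left hT hC3.le
  -- the part inside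
  have hin : ∫ y in W, p y ≤ |∫ y in W, f y| := by
    have hpf : ∀ y ∈ W, p y ≤ |E (Real.exp y)| * Real.exp (-s0 * y) * y ^ k /
        (k.factorial : ℝ) := by
      intro y hy
      have hy0 : (0 : ℝ) < y := hWs hy
      have h1 : Real.exp (-ρ * y) = Real.exp ((1 / 6 - δ) * y) * Real.exp (-s0 * y) := by
        rw [← Real.exp_add, hρ]
        congr 1
        ring
      simp only [hp]
      rw [h1]
      have := hbig y hy
      gcongr
    rcases hsign with hs | hs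
    · have h1 : ∫ y in W, p y ≤ ∫ y in W, f y := by
        refine setIntegral_mono_on (hpI.mono_set hWs) (hfI.mono_set hWs) hWm fun y hy => ?_
        have h2 := hpf y hy
        rw [abs_of_pos (hs y hy)] at h2
        exact h2
      exact h1.trans (le_abs_self _)
    · have h1 : ∫ y in W, p y ≤ ∫ y in W, -f y := by
        refine setIntegral_mono_on (hpI.mono_set hWs) (hfI.mono_set hWs).neg hWm fun y hy => ?_
        have h2 := hpf y hy
        rw [abs_of_neg (hs y hy)] at h2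
        refine h2.trans (le_of_eq ?_)
        simp only [hf]
        ring
      rw [integral_neg] at h1
      exact h1.trans (neg_le_abs _)
  -- the Gamma integral outside
  have hpo : ∫ y in Set.Ioi (0 : ℝ) \ W, p y ≤ C2 * (q / s0) ^ k := by
    refine le_trans ?_ hT
    refine setIntegral_mono_on (hpI.mono_set Set.sdiff_subset) (hgI.mono_set Set.sdiff_subset)
      hDm fun y hy => ?_
    have hy0 : (0 : ℝ) < y := hy.1
    have h1 : Real.exp (-ρ * y) ≤ Real.exp y * Real.exp (-s0 * y) := by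
      rw [← Real.exp_add, Real.exp_le_exp, hρ]
      nlinarith
    simp only [hp]
    gcongr
  have h1 := hsplit f hfI
  have h2 := hsplit p hpI
  have hJv : J s0 k = ∫ y in Set.Ioi (0 : ℝ), f y := rfl
  have h3 : |∫ y in W, f y| ≤ |J s0 k| + |∫ y in Set.Ioi (0 : ℝ) \ W, f y| := by
    have h4 : ∫ y in W, f y = J s0 k - ∫ y in Set.Ioi (0 : ℝ) \ W, f y := by
      rw [hJv, h1]
      ring
    rw [h4]
    exact abs_sub _ _
  rw [hpv] at h2
  linarith

theorem exist {ε : ℝ} (hε : 0 < ε) : ∃ δ : ℝ, 0 < δ ∧ δ < 1 / 6 ∧ ∃ X₀ : ℝ, ∀ X : ℝ, X₀ ≤ X →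
    ∃ x : ℝ, X ≤ x ∧ x ≤ X ^ (1 + ε) ∧ |E x| ≤ x ^ (1 / 6 - δ) := by
  set η : ℝ := min ε 1 / 8 with hη
  have hη0 : 0 < η := by positivity
  have hη1 : η ≤ 1 / 8 := by
    rw [hη]
    have := min_le_right ε 1
    linarith
  have hηε : 8 * η ≤ ε := by
    rw [hη]
    have := min_le_left ε 1
    linarith
  set s0 : ℝ := 64 / η ^ 2 with hs0
  have hs64 : 64 ≤ s0 := by
    rw [hs0, le_div_iff₀ (by positivity)]
    nlinarith
  obtain ⟨C1, r, hC1, hr, hJ⟩ := J_bound (s0 := s0) (by linarith)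
  set δ : ℝ := min (1 / 12) ((r - s0 + 1 / 6) / 2) with hδ
  have hδ0 : 0 < δ := lt_min (by norm_num) (by linarith)
  have hδ1 : δ ≤ 1 / 12 := min_le_left _ _
  have hδ2 : δ ≤ (r - s0 + 1 / 6) / 2 := min_le_right _ _
  set ρ : ℝ := s0 - 1 / 6 + δ with hρ
  have hρ0 : 0 < ρ := by rw [hρ]; linarith
  have hρr : ρ < r := by rw [hρ]; linarith
  have hρs : ρ < s0 := by rw [hρ]; linarith
  have hr0 : 0 < r := by linarith
  obtain ⟨C2, q, hC2, hq0, hq1, hT⟩ := tail (η := η) (s0 := s0) hη0 (by linarith) le_rfl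
  obtain ⟨C3, hC3, hE⟩ := E_bound
  obtain ⟨C0, hC0, hsg⟩ := E_sign
  -- the limit
  have hlim : Tendsto (fun k : ℕ => C1 * (ρ / r) ^ k + (C3 + 1) * (C2 * (q * ρ / s0) ^ k)) atTop
      (𝓝 0) := by
    have h1 : Tendsto (fun k : ℕ => (ρ / r) ^ k) atTop (𝓝 0) :=
      tendsto_pow_atTop_nhds_zero_of_lt_one (by positivity) ((div_lt_one hr0).2 hρr)
    have h2 : Tendsto (fun k : ℕ => (q * ρ / s0) ^ k) atTop (𝓝 0) := by
      refine tendsto_pow_atTop_nhds_zero_of_lt_one (by positivity) ?_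
      rw [div_lt_one (by linarith)]
      nlinarith
    have h3 := (h1.const_mul C1).add ((h2.const_mul C2).const_mul (C3 + 1))
    simpa using h3
  have hev : ∀ᶠ k : ℕ in atTop, C1 * (ρ / r) ^ k + (C3 + 1) * (C2 * (q * ρ / s0) ^ k) < 1 / ρ :=
    hlim.eventually (gt_mem_nhds (by positivity))
  obtain ⟨K0, hK0⟩ := eventually_atTop.1 hev
  have hlog : ∀ᶠ X : ℝ in atTop, max 1 (K0 : ℝ) ≤ Real.log X :=
    Real.tendsto_log_atTop.eventually_ge_atTop _
  have hpow : ∀ᶠ X : ℝ in atTop, C0 + 1 ≤ X ^ (1 / 6 - δ) :=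
    (tendsto_rpow_atTop (by linarith : (0 : ℝ) < 1 / 6 - δ)).eventually_ge_atTop _
  obtain ⟨X₀, hX₀⟩ := eventually_atTop.1 ((hlog.and hpow).and (eventually_ge_atTop 1))
  refine ⟨δ, hδ0, by linarith, X₀, fun X hX => ?_⟩
  obtain ⟨⟨hXl, hXp⟩, hX1⟩ := hX₀ X hX
  by_contra hcon
  push Not at hcon
  have hX0 : 0 < X := by linarith
  have hL1 : 1 ≤ Real.log X := (le_max_left _ _).trans hXl
  have hLK : (K0 : ℝ) ≤ Real.log X := (le_max_right _ _).trans hXl
  obtain ⟨k, hk1, hk2, hk3⟩ := ex_window hη0 hη1 hs0 hL1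
  set lo : ℝ := (1 - η) * k / s0 with hlo
  set hi : ℝ := (1 + η) * k / s0 with hhi
  have hmem : ∀ y ∈ Set.Icc lo hi, X ≤ Real.exp y ∧ Real.exp y ≤ X ^ (1 + ε) := by
    intro y hy
    constructor
    · rw [← Real.exp_log hX0, Real.exp_le_exp]
      exact hk2.trans hy.1
    · rw [Real.rpow_def_of_pos hX0, Real.exp_le_exp]
      have h1 : y ≤ (1 + 8 * η) * Real.log X := hy.2.trans hk3
      have h2 : (1 + 8 * η) * Real.log X ≤ (1 + ε) * Real.log X :=
        mul_le_mul_of_nonneg_right (by linarith) (by linarith)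
      linarith
  have hbig : ∀ y ∈ Set.Icc lo hi, Real.exp ((1 / 6 - δ) * y) ≤ |E (Real.exp y)| := by
    intro y hy
    have h1 := hcon (Real.exp y) (hmem y hy).1 (hmem y hy).2
    rw [← Real.exp_mul] at h1
    rw [mul_comm]
    exact h1.le
  have hC : ∀ x, X ≤ x → x ≤ X ^ (1 + ε) → C0 < |E x| := by
    intro x hx1 hx2
    have h1 := hcon x hx1 hx2
    have h2 : X ^ (1 / 6 - δ) ≤ x ^ (1 / 6 - δ) :=
      Real.rpow_le_rpow hX0.le hx1 (by linarith)
    linarith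
  have hsign : (∀ y ∈ Set.Icc lo hi, 0 < E (Real.exp y)) ∨
      (∀ y ∈ Set.Icc lo hi, E (Real.exp y) < 0) := by
    rcases hsg X (X ^ (1 + ε)) hX1 hC with h | h
    · exact Or.inl fun y hy => h _ (hmem y hy).1 (hmem y hy).2
    · exact Or.inr fun y hy => h _ (hmem y hy).1 (hmem y hy).2
  have hmain := ex_main (C2 := C2) (q := q) (hi := hi) (by linarith : 1 < s0) hδ0
    (by linarith : δ < 1 / 6) hρ (by linarith : 0 < lo) (hJ k) (hT k) hC3 hE hsign hbig
  have hkK : K0 ≤ k := by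
    have : (K0 : ℝ) ≤ k := hLK.trans hk1
    exact_mod_cast this
  have hfin := hK0 k hkK
  have h1 : ρ ^ k * (1 / ρ) ^ (k + 1) = 1 / ρ := by
    rw [pow_succ, ← mul_assoc, ← mul_pow, mul_one_div_cancel hρ0.ne', one_pow, one_mul]
  have h2 : ρ ^ k * (C1 * (1 / r) ^ k + (C3 + 1) * (C2 * (q / s0) ^ k)) =
      C1 * (ρ / r) ^ k + (C3 + 1) * (C2 * (q * ρ / s0) ^ k) := by
    have e1 : (ρ / r) ^ k = ρ ^ k * (1 / r) ^ k := by rw [← mul_pow]; congr 1; ring
    have e2 : (q * ρ / s0) ^ k = ρ ^ k * (q / s0) ^ k := by rw [← mul_pow]; congr 1; ring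
    rw [e1, e2]
    ring
  have h3 := mul_le_mul_of_nonneg_left hmain (by positivity : (0 : ℝ) ≤ ρ ^ k)
  rw [h1, h2] at h3
  linarith

end Pool.PWE
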