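import Pool.Agent.PWE.Lap
import Pool.Agent.PWE.Gam

/-!
# PWE IDENT: the constants are A = cA and B = cB

s0 = 2. E x = (Q x - A' √x - B' x^(1/3)) + a √x + b x^(1/3), a = A' - cA, b = B' - cB.
So (gam with B = 2 - 1/5, 2 - 1/2, 2 - 1/3)
|a (3/2)^(-k-1) + b (5/3)^(-k-1)| <= |J 2 k| + C (9/5)^(-k-1) <= C1 r^(-k) + C (9/5)^(-k-1) with
r > 2 - 1/6 (J_bound). Multiply with (3/2)^(k+1), k -> oo: a = 0; then with (5/3)^(k+1):
b = 0.
-/

set_option autoImplicit false

open Complex Finset Filter Topology MeasureTheory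

namespace Pool.PWE

private theorem lim_zero {a b p q ρ M : ℝ} (hq : 0 < q) (hqp : q < p) (hρ : 0 ≤ ρ) (hρp : ρ < p)
    (h : ∀ k : ℕ, |a * p ^ (k + 1) + b * q ^ (k + 1)| ≤ M * ρ ^ k) : a = 0 := by
  have hp : 0 < p := hq.trans hqp
  have h1 : Tendsto (fun k : ℕ => M / p * (ρ / p) ^ k) atTop (𝓝 (M / p * 0)) :=
    (tendsto_pow_atTop_nhds_zero_of_lt_one (div_nonneg hρ hp.le) ((div_lt_one hp).2 hρp)).const_mul _
  have h2 : Tendsto (fun k : ℕ => |b| * (q / p) ^ (k + 1)) atTop (𝓝 (|b| * 0)) := by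
    have := (tendsto_pow_atTop_nhds_zero_of_lt_one (div_nonneg hq.le hp.le)
      ((div_lt_one hp).2 hqp))
    exact ((tendsto_add_atTop_iff_nat 1).2 this).const_mul _
  have h3 := h1.add h2
  rw [mul_zero, mul_zero, add_zero] at h3
  have h4 : ∀ k : ℕ, |a| ≤ M / p * (ρ / p) ^ k + |b| * (q / p) ^ (k + 1) := by
    intro k
    have hpk : 0 < p ^ (k + 1) := by positivity
    have e1 : |a| * p ^ (k + 1) ≤ M * ρ ^ k + |b| * q ^ (k + 1) := by
      have e2 : |a * p ^ (k + 1)| ≤ |a * p ^ (k + 1) + b * q ^ (k + 1)| + |b * q ^ (k + 1)| := by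
        have := abs_sub (a * p ^ (k + 1) + b * q ^ (k + 1)) (b * q ^ (k + 1))
        rw [add_sub_cancel_right] at this
        exact this
      rw [abs_mul, abs_mul b, abs_of_pos hpk, abs_of_pos (by positivity : 0 < q ^ (k + 1))] at e2
      have := h k
      linarith
    have e3 : |a| ≤ (M * ρ ^ k + |b| * q ^ (k + 1)) / p ^ (k + 1) := (le_div_iff₀ hpk).2 e1
    have e4 : (M * ρ ^ k + |b| * q ^ (k + 1)) / p ^ (k + 1) =
        M / p * (ρ / p) ^ k + |b| * (q / p) ^ (k + 1) := by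
      rw [div_pow, div_pow, pow_succ p k]
      field_simp
    rw [e4] at e3
    exact e3
  have h5 : |a| ≤ 0 := ge_of_tendsto' h3 h4
  exact abs_eq_zero.1 (le_antisymm h5 (abs_nonneg a))

theorem ident {A' B' C : ℝ} (h : ∀ x : ℝ, 1 ≤ x →
    |(Q x : ℝ) - A' * √x - B' * x ^ (1 / 3 : ℝ)| ≤ C * x ^ (1 / 5 : ℝ)) : A' = cA ∧ B' = cB := by
  have hC : 0 ≤ C := by
    have := (abs_nonneg _).trans (h 1 le_rfl)
    rwa [Real.one_rpow, mul_one] at this
  obtain ⟨C1, r, hC1, hr, hJ⟩ := J_bound (s0 := 2) (by norm_num)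
  obtain ⟨a, ha⟩ : ∃ a, a = A' - cA := ⟨_, rfl⟩
  obtain ⟨b, hb⟩ : ∃ b, b = B' - cB := ⟨_, rfl⟩
  have key : ∀ k : ℕ, |a * (2 / 3) ^ (k + 1) + b * (3 / 5) ^ (k + 1)| ≤ (C1 + C) * (5 / 9) ^ k := by
    intro k
    obtain ⟨i1, v1⟩ := gam (B := 3 / 2) (by norm_num) k
    obtain ⟨i2, v2⟩ := gam (B := 5 / 3) (by norm_num) k
    obtain ⟨i3, v3⟩ := gam (B := 9 / 5) (by norm_num) k
    have i0 := J_integrable (s0 := 2) (by norm_num) k
    set f : ℝ → ℝ := fun y => E (Real.exp y) * Real.exp (-2 * y) * y ^ k / (k.factorial : ℝ)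
      with hf
    set g1 : ℝ → ℝ := fun y => Real.exp (-(3 / 2) * y) * y ^ k / (k.factorial : ℝ) with hg1
    set g2 : ℝ → ℝ := fun y => Real.exp (-(5 / 3) * y) * y ^ k / (k.factorial : ℝ) with hg2
    set g3 : ℝ → ℝ := fun y => Real.exp (-(9 / 5) * y) * y ^ k / (k.factorial : ℝ) with hg3
    have hpt : ∀ y ∈ Set.Ioi (0 : ℝ), ‖f y - (a * g1 y + b * g2 y)‖ ≤ C * g3 y := by
      intro y hy
      have hy0 : 0 < y := hy
      obtain ⟨w, hw⟩ : ∃ w, w = Real.exp (-2 * y) * y ^ k / (k.factorial : ℝ) := ⟨_, rfl⟩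
      have hw0 : 0 ≤ w := by rw [hw]; positivity
      have e1 : g1 y = √(Real.exp y) * w := by
        rw [hg1, hw, ← Real.exp_half]
        simp only
        have : Real.exp (-(3 / 2) * y) = Real.exp (y / 2) * Real.exp (-2 * y) := by
          rw [← Real.exp_add]; congr 1; ring
        rw [this]; ring
      have e2 : g2 y = (Real.exp y) ^ (1 / 3 : ℝ) * w := by
        rw [hg2, hw, ← Real.exp_mul]
        simp only
        have : Real.exp (-(5 / 3) * y) = Real.exp (y * (1 / 3)) * Real.exp (-2 * y) := by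
          rw [← Real.exp_add]; congr 1; ring
        rw [this]; ring
      have e3 : g3 y = (Real.exp y) ^ (1 / 5 : ℝ) * w := by
        rw [hg3, hw, ← Real.exp_mul]
        simp only
        have : Real.exp (-(9 / 5) * y) = Real.exp (y * (1 / 5)) * Real.exp (-2 * y) := by
          rw [← Real.exp_add]; congr 1; ring
        rw [this]; ring
      have e0 : f y = E (Real.exp y) * w := by rw [hf, hw]; simp only; ring
      have hx := h (Real.exp y) (Real.one_le_exp hy0.le)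
      have e4 : f y - (a * g1 y + b * g2 y) = ((Q (Real.exp y) : ℝ) - A' * √(Real.exp y)
          - B' * (Real.exp y) ^ (1 / 3 : ℝ)) * w := by
        rw [e0, e1, e2, ha, hb]
        unfold E
        ring
      rw [e4, e3, Real.norm_eq_abs, abs_mul, abs_of_nonneg hw0, ← mul_assoc]
      exact mul_le_mul_of_nonneg_right hx hw0
    have hint : ∫ y in Set.Ioi (0 : ℝ), (f y - (a * g1 y + b * g2 y)) =
        J 2 k - (a * (1 / (3 / 2)) ^ (k + 1) + b * (1 / (5 / 3)) ^ (k + 1)) := by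
      have s1 : IntegrableOn (fun y => a * g1 y + b * g2 y) (Set.Ioi (0 : ℝ)) :=
        (i1.const_mul a).add (i2.const_mul b)
      have s2 : ∫ y in Set.Ioi (0 : ℝ), (a * g1 y + b * g2 y) =
          a * (1 / (3 / 2)) ^ (k + 1) + b * (1 / (5 / 3)) ^ (k + 1) := by
        rw [← v1, ← v2, ← integral_const_mul, ← integral_const_mul]
        exact integral_add (i1.const_mul a) (i2.const_mul b)
      rw [← s2]
      exact integral_sub i0 s1
    have hle : |∫ y in Set.Ioi (0 : ℝ), (f y - (a * g1 y + b * g2 y))| ≤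
        C * (1 / (9 / 5)) ^ (k + 1) := by
      rw [← v3, ← integral_const_mul, ← Real.norm_eq_abs]
      refine norm_integral_le_of_norm_le (i3.const_mul C) ?_
      exact (ae_restrict_iff' measurableSet_Ioi).2 (ae_of_all _ hpt)
    rw [hint] at hle
    have hJk := hJ k
    have q1 : (1 / r) ^ k ≤ (5 / 9 : ℝ) ^ k := by
      have hr0 : 0 < r := by linarith
      refine pow_le_pow_left₀ (by positivity) ?_ k
      rw [div_le_div_iff₀ hr0 (by norm_num)]
      linarith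
    have q2 : (1 / (9 / 5) : ℝ) ^ (k + 1) ≤ (5 / 9 : ℝ) ^ k := by
      have : (1 / (9 / 5) : ℝ) = 5 / 9 := by norm_num
      rw [this]
      exact pow_le_pow_of_le_one (by norm_num) (by norm_num) (Nat.le_succ k)
    have q3 : (1 / (3 / 2) : ℝ) = 2 / 3 := by norm_num
    have q4 : (1 / (5 / 3) : ℝ) = 3 / 5 := by norm_num
    rw [q3, q4] at hle
    have q5 : |J 2 k| ≤ C1 * (5 / 9) ^ k := hJk.trans (mul_le_mul_of_nonneg_left q1 hC1.le)
    have q6 : C * (1 / (9 / 5)) ^ (k + 1) ≤ C * (5 / 9) ^ k := mul_le_mul_of_nonneg_left q2 hC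
    have q7 := abs_sub (J 2 k) (J 2 k - (a * (2 / 3) ^ (k + 1) + b * (3 / 5) ^ (k + 1)))
    rw [sub_sub_cancel] at q7
    calc |a * (2 / 3) ^ (k + 1) + b * (3 / 5) ^ (k + 1)|
        ≤ |J 2 k| + |J 2 k - (a * (2 / 3) ^ (k + 1) + b * (3 / 5) ^ (k + 1))| := q7
      _ ≤ C1 * (5 / 9) ^ k + C * (5 / 9) ^ k := by linarith
      _ = (C1 + C) * (5 / 9) ^ k := by ring
  have ha0 : a = 0 := lim_zero (p := 2 / 3) (q := 3 / 5) (ρ := 5 / 9) (by norm_num) (by norm_num)
    (by norm_num) (by norm_num) key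
  have key2 : ∀ k : ℕ, |b * (3 / 5) ^ (k + 1) + 0 * (1 / 2) ^ (k + 1)| ≤ (C1 + C) * (5 / 9) ^ k := by
    intro k
    have := key k
    rw [ha0, zero_mul, zero_add] at this
    rw [zero_mul, add_zero]
    exact this
  have hb0 : b = 0 := lim_zero (p := 3 / 5) (q := 1 / 2) (ρ := 5 / 9) (by norm_num) (by norm_num)
    (by norm_num) (by norm_num) key2
  constructor
  · rw [ha0] at ha; linarith
  · rw [hb0] at hb; linarith

end Pool.PWE
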