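import Pool.Agent.PWE.Loca
import Pool.Agent.PWE.Ident
import Pool.Agent.PWE.Exist

/-!
# PWE FIN: the main theorem
-/

set_option autoImplicit false

open Complex Finset Filter Topology MeasureTheory

namespace Pool.PWE

theorem main {ε : ℝ} (hε : 0 < ε) (hε1 : ε < 1) : ∃ δ : ℝ, 0 < δ ∧ ∃ X₀ : ℝ,
    (∀ x h : ℝ, X₀ ≤ x → 0 ≤ h → h ≤ x ^ (1 - ε) → |E (x + h) - E x| ≤ x ^ (1 / 6 - δ)) ∧
    ∀ X : ℝ, X₀ ≤ X → ∃ y : ℝ, X ≤ y ∧ y ≤ X ^ (1 + ε) ∧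
      ∀ x : ℝ, y ≤ x → x ≤ y + y ^ (1 - ε) → |E x| ≤ x ^ (1 / 6 - δ) := by
  obtain ⟨A', B', ⟨C, hC, hglob⟩, hloc⟩ := loca
  obtain ⟨rfl, rfl⟩ := ident hglob
  obtain ⟨δ1, C1, hδ1, hδ1', hC1, h1⟩ := hloc ε hε hε1
  obtain ⟨δ2, hδ2, hδ2', X2, h2⟩ := exist hε
  have hE : ∀ x h : ℝ, 1 ≤ x → 0 ≤ h → h ≤ x ^ (1 - ε) →
      |E (x + h) - E x| ≤ C1 * x ^ (1 / 6 - δ1) := fun x h hx hh hhx => h1 x h hx hh hhx
  set d : ℝ := min δ1 δ2 / 2 with hd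
  have hd0 : 0 < d := by
    have := lt_min hδ1 hδ2
    rw [hd]
    linarith
  have hd1 : 2 * d ≤ δ1 := by
    have := min_le_left δ1 δ2
    rw [hd]
    linarith
  have hd2 : 2 * d ≤ δ2 := by
    have := min_le_right δ1 δ2
    rw [hd]
    linarith
  have hd6 : d < 1 / 6 := by linarith
  set X0 : ℝ := max (max 1 X2) ((C1 + 1) ^ (1 / d)) with hX0
  have hbig : ∀ y : ℝ, X0 ≤ y → 1 ≤ y ∧ X2 ≤ y ∧ C1 + 1 ≤ y ^ d := by
    intro y hy
    have a1 : 1 ≤ y := le_trans (le_trans (le_max_left 1 X2) (le_max_left _ _)) hy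
    have a2 : X2 ≤ y := le_trans (le_trans (le_max_right 1 X2) (le_max_left _ _)) hy
    have a3 : (C1 + 1) ^ (1 / d) ≤ y := le_trans (le_max_right _ _) hy
    refine ⟨a1, a2, ?_⟩
    have h3 := Real.rpow_le_rpow (by positivity) a3 hd0.le
    rw [← Real.rpow_mul (by positivity), one_div, inv_mul_cancel₀ hd0.ne', Real.rpow_one] at h3
    exact h3
  have hfin : ∀ y : ℝ, X0 ≤ y → (C1 + 1) * y ^ (1 / 6 - 2 * d) ≤ y ^ (1 / 6 - d) := by
    intro y hy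
    obtain ⟨a1, a2, a3⟩ := hbig y hy
    have hy0 : 0 < y := by linarith
    calc (C1 + 1) * y ^ (1 / 6 - 2 * d) ≤ y ^ d * y ^ (1 / 6 - 2 * d) :=
          mul_le_mul_of_nonneg_right a3 (by positivity)
      _ = y ^ (1 / 6 - d) := by
          rw [← Real.rpow_add hy0]
          congr 1
          ring
  refine ⟨d, hd0, X0, ?_, ?_⟩
  · intro x h hx hh hhx
    obtain ⟨a1, a2, a3⟩ := hbig x hx
    have e1 := hE x h a1 hh hhx
    have e2 : x ^ (1 / 6 - δ1) ≤ x ^ (1 / 6 - 2 * d) :=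
      Real.rpow_le_rpow_of_exponent_le a1 (by linarith)
    have e3 := hfin x hx
    have e4 : 0 ≤ x ^ (1 / 6 - 2 * d) := by positivity
    nlinarith
  · intro X hX
    obtain ⟨a1, a2, a3⟩ := hbig X hX
    obtain ⟨y, hy1, hy2, hy3⟩ := h2 X a2
    refine ⟨y, hy1, hy2, ?_⟩
    intro x hx1 hx2
    have hyX0 : X0 ≤ y := hX.trans hy1
    obtain ⟨b1, b2, b3⟩ := hbig y hyX0
    have e1 := hE y (x - y) b1 (by linarith) (by linarith)
    rw [add_sub_cancel] at e1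
    have e2 : y ^ (1 / 6 - δ1) ≤ y ^ (1 / 6 - 2 * d) :=
      Real.rpow_le_rpow_of_exponent_le b1 (by linarith)
    have e2' : y ^ (1 / 6 - δ2) ≤ y ^ (1 / 6 - 2 * d) :=
      Real.rpow_le_rpow_of_exponent_le b1 (by linarith)
    have e3 := hfin y hyX0
    have e4 : |E x| ≤ |E y| + |E x - E y| := by
      have := abs_add_le (E y) (E x - E y)
      rwa [add_sub_cancel] at this
    have e5 : y ^ (1 / 6 - d) ≤ x ^ (1 / 6 - d) :=
      Real.rpow_le_rpow (by linarith) hx1 (by linarith)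
    have e6 : 0 ≤ y ^ (1 / 6 - 2 * d) := by
      have : 0 < y := by linarith
      positivity
    nlinarith

end Pool.PWE
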