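import Pool.Agent.PWE.Dir

/-!
# PWE ANA: analytic continuation of F(s)/s - A/(s-1/2) - B/(s-1/3) to a disc around s0 of radius
larger than s0 - 1/6

Z w = (w-1) ζ(w), entire, Z 1 = 1 (Mathlib: DirichletCharacter.LFunctionTrivChar₁ 1, see
Pool/Agent/OMG/Zet.lean for the facts), Z w ≠ 0 for 1 ≤ Re w. For Re s > 1:
F(s)/s = Z(2s) Z(3s) (6s-1) / ((2s-1)(3s-1) s Z(6s)) = h(s)/((s-1/2)(s-1/3)),
h(s) = Z(2s) Z(3s) (6s-1)/(6 s Z(6s)), holomorphic on the open set U = {s ≠ 0, Z(6s) ≠ 0}, and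
1/((s-1/2)(s-1/3)) = 6/(s-1/2) - 6/(s-1/3). 6 h(1/2) = ζ(3/2)/ζ(3), 6 h(1/3) = -ζ(2/3)/ζ(2)
(Z(2/3) = -ζ(2/3)/3). So F(s)/s - A/(s-1/2) - B/(s-1/3) = dslope (6h) (1/2) s - dslope (6h) (1/3) s
near s0, holomorphic on U. The compact disc closedBall s0 (s0 - 1/6) is in U (there
Re s >= 1/6), hence so is a ball of larger radius (IsCompact.exists_cthickening_subset_open or
exists_thickening_subset_open). The constants are real: ζ(conj s) = conj ζ(s)
(identity theorem, or the series for Re s > 1; see Lf_conj in Pool/Agent/OMG/Ser.lean).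
-/

set_option autoImplicit false

open Complex Finset Filter Topology MeasureTheory

namespace Pool.PWE

/-- ana: `(w - 1) ζ(w)` -/
private noncomputable def anaZ : ℂ → ℂ := DirichletCharacter.LFunctionTrivChar₁ 1

private lemma anaZ_diff : Differentiable ℂ anaZ :=
  DirichletCharacter.differentiable_LFunctionTrivChar₁ 1

private lemma anaZ_of_ne {w : ℂ} (hw : w ≠ 1) : anaZ w = (w - 1) * riemannZeta w := by
  rw [anaZ, DirichletCharacter.LFunctionTrivChar₁, Function.update_of_ne hw,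
    DirichletCharacter.LFunctionTrivChar, DirichletCharacter.LFunction_modOne_eq]

private lemma anaZ_one : anaZ 1 = 1 := by
  rw [anaZ, DirichletCharacter.LFunctionTrivChar₁, Function.update_self]
  simp

private lemma anaZ_ne {w : ℂ} (hw : 1 ≤ w.re) : anaZ w ≠ 0 := by
  rcases eq_or_ne w 1 with rfl | hw'
  · rw [anaZ_one]
    exact one_ne_zero
  · rw [anaZ_of_ne hw', mul_ne_zero_iff]
    exact ⟨sub_ne_zero_of_ne hw', riemannZeta_ne_zero_of_one_le_re hw⟩

private lemma ana_real {x : ℝ} : (starRingEnd ℂ) (riemannZeta (x : ℂ)) = riemannZeta (x : ℂ) := by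
  rw [← riemannZeta_conj, Complex.conj_ofReal]

theorem cA_eq : (cA : ℂ) = riemannZeta (3 / 2) / riemannZeta 3 := by
  have e1 := ana_real (x := 3 / 2)
  have e2 := ana_real (x := 3)
  push_cast at e1 e2
  unfold cA
  rw [← Complex.conj_eq_iff_re, map_div₀, e1, e2]

theorem cB_eq : (cB : ℂ) = riemannZeta (2 / 3) / riemannZeta 2 := by
  have e1 := ana_real (x := 2 / 3)
  have e2 := ana_real (x := 2)
  push_cast at e1 e2
  unfold cB
  rw [← Complex.conj_eq_iff_re, map_div₀, e1, e2]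

/-- ana: six times the function h -/
private noncomputable def anaH (s : ℂ) : ℂ :=
  anaZ (2 * s) * anaZ (3 * s) * (6 * s - 1) / (s * anaZ (6 * s))

/-- ana: the domain -/
private def anaU : Set ℂ := {s | s ≠ 0 ∧ anaZ (6 * s) ≠ 0}

private lemma anaU_open : IsOpen anaU := by
  have hc : Continuous fun s : ℂ => anaZ (6 * s) := anaZ_diff.continuous.comp (by fun_prop)
  exact isOpen_ne.inter (isOpen_ne_fun hc continuous_const)

private lemma anaU_mem {s : ℂ} (hs : 1 / 6 ≤ s.re) : s ∈ anaU := by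
  constructor
  · intro h
    rw [h] at hs
    norm_num at hs
  · refine anaZ_ne ?_
    have : ((6 : ℂ) * s).re = 6 * s.re := by simp
    rw [this]
    linarith

private lemma anaH_diff : DifferentiableOn ℂ anaH anaU := by
  intro s hs
  have h (c : ℂ) : DifferentiableAt ℂ (fun s : ℂ => anaZ (c * s)) s :=
    DifferentiableAt.comp s (anaZ_diff (c * s)) (by fun_prop)
  have h1 : DifferentiableAt ℂ (fun s : ℂ => anaZ (2 * s) * anaZ (3 * s) * (6 * s - 1)) s :=
    ((h 2).mul (h 3)).mul (by fun_prop)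
  have h2 : DifferentiableAt ℂ (fun s : ℂ => s * anaZ (6 * s)) s :=
    differentiableAt_id.mul (h 6)
  exact (h1.div h2 (mul_ne_zero hs.1 hs.2)).differentiableWithinAt

private lemma anaH_half : anaH (1 / 2) = cA := by
  have e1 : (2 : ℂ) * (1 / 2) = 1 := by norm_num
  have e2 : (3 : ℂ) * (1 / 2) = 3 / 2 := by norm_num
  have e3 : (6 : ℂ) * (1 / 2) = 3 := by norm_num
  have h3 : riemannZeta 3 ≠ 0 := riemannZeta_ne_zero_of_one_le_re (by norm_num)
  rw [cA_eq, anaH, e1, e2, e3, anaZ_one, anaZ_of_ne (by norm_num), anaZ_of_ne (by norm_num)]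
  field_simp
  ring

private lemma anaH_third : anaH (1 / 3) = -cB := by
  have e1 : (2 : ℂ) * (1 / 3) = 2 / 3 := by norm_num
  have e2 : (3 : ℂ) * (1 / 3) = 1 := by norm_num
  have e3 : (6 : ℂ) * (1 / 3) = 2 := by norm_num
  have h3 : riemannZeta 2 ≠ 0 := riemannZeta_ne_zero_of_one_le_re (by norm_num)
  rw [cB_eq, anaH, e1, e2, e3, anaZ_one, anaZ_of_ne (by norm_num), anaZ_of_ne (by norm_num)]
  field_simp
  ring

private lemma ana_alg1 {a b c s u v w : ℂ} (hs : s ≠ 0) (hw : w ≠ 0) (hc : c ≠ 0) :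
    (2 * u * a) * (3 * v * b) * w / (s * (w * c)) = a * b / c / s * (6 * (u * v)) := by
  field_simp
  ring

private lemma ana_alg2 {k A B u v : ℂ} (hu : u ≠ 0) (hv : v ≠ 0) (huv : v = u + 1 / 6) :
    k - A / u - B / v = (k * (6 * (u * v)) - A) / u - (k * (6 * (u * v)) - (-B)) / v := by
  have e1 : (k * (6 * (u * v)) - A) / u = 6 * k * v - A / u := by
    field_simp
  have e2 : (k * (6 * (u * v)) - (-B)) / v = 6 * k * u + B / v := by
    field_simp
    ring
  rw [e1, e2, huv]
  ring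

theorem ana {s0 : ℝ} (h : 1 < s0) : ∃ (r : ℝ) (g : ℂ → ℂ), s0 - 1 / 6 < r ∧
    DifferentiableOn ℂ g (Metric.ball (s0 : ℂ) r) ∧
    (fun s => LSeries pw s / s - cA / (s - 1 / 2) - cB / (s - 1 / 3)) =ᶠ[𝓝 (s0 : ℂ)] g := by
  have hK : IsCompact (Metric.closedBall (s0 : ℂ) (s0 - 1 / 6)) := isCompact_closedBall _ _
  have hKU : Metric.closedBall (s0 : ℂ) (s0 - 1 / 6) ⊆ anaU := by
    intro s hs
    refine anaU_mem ?_
    rw [Metric.mem_closedBall, dist_eq_norm] at hs
    have h1 := Complex.abs_re_le_norm (s - (s0 : ℂ))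
    rw [Complex.sub_re, Complex.ofReal_re] at h1
    have h2 := (abs_le.1 (h1.trans hs)).1
    linarith
  obtain ⟨δ, hδ, hδU⟩ := hK.exists_thickening_subset_open anaU_open hKU
  rw [thickening_closedBall hδ (by linarith)] at hδU
  refine ⟨δ + (s0 - 1 / 6), fun s => dslope anaH (1 / 2) s - dslope anaH (1 / 3) s,
    by linarith, ?_, ?_⟩
  · have hd : ∀ c : ℂ, c ∈ anaU → DifferentiableOn ℂ (dslope anaH c) anaU := fun c hc =>
      (Complex.differentiableOn_dslope (anaU_open.mem_nhds hc)).2 anaH_diff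
    exact ((hd _ (anaU_mem (by norm_num))).sub (hd _ (anaU_mem (by norm_num)))).mono hδU
  · have hopen : {s : ℂ | 1 < s.re} ∈ 𝓝 (s0 : ℂ) :=
      (isOpen_lt continuous_const Complex.continuous_re).mem_nhds (by simpa using h)
    filter_upwards [hopen] with s hs
    have hs' : 1 < s.re := hs
    have n1 : s ≠ 1 / 2 := by
      intro h0
      rw [h0] at hs'
      norm_num at hs'
    have n2 : s ≠ 1 / 3 := by
      intro h0
      rw [h0] at hs'
      norm_num at hs'
    have n0 : s ≠ 0 := by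
      intro h0
      rw [h0] at hs'
      norm_num at hs'
    rw [dslope_of_ne _ n1, dslope_of_ne _ n2, slope_def_field, slope_def_field, anaH_half,
      anaH_third]
    have re2 : ((2 : ℂ) * s).re = 2 * s.re := by simp
    have re3 : ((3 : ℂ) * s).re = 3 * s.re := by simp
    have re6 : ((6 : ℂ) * s).re = 6 * s.re := by simp
    have hne : ∀ w : ℂ, 1 < w.re → w ≠ 1 := by
      intro w hw h0
      rw [h0] at hw
      norm_num at hw
    have z2 := anaZ_of_ne (hne (2 * s) (by rw [re2]; linarith))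
    have z3 := anaZ_of_ne (hne (3 * s) (by rw [re3]; linarith))
    have z6 := anaZ_of_ne (hne (6 * s) (by rw [re6]; linarith))
    have h6 : riemannZeta (6 * s) ≠ 0 := riemannZeta_ne_zero_of_one_le_re (by rw [re6]; linarith)
    have h61 : (6 : ℂ) * s - 1 ≠ 0 := sub_ne_zero_of_ne (hne (6 * s) (by rw [re6]; linarith))
    have hL : LSeries pw s = riemannZeta (2 * s) * riemannZeta (3 * s) / riemannZeta (6 * s) := by
      rw [eq_div_iff h6]
      exact dir hs'
    have m1 : s - 1 / 2 ≠ 0 := sub_ne_zero_of_ne n1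
    have m2 : s - 1 / 3 ≠ 0 := sub_ne_zero_of_ne n2
    have hH : anaH s = riemannZeta (2 * s) * riemannZeta (3 * s) / riemannZeta (6 * s) / s *
        (6 * ((s - 1 / 2) * (s - 1 / 3))) := by
      rw [anaH, z2, z3, z6, show (2 : ℂ) * s - 1 = 2 * (s - 1 / 2) by ring,
        show (3 : ℂ) * s - 1 = 3 * (s - 1 / 3) by ring]
      exact ana_alg1 n0 h61 h6
    rw [hL, hH]
    exact ana_alg2 m1 m2 (by ring)

end Pool.PWE
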