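import Pool.Agent.PWE.Defs

/-!
# PWE CNT: the triples with large m

D v counts pairs; for v <= v': D v' - D v counts the pairs with v < a^2 b^3 <= v'. So the
left side counts triples (m, a, b), m > M, x < m^6 a^2 b^3 <= x + h (note
a^2 b^3 <= ⌊x/m^6⌋ ↔ m^6 a^2 b^3 <= x). For such a triple a, b <= a^2 b^3 <= (x+h)/M^6 <= P; for
fixed (a, b), v = a^2 b^3 >= 1, the m lie in ((x/v)^(1/6), ((x+h)/v)^(1/6)], an interval of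
length <= h x^(-5/6) (concavity), so there are at most 1 + h x^(-5/6) of them; and at most
P^2 pairs.
-/

set_option autoImplicit false

open Complex Finset Filter Topology MeasureTheory

namespace Pool.PWE

/-- the pairs counted by `D` -/
noncomputable def FF (u : ℝ) : Finset (ℕ × ℕ) :=
  (Icc 1 ⌊u⌋₊ ×ˢ Icc 1 ⌊u⌋₊).filter (fun t : ℕ × ℕ => t.1 ^ 2 * t.2 ^ 3 ≤ ⌊u⌋₊)

theorem D_eq (u : ℝ) : D u = (FF u).card := rfl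

theorem le_prod {a b : ℕ} (ha : 1 ≤ a) (hb : 1 ≤ b) : a ≤ a ^ 2 * b ^ 3 ∧ b ≤ a ^ 2 * b ^ 3 := by
  have h1 : a ≤ a ^ 2 := Nat.le_self_pow two_ne_zero a
  have h2 : b ≤ b ^ 3 := Nat.le_self_pow three_ne_zero b
  have h3 : 1 ≤ a ^ 2 := Nat.one_le_pow _ _ ha
  have h4 : 1 ≤ b ^ 3 := Nat.one_le_pow _ _ hb
  exact ⟨h1.trans (Nat.le_mul_of_pos_right _ h4), h2.trans (Nat.le_mul_of_pos_left _ h3)⟩

theorem mem_FF {u : ℝ} {t : ℕ × ℕ} : t ∈ FF u ↔ 1 ≤ t.1 ∧ 1 ≤ t.2 ∧ t.1 ^ 2 * t.2 ^ 3 ≤ ⌊u⌋₊ := by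
  unfold FF
  rw [mem_filter, mem_product, mem_Icc, mem_Icc]
  constructor
  · rintro ⟨⟨⟨h1, _⟩, h2, _⟩, h3⟩
    exact ⟨h1, h2, h3⟩
  · rintro ⟨h1, h2, h3⟩
    have h4 := le_prod h1 h2
    exact ⟨⟨⟨h1, h4.1.trans h3⟩, h2, h4.2.trans h3⟩, h3⟩

theorem D_mono {u v : ℝ} (h : u ≤ v) : D u ≤ D v := by
  rw [D_eq, D_eq]
  refine card_le_card fun t ht => ?_
  rw [mem_FF] at ht ⊢
  exact ⟨ht.1, ht.2.1, ht.2.2.trans (Nat.floor_mono h)⟩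

theorem D_zero {u : ℝ} (h : u < 1) : D u = 0 := by
  rw [D_eq, card_eq_zero, eq_empty_iff_forall_notMem]
  intro t ht
  rw [mem_FF] at ht
  have h1 : ⌊u⌋₊ = 0 := Nat.floor_eq_zero.2 h
  have h2 := le_prod ht.1 ht.2.1
  omega

/-- the numbers `m` with `x < m ^ 6 v ≤ x + h` -/
theorem card_m {x h : ℝ} (hx : 1 ≤ x) (hh : 0 ≤ h) (S : Finset ℕ) {v : ℝ} (hv : 1 ≤ v) :
    ((S.filter fun m : ℕ => x < (m : ℝ) ^ 6 * v ∧ (m : ℝ) ^ 6 * v ≤ x + h).card : ℝ) ≤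
      1 + h * x ^ (-(5 / 6) : ℝ) := by
  classical
  have hx0 : 0 < x := by linarith
  have hxp : 0 < x ^ (-(5 / 6) : ℝ) := Real.rpow_pos_of_pos hx0 _
  set G := S.filter fun m : ℕ => x < (m : ℝ) ^ 6 * v ∧ (m : ℝ) ^ 6 * v ≤ x + h with hG
  rcases G.eq_empty_or_nonempty with h0 | hne
  · rw [h0, card_empty, Nat.cast_zero]
    positivity
  · set m1 := G.min' hne with hm1
    set m2 := G.max' hne with hm2
    have i1 := (mem_filter.1 (G.min'_mem hne)).2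
    have i2 := (mem_filter.1 (G.max'_mem hne)).2
    rw [← hm1] at i1
    rw [← hm2] at i2
    have h12 : m1 ≤ m2 := G.min'_le_max' hne
    have hcard : G.card ≤ m2 + 1 - m1 := by
      rw [← Nat.card_Icc]
      exact card_le_card fun m hm => mem_Icc.2 ⟨G.min'_le m hm, G.le_max' m hm⟩
    obtain ⟨d, hd⟩ := Nat.exists_eq_add_of_le h12
    have hcard' : (G.card : ℝ) ≤ 1 + (d : ℝ) := by
      have : G.card ≤ 1 + d := by omega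
      exact_mod_cast this
    have hm2r : (m2 : ℝ) = (m1 : ℝ) + (d : ℝ) := by
      rw [hd]
      push_cast
      ring
    have hm0 : (0 : ℝ) ≤ (m1 : ℝ) := Nat.cast_nonneg _
    have hd0 : (0 : ℝ) ≤ (d : ℝ) := Nat.cast_nonneg _
    -- the power
    have hpow : x ^ (5 / 6 : ℝ) ≤ (m1 : ℝ) ^ 5 * v := by
      have e1 : (x ^ (5 / 6 : ℝ)) ^ 6 = x ^ 5 := by
        rw [← Real.rpow_natCast, ← Real.rpow_mul hx0.le, ← Real.rpow_natCast x 5]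
        norm_num
      have e2 : x ^ 5 ≤ ((m1 : ℝ) ^ 5 * v) ^ 6 := by
        calc x ^ 5 ≤ ((m1 : ℝ) ^ 6 * v) ^ 5 := pow_le_pow_left₀ hx0.le i1.1.le 5
          _ = (m1 : ℝ) ^ 30 * v ^ 5 := by ring
          _ ≤ (m1 : ℝ) ^ 30 * v ^ 6 :=
            mul_le_mul_of_nonneg_left (pow_le_pow_right₀ hv (by norm_num)) (by positivity)
          _ = _ := by ring
      have e3 : 0 ≤ (m1 : ℝ) ^ 5 * v := by positivity
      exact (pow_le_pow_iff_left₀ (by positivity) e3 (by norm_num : (6 : ℕ) ≠ 0)).1 (by rw [e1]; exact e2)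
    have hdiff : (d : ℝ) * ((m1 : ℝ) ^ 5 * v) ≤ h := by
      have e4 : (m1 : ℝ) ^ 6 + (d : ℝ) * (m1 : ℝ) ^ 5 ≤ (m2 : ℝ) ^ 6 := by
        rw [hm2r]
        have : ((m1 : ℝ) + (d : ℝ)) ^ 6 = (m1 : ℝ) ^ 6 + (d : ℝ) * (m1 : ℝ) ^ 5 +
            (5 * (d : ℝ) * (m1 : ℝ) ^ 5 + 15 * (m1 : ℝ) ^ 4 * (d : ℝ) ^ 2 +
              20 * (m1 : ℝ) ^ 3 * (d : ℝ) ^ 3 + 15 * (m1 : ℝ) ^ 2 * (d : ℝ) ^ 4 +
              6 * (m1 : ℝ) * (d : ℝ) ^ 5 + (d : ℝ) ^ 6) := by ring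
        rw [this]
        have : 0 ≤ 5 * (d : ℝ) * (m1 : ℝ) ^ 5 + 15 * (m1 : ℝ) ^ 4 * (d : ℝ) ^ 2 +
              20 * (m1 : ℝ) ^ 3 * (d : ℝ) ^ 3 + 15 * (m1 : ℝ) ^ 2 * (d : ℝ) ^ 4 +
              6 * (m1 : ℝ) * (d : ℝ) ^ 5 + (d : ℝ) ^ 6 := by positivity
        linarith
      have e5 : ((m1 : ℝ) ^ 6 + (d : ℝ) * (m1 : ℝ) ^ 5) * v ≤ (m2 : ℝ) ^ 6 * v :=
        mul_le_mul_of_nonneg_right e4 (by linarith)
      have e6 : ((m1 : ℝ) ^ 6 + (d : ℝ) * (m1 : ℝ) ^ 5) * v =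
          (m1 : ℝ) ^ 6 * v + (d : ℝ) * ((m1 : ℝ) ^ 5 * v) := by ring
      rw [e6] at e5
      linarith [i1.1, i2.2]
    have hfin : (d : ℝ) ≤ h * x ^ (-(5 / 6) : ℝ) := by
      have e7 : (d : ℝ) * x ^ (5 / 6 : ℝ) ≤ h := (mul_le_mul_of_nonneg_left hpow hd0).trans hdiff
      rw [Real.rpow_neg hx0.le, ← div_eq_mul_inv, le_div_iff₀ (Real.rpow_pos_of_pos hx0 _)]
      exact e7
    linarith

theorem cnt {x h P : ℝ} {M : ℕ} (hx : 1 ≤ x) (hh : 0 ≤ h) (hM : 1 ≤ M)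
    (hP : (x + h) / (M : ℝ) ^ 6 ≤ P) (S : Finset ℕ) (hS : ∀ m ∈ S, M < m) :
    ∑ m ∈ S, ((D ((x + h) / (m : ℝ) ^ 6) : ℝ) - (D (x / (m : ℝ) ^ 6) : ℝ)) ≤
      P ^ 2 * (1 + h * x ^ (-(5 / 6) : ℝ)) := by
  classical
  have hx0 : 0 < x := by linarith
  have hP0 : 0 ≤ P := le_trans (by positivity) hP
  set B : Finset (ℕ × ℕ) := Icc 1 ⌊P⌋₊ ×ˢ Icc 1 ⌊P⌋₊ with hB
  have key : ∀ m ∈ S, (D ((x + h) / (m : ℝ) ^ 6) : ℝ) - (D (x / (m : ℝ) ^ 6) : ℝ) ≤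
      ∑ t ∈ B, if x < (m : ℝ) ^ 6 * ((t.1 : ℝ) ^ 2 * (t.2 : ℝ) ^ 3) ∧
        (m : ℝ) ^ 6 * ((t.1 : ℝ) ^ 2 * (t.2 : ℝ) ^ 3) ≤ x + h then (1 : ℝ) else 0 := by
    intro m hm
    have hMm := hS m hm
    have hm6 : (0 : ℝ) < (m : ℝ) ^ 6 := by
      have : 0 < m := by omega
      positivity
    have hvP : (x + h) / (m : ℝ) ^ 6 ≤ P := by
      refine le_trans (div_le_div_of_nonneg_left (by linarith) ?_ ?_) hP
      · have : 0 < M := by omega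
        positivity
      · exact pow_le_pow_left₀ (Nat.cast_nonneg _) (by exact_mod_cast hMm.le) 6
    have hsub : FF ((x + h) / (m : ℝ) ^ 6) ⊆ FF (x / (m : ℝ) ^ 6) ∪ B.filter (fun t =>
        x < (m : ℝ) ^ 6 * ((t.1 : ℝ) ^ 2 * (t.2 : ℝ) ^ 3) ∧
        (m : ℝ) ^ 6 * ((t.1 : ℝ) ^ 2 * (t.2 : ℝ) ^ 3) ≤ x + h) := by
      intro t ht
      rw [mem_union]
      by_cases h1 : t ∈ FF (x / (m : ℝ) ^ 6)
      · exact Or.inl h1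
      · right
        rw [mem_FF] at ht h1
        obtain ⟨ha, hb, hab⟩ := ht
        have h2 : ¬ t.1 ^ 2 * t.2 ^ 3 ≤ ⌊x / (m : ℝ) ^ 6⌋₊ := fun h3 => h1 ⟨ha, hb, h3⟩
        have h4 : ((t.1 ^ 2 * t.2 ^ 3 : ℕ) : ℝ) ≤ (x + h) / (m : ℝ) ^ 6 :=
          (Nat.le_floor_iff (by positivity)).1 hab
        have h5 : x / (m : ℝ) ^ 6 < ((t.1 ^ 2 * t.2 ^ 3 : ℕ) : ℝ) :=
          (Nat.floor_lt (by positivity)).1 (not_le.1 h2)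
        push_cast at h4 h5
        rw [mem_filter, hB, mem_product, mem_Icc, mem_Icc]
        have h6 := le_prod ha hb
        have h7 : t.1 ^ 2 * t.2 ^ 3 ≤ ⌊P⌋₊ := hab.trans (Nat.floor_mono hvP)
        refine ⟨⟨⟨ha, h6.1.trans h7⟩, hb, h6.2.trans h7⟩, ?_, ?_⟩
        · rw [div_lt_iff₀ hm6] at h5
          linarith
        · rw [le_div_iff₀ hm6] at h4
          linarith
    have hcard := (card_le_card hsub).trans (card_union_le _ _)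
    have hcard' : (D ((x + h) / (m : ℝ) ^ 6) : ℝ) ≤ (D (x / (m : ℝ) ^ 6) : ℝ) +
        ((B.filter (fun t => x < (m : ℝ) ^ 6 * ((t.1 : ℝ) ^ 2 * (t.2 : ℝ) ^ 3) ∧
        (m : ℝ) ^ 6 * ((t.1 : ℝ) ^ 2 * (t.2 : ℝ) ^ 3) ≤ x + h)).card : ℝ) := by
      rw [D_eq, D_eq]
      exact_mod_cast hcard
    rw [← sum_filter, sum_const, nsmul_eq_mul, mul_one]
    linarith
  calc ∑ m ∈ S, ((D ((x + h) / (m : ℝ) ^ 6) : ℝ) - (D (x / (m : ℝ) ^ 6) : ℝ))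
      ≤ ∑ m ∈ S, ∑ t ∈ B, (if x < (m : ℝ) ^ 6 * ((t.1 : ℝ) ^ 2 * (t.2 : ℝ) ^ 3) ∧
        (m : ℝ) ^ 6 * ((t.1 : ℝ) ^ 2 * (t.2 : ℝ) ^ 3) ≤ x + h then (1 : ℝ) else 0) :=
        sum_le_sum key
    _ = ∑ t ∈ B, ∑ m ∈ S, (if x < (m : ℝ) ^ 6 * ((t.1 : ℝ) ^ 2 * (t.2 : ℝ) ^ 3) ∧
        (m : ℝ) ^ 6 * ((t.1 : ℝ) ^ 2 * (t.2 : ℝ) ^ 3) ≤ x + h then (1 : ℝ) else 0) := sum_comm
    _ ≤ ∑ _t ∈ B, (1 + h * x ^ (-(5 / 6) : ℝ)) := by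
        refine sum_le_sum fun t ht => ?_
        rw [hB, mem_product, mem_Icc, mem_Icc] at ht
        have hv : (1 : ℝ) ≤ (t.1 : ℝ) ^ 2 * (t.2 : ℝ) ^ 3 := by
          have h1 : (1 : ℝ) ≤ (t.1 : ℝ) := by exact_mod_cast ht.1.1
          have h2 : (1 : ℝ) ≤ (t.2 : ℝ) := by exact_mod_cast ht.2.1
          exact one_le_mul_of_one_le_of_one_le (one_le_pow₀ h1) (one_le_pow₀ h2)
        have := card_m hx hh S hv
        rw [← sum_filter, sum_const, nsmul_eq_mul, mul_one]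
        exact this
    _ = ((⌊P⌋₊ : ℝ) * (⌊P⌋₊ : ℝ)) * (1 + h * x ^ (-(5 / 6) : ℝ)) := by
        rw [sum_const, nsmul_eq_mul, hB, card_product, Nat.card_Icc, Nat.add_sub_cancel]
        push_cast
        ring
    _ ≤ P ^ 2 * (1 + h * x ^ (-(5 / 6) : ℝ)) := by
        have h1 : (⌊P⌋₊ : ℝ) ≤ P := Nat.floor_le hP0
        have h2 : (0 : ℝ) ≤ (⌊P⌋₊ : ℝ) := Nat.cast_nonneg _
        have h3 : 0 ≤ 1 + h * x ^ (-(5 / 6) : ℝ) := by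
          have := Real.rpow_pos_of_pos hx0 (-(5 / 6))
          positivity
        refine mul_le_mul_of_nonneg_right ?_ h3
        nlinarith

end Pool.PWE
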