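import Mathlib

/-!
# PWE: the error term in the count of powerful numbers, definitions (helper14)
-/

set_option autoImplicit false

open Complex Finset Filter Topology MeasureTheory

namespace Pool.PWE

/-- n is powerful: every prime divisor divides it at least twice. -/
def Powerful (n : ℕ) : Prop := ∀ p : ℕ, p.Prime → p ∣ n → p ^ 2 ∣ n

open Classical in
/-- the number of powerful integers 1 ≤ n ≤ x -/
noncomputable def Q (x : ℝ) : ℕ := ((Icc 1 ⌊x⌋₊).filter (fun n : ℕ => Powerful n)).card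

/-- A = ζ(3/2) / ζ(3) (a real number) -/
noncomputable def cA : ℝ := (riemannZeta (3 / 2) / riemannZeta 3).re

/-- B = ζ(2/3) / ζ(2) (a real number) -/
noncomputable def cB : ℝ := (riemannZeta (2 / 3) / riemannZeta 2).re

/-- the error term E(x) = Q(x) - A x^(1/2) - B x^(1/3) -/
noncomputable def E (x : ℝ) : ℝ := (Q x : ℝ) - cA * √x - cB * x ^ (1 / 3 : ℝ)

open Classical in
/-- the indicator of the powerful numbers -/
noncomputable def pw (n : ℕ) : ℂ := if Powerful n then 1 else 0

/-- the number of pairs (a, b) of positive integers with a ^ 2 * b ^ 3 ≤ u -/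
noncomputable def D (u : ℝ) : ℕ :=
  ((Icc 1 ⌊u⌋₊ ×ˢ Icc 1 ⌊u⌋₊).filter (fun t : ℕ × ℕ => t.1 ^ 2 * t.2 ^ 3 ≤ ⌊u⌋₊)).card

/-- Gamma weighted averages of the error term -/
noncomputable def J (s0 : ℝ) (k : ℕ) : ℝ :=
  ∫ y in Set.Ioi (0 : ℝ), E (Real.exp y) * Real.exp (-s0 * y) * y ^ k / (k.factorial : ℝ)

/-- the sawtooth function {x} - 1/2 -/
noncomputable def saw (x : ℝ) : ℝ := Int.fract x - 1 / 2

end Pool.PWE
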