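import Pool.Agent.PWE.Defs

/-!
# PWE DIR: the Dirichlet series of the powerful numbers

f n = pw n * n^(-s) is multiplicative on coprime arguments and summable for Re s > 1;
EulerProduct.eulerProduct_hasProd with the local factor (x = p^(-s))
1 + x^2 + x^3 + ... = 1 + x^2/(1-x) = (1 - x^6)/((1 - x^2)(1 - x^3))
(Powerful (p^e) ↔ e ≠ 1), and riemannZeta_eulerProduct_hasProd at 2s, 3s, 6s; multiply with
HasProd.mul and use uniqueness of the product.
-/

set_option autoImplicit false

open Complex Finset Filter Topology MeasureTheory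

namespace Pool.PWE

private theorem powerful_mul {m n : ℕ} (h : Nat.Coprime m n) :
    Powerful (m * n) ↔ Powerful m ∧ Powerful n := by
  constructor
  · intro H
    refine ⟨fun p hp hd => ?_, fun p hp hd => ?_⟩
    · have h1 := H p hp (hd.mul_right n)
      have h2 : Nat.Coprime (p ^ 2) n :=
        Nat.Coprime.pow_left 2 (Nat.Coprime.coprime_dvd_left hd h)
      exact h2.dvd_of_dvd_mul_right h1
    · have h1 := H p hp (hd.mul_left m)
      have h2 : Nat.Coprime (p ^ 2) m :=
        Nat.Coprime.pow_left 2 (Nat.Coprime.coprime_dvd_left hd h.symm)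
      exact h2.dvd_of_dvd_mul_left h1
  · rintro ⟨H1, H2⟩ p hp hd
    rcases hp.dvd_mul.1 hd with h1 | h1
    · exact (H1 p hp h1).mul_right n
    · exact (H2 p hp h1).mul_left m

private theorem powerful_one : Powerful 1 := fun _ hp hd =>
  absurd (Nat.dvd_one.1 hd) hp.one_lt.ne'

private theorem powerful_pow {p : ℕ} (hp : p.Prime) (e : ℕ) : Powerful (p ^ e) ↔ e ≠ 1 := by
  constructor
  · rintro H rfl
    have h1 := H p hp (by simp)
    rw [pow_one] at h1
    have h2 := Nat.le_of_dvd hp.pos h1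
    have h3 := hp.two_le
    nlinarith
  · intro he q hq hd
    have h1 : q ∣ p := hq.dvd_of_dvd_pow hd
    have h2 : q = p := (Nat.prime_dvd_prime_iff_eq hq hp).1 h1
    subst h2
    rcases Nat.eq_zero_or_pos e with h0 | h0
    · rw [h0, pow_zero] at hd
      exact absurd (Nat.dvd_one.1 hd) hq.one_lt.ne'
    · exact pow_dvd_pow _ (by omega)

private theorem pw_le (n : ℕ) : ‖pw n‖ ≤ 1 := by
  unfold pw
  split_ifs <;> simp

theorem pw_summable {s : ℂ} (hs : 1 < s.re) : LSeriesSummable pw s :=
  LSeriesSummable_of_bounded_of_one_lt_re (m := 1) (fun n _ => pw_le n) hs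

private theorem pw_mul {m n : ℕ} (h : Nat.Coprime m n) : pw (m * n) = pw m * pw n := by
  unfold pw
  by_cases h1 : Powerful m <;> by_cases h2 : Powerful n <;> simp [powerful_mul h, h1, h2]

private theorem term_mul (s : ℂ) {m n : ℕ} (h : Nat.Coprime m n) :
    LSeries.term pw s (m * n) = LSeries.term pw s m * LSeries.term pw s n := by
  rcases Nat.eq_zero_or_pos m with hm | hm
  · subst hm
    simp
  rcases Nat.eq_zero_or_pos n with hn | hn
  · subst hn
    simp
  rw [LSeries.term_of_ne_zero (by positivity), LSeries.term_of_ne_zero hm.ne',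
    LSeries.term_of_ne_zero hn.ne', pw_mul h]
  push_cast
  rw [Complex.natCast_mul_natCast_cpow]
  rw [div_mul_div_comm]

private theorem x_lt {s : ℂ} (hs : 1 < s.re) {p : ℕ} (hp : p.Prime) :
    ‖(p : ℂ) ^ (-s)‖ < 1 := by
  rw [Complex.norm_natCast_cpow_of_pos hp.pos]
  apply Real.rpow_lt_one_of_one_lt_of_neg
  · exact_mod_cast hp.one_lt
  · rw [Complex.neg_re]
    linarith

private theorem term_pow (s : ℂ) {p : ℕ} (hp : p.Prime) (e : ℕ) :
    LSeries.term pw s (p ^ e) = if e = 1 then 0 else ((p : ℂ) ^ (-s)) ^ e := by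
  have h0 : p ^ e ≠ 0 := pow_ne_zero _ hp.ne_zero
  rw [LSeries.term_of_ne_zero h0]
  have h1 : pw (p ^ e) = if e = 1 then 0 else 1 := by
    unfold pw
    by_cases he : e = 1
    · rw [if_pos he, if_neg]
      rw [powerful_pow hp]
      simpa using he
    · rw [if_neg he, if_pos]
      rw [powerful_pow hp]
      exact he
  rw [h1]
  split_ifs
  · simp
  · push_cast
    rw [← Complex.natCast_cpow_natCast_mul, Complex.cpow_nat_mul, Complex.cpow_neg, inv_pow,
      one_div]

theorem dir {s : ℂ} (hs : 1 < s.re) :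
    LSeries pw s * riemannZeta (6 * s) = riemannZeta (2 * s) * riemannZeta (3 * s) := by
  have hsum : Summable (fun n => ‖LSeries.term pw s n‖) := (pw_summable hs).norm
  have hE := EulerProduct.eulerProduct_hasProd (f := LSeries.term pw s)
    (by
      rw [LSeries.term_of_ne_zero one_ne_zero]
      unfold pw
      rw [if_pos powerful_one]
      simp)
    (fun {m n} h => term_mul s h) hsum (by simp)
  have h2 := riemannZeta_eulerProduct_hasProd (s := 2 * s) (by simp; linarith)
  have h3 := riemannZeta_eulerProduct_hasProd (s := 3 * s) (by simp; linarith)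
  have h6 := riemannZeta_eulerProduct_hasProd (s := 6 * s) (by simp; linarith)
  have hL := hE.mul h6
  have hR := h2.mul h3
  have hfun : (fun p : Nat.Primes => (∑' e, LSeries.term pw s ((p : ℕ) ^ e)) *
      (1 - ((p : ℕ) : ℂ) ^ (-(6 * s)))⁻¹) = (fun p : Nat.Primes =>
      (1 - ((p : ℕ) : ℂ) ^ (-(2 * s)))⁻¹ * (1 - ((p : ℕ) : ℂ) ^ (-(3 * s)))⁻¹) := by
    funext p
    have hp := p.2
    have hx := x_lt hs hp
    set x : ℂ := ((p : ℕ) : ℂ) ^ (-s) with hxd
    have e2 : ((p : ℕ) : ℂ) ^ (-(2 * s)) = x ^ 2 := by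
      rw [hxd, ← Complex.cpow_nat_mul]
      congr 1
      push_cast
      ring
    have e3 : ((p : ℕ) : ℂ) ^ (-(3 * s)) = x ^ 3 := by
      rw [hxd, ← Complex.cpow_nat_mul]
      congr 1
      push_cast
      ring
    have e6 : ((p : ℕ) : ℂ) ^ (-(6 * s)) = x ^ 6 := by
      rw [hxd, ← Complex.cpow_nat_mul]
      congr 1
      push_cast
      ring
    have hpow : ∀ k : ℕ, k ≠ 0 → x ^ k ≠ 1 := by
      intro k hk h
      have h1 : ‖x ^ k‖ < 1 := by
        rw [norm_pow]
        exact pow_lt_one₀ (norm_nonneg _) hx hk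
      rw [h] at h1
      simp at h1
    have hs1 : ∑' e : ℕ, LSeries.term pw s ((p : ℕ) ^ e) = (1 - x)⁻¹ - x := by
      have hg := hasSum_geometric_of_norm_lt_one hx
      have hd : HasSum (fun e : ℕ => if e = 1 then x else 0) x := hasSum_ite_eq 1 x
      have hh := hg.sub hd
      rw [← hh.tsum_eq]
      congr 1
      funext e
      rw [term_pow s hp e]
      by_cases he : e = 1
      · rw [if_pos he, if_pos he, he, pow_one, sub_self]
      · rw [if_neg he, if_neg he, sub_zero]
    rw [e2, e3, e6, hs1]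
    have n1 : (1 : ℂ) - x ≠ 0 := by
      intro h
      have := hpow 1 one_ne_zero
      rw [pow_one] at this
      exact this (sub_eq_zero.1 h).symm
    have n2 : (1 : ℂ) - x ^ 2 ≠ 0 := fun h => hpow 2 (by norm_num) (sub_eq_zero.1 h).symm
    have n3 : (1 : ℂ) - x ^ 3 ≠ 0 := fun h => hpow 3 (by norm_num) (sub_eq_zero.1 h).symm
    have n6 : (1 : ℂ) - x ^ 6 ≠ 0 := fun h => hpow 6 (by norm_num) (sub_eq_zero.1 h).symm
    field_simp
    ring
  rw [hfun] at hL
  exact hL.unique hR

end Pool.PWE
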