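import Pool.Agent.PWE.Eml

/-!
# PWE HYP: the hyperbola method for D(u)

B = ⌊u^(1/5)⌋ >= 1, Y = (u/B^3)^(1/2), N = ⌊Y⌋. Pairs with b <= B:
sum_{b <= B} ⌊(u/b^3)^(1/2)⌋; pairs with b > B have a <= Y:
sum_{a <= N} (⌊(u/a^2)^(1/3)⌋ - B). With ⌊x⌋ = x - 1/2 - saw x:
D = u^(1/2) sum_{b<=B} b^(-3/2) - B/2 + u^(1/3) sum_{a<=N} a^(-2/3) - N/2 - B N - (saw sums).
eml: sum_{b<=B} b^(-3/2) = α - 2 B^(-1/2) + B^(-3/2)/2 + O(B^(-5/2)) and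
sum_{a<=N} a^(-2/3) = β + 3 N^(1/3) + N^(-2/3)/2 + O(N^(-5/3)); errors u^(1/2) B^(-5/2) = O(1),
u^(1/3) N^(-5/3) = O(1) (B, N are >= c u^(1/5), N <= 3 u^(1/5)).
φ(t) = 3 u^(1/3) t^(1/3) - B t has φ'(Y) = 0, φ'' = O(u^(1/3) Y^(-5/3)) = O(1), so
φ(N) = φ(Y) + O(1) = 2 u^(1/2) B^(-1/2) + O(1), which cancels -2 u^(1/2) B^(-1/2);
u^(1/2) B^(-3/2)/2 = Y/2 = N/2 + O(1); u^(1/3) N^(-2/3)/2 = B/2 + O(1)
(derivative of t^(-2/3), u^(1/3) Y^(-2/3) = B).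
-/

set_option autoImplicit false

open Complex Finset Filter Topology MeasureTheory

namespace Pool.PWE

private lemma le_sq_iff {u : ℝ} (hu : 0 ≤ u) {a b : ℕ} (hb : 1 ≤ b) :
    a ≤ ⌊(u / (b : ℝ) ^ 3) ^ (1 / 2 : ℝ)⌋₊ ↔ (a : ℝ) ^ 2 * (b : ℝ) ^ 3 ≤ u := by
  have hb0 : (0 : ℝ) < (b : ℝ) ^ 3 := by positivity
  have hq : 0 ≤ u / (b : ℝ) ^ 3 := by positivity
  rw [Nat.le_floor_iff (by positivity), ← Real.sqrt_eq_rpow, Real.le_sqrt (by positivity) hq,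
    le_div_iff₀ hb0]

private lemma le_cu_iff {u : ℝ} (hu : 0 ≤ u) {a b : ℕ} (ha : 1 ≤ a) :
    b ≤ ⌊(u / (a : ℝ) ^ 2) ^ (1 / 3 : ℝ)⌋₊ ↔ (a : ℝ) ^ 2 * (b : ℝ) ^ 3 ≤ u := by
  have ha0 : (0 : ℝ) < (a : ℝ) ^ 2 := by positivity
  have hq : 0 ≤ u / (a : ℝ) ^ 2 := by positivity
  rw [Nat.le_floor_iff (by positivity)]
  have h1 : (b : ℝ) ≤ (u / (a : ℝ) ^ 2) ^ (1 / 3 : ℝ) ↔ (b : ℝ) ^ 3 ≤ u / (a : ℝ) ^ 2 := by
    have h2 : ((u / (a : ℝ) ^ 2) ^ (1 / 3 : ℝ)) ^ 3 = u / (a : ℝ) ^ 2 := by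
      rw [← Real.rpow_natCast, ← Real.rpow_mul hq]
      norm_num
    rw [← pow_le_pow_iff_left₀ (by positivity) (by positivity) (three_ne_zero), h2]
  rw [h1, le_div_iff₀ ha0, mul_comm]

private lemma mem_D {u : ℝ} (hu : 0 ≤ u) {a b : ℕ} :
    ((a, b) ∈ (Icc 1 ⌊u⌋₊ ×ˢ Icc 1 ⌊u⌋₊).filter (fun t : ℕ × ℕ => t.1 ^ 2 * t.2 ^ 3 ≤ ⌊u⌋₊)) ↔
      1 ≤ a ∧ 1 ≤ b ∧ (a : ℝ) ^ 2 * (b : ℝ) ^ 3 ≤ u := by
  rw [Finset.mem_filter, Finset.mem_product, Finset.mem_Icc, Finset.mem_Icc]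
  have h1 : a ^ 2 * b ^ 3 ≤ ⌊u⌋₊ ↔ (a : ℝ) ^ 2 * (b : ℝ) ^ 3 ≤ u := by
    rw [Nat.le_floor_iff hu]
    push_cast
    rfl
  simp only
  rw [h1]
  constructor
  · rintro ⟨⟨⟨h2, _⟩, h3, _⟩, h4⟩
    exact ⟨h2, h3, h4⟩
  · rintro ⟨h2, h3, h4⟩
    have h5 := h1.2 h4
    have h6 : a ≤ a ^ 2 * b ^ 3 := by
      calc a = a * 1 := (mul_one a).symm
        _ ≤ a * (a * b ^ 3) := Nat.mul_le_mul_left a (Nat.succ_le_of_lt (by positivity))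
        _ = a ^ 2 * b ^ 3 := by ring
    have h7 : b ≤ a ^ 2 * b ^ 3 := by
      calc b = b * 1 := (mul_one b).symm
        _ ≤ b * (a ^ 2 * b ^ 2) := Nat.mul_le_mul_left b (Nat.succ_le_of_lt (by positivity))
        _ = a ^ 2 * b ^ 3 := by ring
    exact ⟨⟨⟨h2, h6.trans h5⟩, h3, h7.trans h5⟩, h4⟩

/-- The hyperbola identity. -/
private lemma count {u Y : ℝ} {B N : ℕ} (hu : 0 ≤ u) (hB : 1 ≤ B) (hY : 0 ≤ Y)
    (hYu : Y ^ 2 * (B : ℝ) ^ 3 = u) (hN : N = ⌊Y⌋₊) :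
    (D u : ℝ) = ∑ b ∈ Icc 1 B, (⌊(u / (b : ℝ) ^ 3) ^ (1 / 2 : ℝ)⌋₊ : ℝ) +
      ∑ a ∈ Icc 1 N, ((⌊(u / (a : ℝ) ^ 2) ^ (1 / 3 : ℝ)⌋₊ : ℝ) - B) := by
  classical
  set S := (Icc 1 ⌊u⌋₊ ×ˢ Icc 1 ⌊u⌋₊).filter (fun t : ℕ × ℕ => t.1 ^ 2 * t.2 ^ 3 ≤ ⌊u⌋₊) with hS
  have hD : D u = S.card := rfl
  have hB0 : (0 : ℝ) < (B : ℝ) ^ 3 := by positivity
  have hsplit : S.card = (S.filter fun t => t.2 ≤ B).card + (S.filter fun t => ¬ t.2 ≤ B).card :=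
    (Finset.card_filter_add_card_filter_not _).symm
  have h1 : (S.filter fun t => t.2 ≤ B).card =
      ∑ b ∈ Icc 1 B, ⌊(u / (b : ℝ) ^ 3) ^ (1 / 2 : ℝ)⌋₊ := by
    rw [Finset.card_eq_sum_card_fiberwise (f := Prod.snd) (t := Icc 1 B)]
    · refine Finset.sum_congr rfl fun b hb => ?_
      rw [Finset.mem_Icc] at hb
      have hc : ⌊(u / (b : ℝ) ^ 3) ^ (1 / 2 : ℝ)⌋₊ =
          (Icc 1 ⌊(u / (b : ℝ) ^ 3) ^ (1 / 2 : ℝ)⌋₊).card := by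
        rw [Nat.card_Icc]
        omega
      rw [hc]
      refine Finset.card_nbij' (fun t => t.1) (fun a => (a, b)) ?_ ?_ ?_ ?_
      · rintro ⟨a, b'⟩ ht
        simp only [Finset.coe_filter, Set.mem_ofPred_eq, Finset.mem_filter] at ht
        obtain ⟨⟨ht1, _⟩, rfl⟩ := ht
        obtain ⟨h2, h3, h4⟩ := (mem_D hu).1 ht1
        simp only [Finset.coe_Icc, Set.mem_Icc]
        exact ⟨h2, (le_sq_iff hu h3).2 h4⟩
      · intro a ha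
        simp only [Finset.coe_Icc, Set.mem_Icc] at ha
        simp only [Finset.coe_filter, Set.mem_ofPred_eq, Finset.mem_filter, and_true]
        exact ⟨(mem_D hu).2 ⟨ha.1, hb.1, (le_sq_iff hu hb.1).1 ha.2⟩, hb.2⟩
      · rintro ⟨a, b'⟩ ht
        simp only [Finset.coe_filter, Set.mem_ofPred_eq, Finset.mem_filter] at ht
        rw [ht.2]
      · intro a _
        rfl
    · rintro ⟨a, b⟩ ht
      simp only [Finset.coe_filter, Set.mem_ofPred_eq] at ht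
      simp only [Finset.coe_Icc, Set.mem_Icc]
      exact ⟨((mem_D hu).1 ht.1).2.1, ht.2⟩
  have h2 : (S.filter fun t => ¬ t.2 ≤ B).card =
      ∑ a ∈ Icc 1 N, (⌊(u / (a : ℝ) ^ 2) ^ (1 / 3 : ℝ)⌋₊ - B) := by
    rw [Finset.card_eq_sum_card_fiberwise (f := Prod.fst) (t := Icc 1 N)]
    · refine Finset.sum_congr rfl fun a ha => ?_
      rw [Finset.mem_Icc] at ha
      rw [← Nat.card_Ioc B (⌊(u / (a : ℝ) ^ 2) ^ (1 / 3 : ℝ)⌋₊)]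
      refine Finset.card_nbij' (fun t => t.2) (fun b => (a, b)) ?_ ?_ ?_ ?_
      · rintro ⟨a', b⟩ ht
        simp only [Finset.coe_filter, Set.mem_ofPred_eq, Finset.mem_filter] at ht
        obtain ⟨⟨ht1, ht2⟩, rfl⟩ := ht
        obtain ⟨h2, h3, h4⟩ := (mem_D hu).1 ht1
        simp only [Finset.coe_Ioc, Set.mem_Ioc]
        exact ⟨not_le.1 ht2, (le_cu_iff hu h2).2 h4⟩
      · intro b hb
        simp only [Finset.coe_Ioc, Set.mem_Ioc] at hb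
        simp only [Finset.coe_filter, Set.mem_ofPred_eq, Finset.mem_filter, and_true]
        exact ⟨(mem_D hu).2 ⟨ha.1, by omega, (le_cu_iff hu ha.1).1 hb.2⟩, not_le.2 hb.1⟩
      · rintro ⟨a', b⟩ ht
        simp only [Finset.coe_filter, Set.mem_ofPred_eq, Finset.mem_filter] at ht
        rw [ht.2]
      · intro b _
        rfl
    · rintro ⟨a, b⟩ ht
      simp only [Finset.coe_filter, Set.mem_ofPred_eq] at ht
      simp only [Finset.coe_Icc, Set.mem_Icc]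
      obtain ⟨h3, h4, h5⟩ := (mem_D hu).1 ht.1
      refine ⟨h3, ?_⟩
      rw [hN, Nat.le_floor_iff hY]
      have h6 : (B : ℝ) ^ 3 ≤ (b : ℝ) ^ 3 := by
        have : (B : ℝ) ≤ b := by exact_mod_cast (not_le.1 ht.2).le
        gcongr
      have h7 : (a : ℝ) ^ 2 * (B : ℝ) ^ 3 ≤ Y ^ 2 * (B : ℝ) ^ 3 := by
        rw [hYu]
        exact le_trans (by gcongr) h5
      exact (pow_le_pow_iff_left₀ (Nat.cast_nonneg a) hY two_ne_zero).1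
        (le_of_mul_le_mul_right h7 hB0)
  rw [hD, hsplit, h1, h2]
  push_cast
  congr 1
  refine Finset.sum_congr rfl fun a ha => ?_
  rw [Finset.mem_Icc] at ha
  rw [Nat.cast_sub]
  rw [le_cu_iff hu ha.1, ← hYu]
  have h8 : (a : ℝ) ≤ Y := by
    have := ha.2
    rw [hN, Nat.le_floor_iff hY] at this
    exact this
  gcongr

private lemma floor_saw {x : ℝ} (hx : 0 ≤ x) : (⌊x⌋₊ : ℝ) = x - 1 / 2 - saw x := by
  have h1 : ((⌊x⌋₊ : ℤ) : ℝ) = (⌊x⌋ : ℝ) := by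
    rw [Int.natCast_floor_eq_floor hx]
  have h2 := Int.self_sub_floor x
  rw [saw, ← h2, ← h1]
  push_cast
  ring

/-- the elementary inequality behind the cancellation -/
private lemma core {B y n : ℝ} (hn : 1 ≤ n) (hny : n ≤ y) (hy : y ≤ 2 * n)
    (hθ : y ^ 3 - n ^ 3 ≤ 1) (hB0 : 0 ≤ B) (hB : B ≤ 2 * n ^ 3) :
    |-(2 * (y ^ 3 * B)) + y ^ 3 / 2 + 3 * (B * y ^ 2) * n + B * y ^ 2 * (n ^ 2)⁻¹ / 2 - B / 2 -
      n ^ 3 / 2 - B * n ^ 3| ≤ 4 := by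
  set d := y - n with hd
  have hd0 : 0 ≤ d := by linarith
  have hyd : y = n + d := by rw [hd]; ring
  have hn0 : 0 < n := by linarith
  have hy0 : 0 < y := by linarith
  have b1 : y + n ≤ 3 * n := by linarith
  have b2 : 2 * y + n ≤ 5 * n := by linarith
  have h3 : 3 * n ^ 2 * d ≤ 1 := by
    rw [hyd] at hθ
    nlinarith [mul_nonneg hn0.le (pow_nonneg hd0 2), pow_nonneg hd0 3]
  -- second term
  have hG : B * y ^ 2 * (n ^ 2)⁻¹ - B = B * d * (y + n) * (n ^ 2)⁻¹ := by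
    rw [hd]
    field_simp
    ring
  have hG0 : 0 ≤ B * d * (y + n) * (n ^ 2)⁻¹ := by positivity
  have hG1 : B * d * (y + n) * (n ^ 2)⁻¹ ≤ 2 := by
    have e1 : B * d * (y + n) * (n ^ 2)⁻¹ ≤ (2 * n ^ 3) * d * (3 * n) * (n ^ 2)⁻¹ := by
      gcongr
    have e2 : (2 * n ^ 3) * d * (3 * n) * (n ^ 2)⁻¹ = 2 * (3 * n ^ 2 * d) := by
      field_simp
    rw [e2] at e1
    linarith
  have hF0 : 0 ≤ B * d ^ 2 * (2 * y + n) := by positivity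
  have hF1 : B * d ^ 2 * (2 * y + n) ≤ 2 := by
    have e1 : B * d ^ 2 * (2 * y + n) ≤ (2 * n ^ 3) * d ^ 2 * (5 * n) := by
      gcongr
    have e2 : (2 * n ^ 3) * d ^ 2 * (5 * n) = (10 / 9) * (3 * n ^ 2 * d) ^ 2 := by ring
    have e3 : (3 * n ^ 2 * d) ^ 2 ≤ 1 := pow_le_one₀ (by positivity) h3
    rw [e2] at e1
    linarith
  have hT0 : 0 ≤ y ^ 3 - n ^ 3 := by
    have : n ^ 3 ≤ y ^ 3 := by gcongr
    linarith
  have key : -(2 * (y ^ 3 * B)) + y ^ 3 / 2 + 3 * (B * y ^ 2) * n + B * y ^ 2 * (n ^ 2)⁻¹ / 2 -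
      B / 2 - n ^ 3 / 2 - B * n ^ 3 =
      -(B * d ^ 2 * (2 * y + n)) + (y ^ 3 - n ^ 3) / 2 + (B * y ^ 2 * (n ^ 2)⁻¹ - B) / 2 := by
    rw [hd]
    ring
  rw [key, hG, abs_le]
  constructor <;> linarith

theorem hyp : ∃ α β C : ℝ, 0 < C ∧ ∀ u : ℝ, 1 ≤ u → ∃ B N : ℕ,
    (B : ℝ) ≤ u ^ (1 / 5 : ℝ) ∧ (N : ℝ) ≤ 3 * u ^ (1 / 5 : ℝ) ∧
    |(D u : ℝ) - α * √u - β * u ^ (1 / 3 : ℝ) +
      ∑ b ∈ Icc 1 B, saw ((u / (b : ℝ) ^ 3) ^ (1 / 2 : ℝ)) +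
      ∑ a ∈ Icc 1 N, saw ((u / (a : ℝ) ^ 2) ^ (1 / 3 : ℝ))| ≤ C := by
  obtain ⟨α, C1, hC1, h1⟩ := eml (κ := 3 / 2) (by norm_num) (by norm_num)
  obtain ⟨β, C2, hC2, h2⟩ := eml (κ := 2 / 3) (by norm_num) (by norm_num)
  refine ⟨α, β, 4 + 6 * C1 + 8 * C2, by positivity, fun u hu => ?_⟩
  have hu0 : 0 ≤ u := by linarith
  set v := u ^ (1 / 5 : ℝ) with hv
  have hv1 : 1 ≤ v := Real.one_le_rpow hu (by norm_num)
  have hv5 : v ^ 5 = u := by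
    rw [hv, ← Real.rpow_natCast, ← Real.rpow_mul hu0]
    norm_num
  set B := ⌊v⌋₊ with hBdef
  have hB1 : 1 ≤ B := by
    rw [hBdef, Nat.le_floor_iff (by linarith)]
    simpa using hv1
  have hBv : (B : ℝ) ≤ v := Nat.floor_le (by linarith)
  have hvB : v ≤ 2 * B := by
    have e1 : v < B + 1 := Nat.lt_floor_add_one v
    have e2 : (1 : ℝ) ≤ B := by exact_mod_cast hB1
    linarith
  have hBr : (1 : ℝ) ≤ B := by exact_mod_cast hB1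
  have hB3 : (0 : ℝ) < (B : ℝ) ^ 3 := by positivity
  set Y := √(u / (B : ℝ) ^ 3) with hY
  have hY0 : 0 ≤ Y := Real.sqrt_nonneg _
  have hYu : Y ^ 2 * (B : ℝ) ^ 3 = u := by
    rw [hY, Real.sq_sqrt (by positivity)]
    field_simp
  have hvY : v ≤ Y := by
    have e1 : v ^ 2 * (B : ℝ) ^ 3 ≤ Y ^ 2 * (B : ℝ) ^ 3 := by
      rw [hYu, ← hv5]
      calc v ^ 2 * (B : ℝ) ^ 3 ≤ v ^ 2 * v ^ 3 := by gcongr
        _ = v ^ 5 := by ring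
    exact (pow_le_pow_iff_left₀ (by linarith) hY0 two_ne_zero).1 (le_of_mul_le_mul_right e1 hB3)
  have hYv : Y ≤ 3 * v := by
    have e1 : Y ^ 2 * (B : ℝ) ^ 3 ≤ (3 * v) ^ 2 * (B : ℝ) ^ 3 := by
      rw [hYu, ← hv5]
      calc v ^ 5 = v ^ 2 * v ^ 3 := by ring
        _ ≤ v ^ 2 * (2 * B) ^ 3 := by gcongr
        _ ≤ (3 * v) ^ 2 * (B : ℝ) ^ 3 := by
          have : 0 ≤ v ^ 2 * (B : ℝ) ^ 3 := by positivity
          nlinarith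
    exact (pow_le_pow_iff_left₀ hY0 (by linarith) two_ne_zero).1 (le_of_mul_le_mul_right e1 hB3)
  set N := ⌊Y⌋₊ with hN
  have hNY : (N : ℝ) ≤ Y := Nat.floor_le hY0
  have hYN1 : Y < N + 1 := Nat.lt_floor_add_one Y
  have hN1 : 1 ≤ N := by
    rw [hN, Nat.le_floor_iff hY0]
    push_cast
    linarith
  have hNr : (1 : ℝ) ≤ N := by exact_mod_cast hN1
  set y := Y ^ (1 / 3 : ℝ) with hy
  set n := (N : ℝ) ^ (1 / 3 : ℝ) with hn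
  have hy3 : y ^ 3 = Y := by
    rw [hy, ← Real.rpow_natCast, ← Real.rpow_mul hY0]
    norm_num
  have hn3 : n ^ 3 = N := by
    rw [hn, ← Real.rpow_natCast, ← Real.rpow_mul (by positivity)]
    norm_num
  have hn1 : 1 ≤ n := Real.one_le_rpow hNr (by norm_num)
  have hn0 : 0 < n := by linarith
  have hny : n ≤ y := Real.rpow_le_rpow (by positivity) hNY (by norm_num)
  have hy2n : y ≤ 2 * n := by
    have e1 : y ^ 3 ≤ (2 * n) ^ 3 := by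
      rw [hy3, mul_pow, hn3]
      linarith
    exact (pow_le_pow_iff_left₀ (by linarith) (by linarith) three_ne_zero).1 e1
  refine ⟨B, N, hBv, hNY.trans hYv, ?_⟩
  -- powers
  have hsu : √u = Y * (B : ℝ) ^ (3 / 2 : ℝ) := by
    rw [← hYu, Real.sqrt_mul (sq_nonneg Y), Real.sqrt_sq hY0, Real.sqrt_eq_rpow,
      ← Real.rpow_natCast, ← Real.rpow_mul (by positivity)]
    norm_num
  have hBpos : (0 : ℝ) < B := by linarith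
  have hNpos : (0 : ℝ) < N := by linarith
  have p1 : √u * (B : ℝ) ^ (1 - 3 / 2 : ℝ) = Y * B := by
    rw [hsu, mul_assoc, ← Real.rpow_add hBpos]
    norm_num
  have p2 : √u * (B : ℝ) ^ (-(3 / 2) : ℝ) = Y := by
    rw [hsu, mul_assoc, ← Real.rpow_add hBpos]
    norm_num
  have p3 : √u * (B : ℝ) ^ (-(3 / 2) - 1 : ℝ) = Y / B := by
    rw [hsu, mul_assoc, ← Real.rpow_add hBpos]
    norm_num
    rw [Real.rpow_neg_one, div_eq_mul_inv]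
  have hu3 : u ^ (1 / 3 : ℝ) = B * y ^ 2 := by
    rw [← hYu, Real.mul_rpow (by positivity) (by positivity), ← Real.rpow_natCast,
      ← Real.rpow_natCast, ← Real.rpow_mul hY0, ← Real.rpow_mul hBpos.le, hy, ← Real.rpow_natCast,
      ← Real.rpow_mul hY0]
    norm_num
    ring
  have p4 : (N : ℝ) ^ (1 - 2 / 3 : ℝ) = n := by
    rw [hn]
    norm_num
  have p5 : (N : ℝ) ^ (-(2 / 3) : ℝ) = (n ^ 2)⁻¹ := by
    rw [Real.rpow_neg hNpos.le, hn, ← Real.rpow_natCast, ← Real.rpow_mul hNpos.le]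
    norm_num
  have p6 : (N : ℝ) ^ (-(2 / 3) - 1 : ℝ) = (n ^ 5)⁻¹ := by
    rw [show (-(2 / 3) - 1 : ℝ) = -(5 / 3) by norm_num, Real.rpow_neg hNpos.le, hn,
      ← Real.rpow_natCast, ← Real.rpow_mul hNpos.le]
    norm_num
  -- the sums
  have hs1 : ∑ b ∈ Icc 1 B, (⌊(u / (b : ℝ) ^ 3) ^ (1 / 2 : ℝ)⌋₊ : ℝ) =
      √u * ∑ b ∈ Icc 1 B, (b : ℝ) ^ (-(3 / 2) : ℝ) - B / 2 -
        ∑ b ∈ Icc 1 B, saw ((u / (b : ℝ) ^ 3) ^ (1 / 2 : ℝ)) := by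
    have e1 : ∀ b ∈ Icc 1 B, (⌊(u / (b : ℝ) ^ 3) ^ (1 / 2 : ℝ)⌋₊ : ℝ) =
        √u * (b : ℝ) ^ (-(3 / 2) : ℝ) - 1 / 2 - saw ((u / (b : ℝ) ^ 3) ^ (1 / 2 : ℝ)) := by
      intro b hb
      rw [floor_saw (by positivity)]
      congr 2
      rw [Real.div_rpow hu0 (by positivity), ← Real.sqrt_eq_rpow, ← Real.rpow_natCast,
        ← Real.rpow_mul (by positivity), Real.rpow_neg (by positivity), div_eq_mul_inv]
      norm_num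
    rw [Finset.sum_congr rfl e1, Finset.sum_sub_distrib, Finset.sum_sub_distrib, Finset.mul_sum,
      Finset.sum_const, Nat.card_Icc, nsmul_eq_mul, Nat.add_sub_cancel]
    ring
  have hs2 : ∑ a ∈ Icc 1 N, ((⌊(u / (a : ℝ) ^ 2) ^ (1 / 3 : ℝ)⌋₊ : ℝ) - B) =
      u ^ (1 / 3 : ℝ) * ∑ a ∈ Icc 1 N, (a : ℝ) ^ (-(2 / 3) : ℝ) - N / 2 - B * N -
        ∑ a ∈ Icc 1 N, saw ((u / (a : ℝ) ^ 2) ^ (1 / 3 : ℝ)) := by
    have e1 : ∀ a ∈ Icc 1 N, ((⌊(u / (a : ℝ) ^ 2) ^ (1 / 3 : ℝ)⌋₊ : ℝ) - B) =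
        u ^ (1 / 3 : ℝ) * (a : ℝ) ^ (-(2 / 3) : ℝ) - (1 / 2 + B) -
          saw ((u / (a : ℝ) ^ 2) ^ (1 / 3 : ℝ)) := by
      intro a ha
      rw [floor_saw (by positivity)]
      have e2 : (u / (a : ℝ) ^ 2) ^ (1 / 3 : ℝ) = u ^ (1 / 3 : ℝ) * (a : ℝ) ^ (-(2 / 3) : ℝ) := by
        rw [Real.div_rpow hu0 (by positivity), ← Real.rpow_natCast,
          ← Real.rpow_mul (by positivity), Real.rpow_neg (by positivity), div_eq_mul_inv]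
        norm_num
      rw [← e2]
      ring
    rw [Finset.sum_congr rfl e1, Finset.sum_sub_distrib, Finset.sum_sub_distrib, Finset.mul_sum,
      Finset.sum_const, Nat.card_Icc, nsmul_eq_mul, Nat.add_sub_cancel]
    ring
  have hc := count hu0 hB1 hY0 hYu hN
  rw [hc, hs1, hs2]
  have f1 := h1 B hB1
  have f2 := h2 N hN1
  set S1 := ∑ b ∈ Icc 1 B, (b : ℝ) ^ (-(3 / 2) : ℝ) with hS1
  set S2 := ∑ a ∈ Icc 1 N, (a : ℝ) ^ (-(2 / 3) : ℝ) with hS2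
  have g1 : |√u * S1 + 2 * (Y * B) - Y / 2 - α * √u| ≤ 6 * C1 := by
    have e1 : √u * S1 + 2 * (Y * B) - Y / 2 - α * √u =
        √u * (S1 - (B : ℝ) ^ (1 - 3 / 2 : ℝ) / (1 - 3 / 2) - (B : ℝ) ^ (-(3 / 2) : ℝ) / 2 - α) := by
      linear_combination (-2) * p1 + (1 / 2) * p2
    rw [e1, abs_mul, abs_of_nonneg (Real.sqrt_nonneg u)]
    calc √u * |S1 - (B : ℝ) ^ (1 - 3 / 2 : ℝ) / (1 - 3 / 2) - (B : ℝ) ^ (-(3 / 2) : ℝ) / 2 - α| ≤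
        √u * (C1 * (B : ℝ) ^ (-(3 / 2) - 1 : ℝ)) := by gcongr
      _ = C1 * (Y / B) := by rw [← p3]; ring
      _ ≤ C1 * 6 := by
        gcongr
        rw [div_le_iff₀ hBpos]
        linarith
      _ = 6 * C1 := by ring
  have g2 : |u ^ (1 / 3 : ℝ) * S2 - 3 * (B * y ^ 2) * n - B * y ^ 2 * (n ^ 2)⁻¹ / 2 -
      β * u ^ (1 / 3 : ℝ)| ≤ 8 * C2 := by
    have e1 : u ^ (1 / 3 : ℝ) * S2 - 3 * (B * y ^ 2) * n - B * y ^ 2 * (n ^ 2)⁻¹ / 2 -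
        β * u ^ (1 / 3 : ℝ) = (B * y ^ 2) *
        (S2 - (N : ℝ) ^ (1 - 2 / 3 : ℝ) / (1 - 2 / 3) - (N : ℝ) ^ (-(2 / 3) : ℝ) / 2 - β) := by
      rw [p4, p5, hu3]
      ring
    rw [e1, abs_mul, abs_of_nonneg (by positivity : (0 : ℝ) ≤ B * y ^ 2)]
    calc (B * y ^ 2) * |S2 - (N : ℝ) ^ (1 - 2 / 3 : ℝ) / (1 - 2 / 3) -
          (N : ℝ) ^ (-(2 / 3) : ℝ) / 2 - β| ≤
        (B * y ^ 2) * (C2 * (N : ℝ) ^ (-(2 / 3) - 1 : ℝ)) := by gcongr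
      _ = C2 * ((B * y ^ 2) * (n ^ 5)⁻¹) := by rw [p6]; ring
      _ ≤ C2 * (((2 * n ^ 3) * (2 * n) ^ 2) * (n ^ 5)⁻¹) := by
        gcongr
        rw [hn3]
        linarith
      _ = 8 * C2 := by
        field_simp
        ring
  have g3 := core (B := B) hn1 hny hy2n (by rw [hy3, hn3]; linarith) hBpos.le
    (by rw [hn3]; linarith)
  rw [hy3, hn3] at g3
  have e0 : √u * S1 - ↑B / 2 - ∑ b ∈ Icc 1 B, saw ((u / (b : ℝ) ^ 3) ^ (1 / 2 : ℝ)) +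
      (u ^ (1 / 3 : ℝ) * S2 - ↑N / 2 - ↑B * ↑N -
        ∑ a ∈ Icc 1 N, saw ((u / (a : ℝ) ^ 2) ^ (1 / 3 : ℝ))) - α * √u - β * u ^ (1 / 3 : ℝ) +
      ∑ b ∈ Icc 1 B, saw ((u / (b : ℝ) ^ 3) ^ (1 / 2 : ℝ)) +
      ∑ a ∈ Icc 1 N, saw ((u / (a : ℝ) ^ 2) ^ (1 / 3 : ℝ)) =
      (√u * S1 + 2 * (Y * B) - Y / 2 - α * √u) +
      (u ^ (1 / 3 : ℝ) * S2 - 3 * (B * y ^ 2) * n - B * y ^ 2 * (n ^ 2)⁻¹ / 2 -
      β * u ^ (1 / 3 : ℝ)) +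
      (-(2 * (Y * B)) + Y / 2 + 3 * (B * y ^ 2) * n + B * y ^ 2 * (n ^ 2)⁻¹ / 2 - B / 2 -
      N / 2 - B * N) := by ring
  rw [e0]
  refine (abs_add_three _ _ _).trans ?_
  linarith

end Pool.PWE
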