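import Pool.Agent.PWE.Dya
import Pool.Agent.PWE.Hyp

/-!
# PWE DTWO: the asymptotic formula for D(u) with exponent 3/20 < 1/6
-/

set_option autoImplicit false

open Complex Finset Filter Topology MeasureTheory

namespace Pool.PWE

theorem dtwo : ∃ α β C : ℝ, 0 < C ∧ ∀ u : ℝ, 1 ≤ u →
    |(D u : ℝ) - α * √u - β * u ^ (1 / 3 : ℝ)| ≤ C * u ^ (3 / 20 : ℝ) := by
  obtain ⟨α, β, C, hC, h⟩ := hyp
  obtain ⟨C1, hC1, h1⟩ := dy1
  obtain ⟨C2, hC2, h2⟩ := dy2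
  refine ⟨α, β, C + C1 + C2, by positivity, fun u hu => ?_⟩
  obtain ⟨B, N, hB, hN, hm⟩ := h u hu
  have e1 := h1 u B hu hB
  have e2 := h2 u N hu hN
  have hu1 : 1 ≤ u ^ (3 / 20 : ℝ) := Real.one_le_rpow hu (by norm_num)
  rw [abs_le] at hm e1 e2 ⊢
  constructor
  · nlinarith [hm.1, hm.2, e1.1, e1.2, e2.1, e2.2, mul_le_mul_of_nonneg_left hu1 hC.le]
  · nlinarith [hm.1, hm.2, e1.1, e1.2, e2.1, e2.2, mul_le_mul_of_nonneg_left hu1 hC.le]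

end Pool.PWE
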