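import Pool.Agent.PWE.Psi

/-!
# PWE DYA: the two sawtooth sums (helper90)

dy1: f(b) = (u/b^3)^(1/2), f'' = (15/4) u^(1/2) b^(-7/2); dy2: f(a) = (u/a^2)^(1/3),
f'' = (10/9) u^(1/3) a^(-8/3). Trivial bound for b <= 4 u^(1/7) (a <= 4 u^(1/8)); psi_sum on the
dyadic blocks [N, 2N): at most u^(1/7) (u^(2/15)) up to constants; at most 4 + log u blocks.
-/

set_option autoImplicit false

open Complex Finset Filter Topology MeasureTheory

namespace Pool.PWE

/-- the second difference of v t^(-κ) is a value of its second derivative -/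
theorem second_diff {κ v x : ℝ} (hx : 0 < x) :
    ∃ ζ ∈ Set.Ioo x (x + 2), v * (x + 2) ^ (-κ) - 2 * (v * (x + 1) ^ (-κ)) + v * x ^ (-κ) =
      κ * (κ + 1) * v * ζ ^ (-κ - 2) := by
  have d1 : ∀ t : ℝ, 0 < t → HasDerivAt (fun t : ℝ => v * t ^ (-κ)) (v * (-κ * t ^ (-κ - 1))) t := by
    intro t ht
    exact (Real.hasDerivAt_rpow_const (Or.inl ht.ne')).const_mul v
  have d2 : ∀ t : ℝ, 0 < t → HasDerivAt (fun t : ℝ => v * (-κ * t ^ (-κ - 1)))
      (v * (-κ * ((-κ - 1) * t ^ (-κ - 1 - 1)))) t := by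
    intro t ht
    exact ((Real.hasDerivAt_rpow_const (Or.inl ht.ne')).const_mul (-κ)).const_mul v
  have dF : ∀ t : ℝ, 0 < t → HasDerivAt (fun t : ℝ => v * (t + 1) ^ (-κ) - v * t ^ (-κ))
      (v * (-κ * (t + 1) ^ (-κ - 1)) - v * (-κ * t ^ (-κ - 1))) t := by
    intro t ht
    have h1 := (d1 (t + 1) (by linarith)).comp_add_const t 1
    exact h1.sub (d1 t ht)
  obtain ⟨ξ, hξ, e1⟩ := exists_hasDerivAt_eq_slope (fun t : ℝ => v * (t + 1) ^ (-κ) - v * t ^ (-κ))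
    (fun t => v * (-κ * (t + 1) ^ (-κ - 1)) - v * (-κ * t ^ (-κ - 1))) (lt_add_one x)
    (fun t ht => (dF t (by have := ht.1; linarith)).continuousAt.continuousWithinAt)
    (fun t ht => dF t (by have := ht.1; linarith))
  have hξ0 : 0 < ξ := by have := hξ.1; linarith
  obtain ⟨ζ, hζ, e2⟩ := exists_hasDerivAt_eq_slope (fun t : ℝ => v * (-κ * t ^ (-κ - 1)))
    (fun t => v * (-κ * ((-κ - 1) * t ^ (-κ - 1 - 1)))) (lt_add_one ξ)
    (fun t ht => (d2 t (by have := ht.1; linarith)).continuousAt.continuousWithinAt)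
    (fun t ht => d2 t (by have := ht.1; linarith))
  refine ⟨ζ, ⟨by have := hζ.1; have := hξ.1; linarith, by have := hζ.2; have := hξ.2; linarith⟩, ?_⟩
  have h2 : (ξ + 1 - ξ) = 1 := by ring
  have h3 : (x + 1 - x) = 1 := by ring
  rw [h3, div_one] at e1
  rw [h2, div_one] at e2
  have h4 : -κ - 1 - 1 = -κ - 2 := by ring
  rw [h4] at e2
  have h5 : x + 1 + 1 = x + 2 := by ring
  rw [h5] at e1
  linarith

/-- dyadic summation -/
theorem dyadic (g : ℕ → ℝ) (X Y : ℝ) (M : ℕ) (hX : 0 ≤ X) (hY : 0 ≤ Y)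
    (hg : ∀ n, |g n| ≤ 1 / 2)
    (hb : ∀ N b : ℕ, X ≤ N → 1 ≤ N → N ≤ b → b ≤ 2 * N → b ≤ M + 1 → |∑ n ∈ Ico N b, g n| ≤ Y) :
    ∀ B : ℕ, B ≤ M → |∑ n ∈ Icc 1 B, g n| ≤ X + Y * (Nat.log 2 B + 1) := by
  intro B
  induction B using Nat.strong_induction_on with
  | _ B ih =>
    intro hBM
    rcases Nat.eq_zero_or_pos B with h0 | hpos
    · subst h0; simp; positivity
    rcases lt_or_ge (B : ℝ) (2 * X) with hlt | hge
    · have h1 : |∑ n ∈ Icc 1 B, g n| ≤ (B : ℝ) * (1 / 2) := by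
        calc |∑ n ∈ Icc 1 B, g n| ≤ ∑ n ∈ Icc 1 B, |g n| := abs_sum_le_sum_abs _ _
          _ ≤ ∑ n ∈ Icc 1 B, (1 / 2 : ℝ) := sum_le_sum fun n _ => hg n
          _ = (B : ℝ) * (1 / 2) := by simp
      have h2 : 0 ≤ Y * ((Nat.log 2 B : ℝ) + 1) := by positivity
      linarith
    · have hN : X ≤ ((B / 2 + 1 : ℕ) : ℝ) := by
        have : B < 2 * (B / 2 + 1) := by omega
        have h3 : (B : ℝ) < 2 * ((B / 2 + 1 : ℕ) : ℝ) := by exact_mod_cast this
        linarith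
      have h4 := hb (B / 2 + 1) (B + 1) hN (by omega) (by omega) (by omega) (by omega)
      have h5 := ih (B / 2) (by omega) (by omega)
      have h6 : ∑ n ∈ Icc 1 B, g n =
          ∑ n ∈ Icc 1 (B / 2), g n + ∑ n ∈ Ico (B / 2 + 1) (B + 1), g n := by
        have e1 : Icc 1 B = Ico 1 (B + 1) := by ext n; simp
        have e2 : Icc 1 (B / 2) = Ico 1 (B / 2 + 1) := by ext n; simp
        rw [e1, e2, sum_Ico_consecutive _ (by omega) (by omega)]
      rw [h6]
      have h7 := abs_add_le (∑ n ∈ Icc 1 (B / 2), g n) (∑ n ∈ Ico (B / 2 + 1) (B + 1), g n)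
      rcases Nat.lt_or_ge B 2 with hB2 | hB2
      · have : B = 1 := by omega
        subst this
        simp at h4 h7 ⊢
        linarith
      · have h8 : Nat.log 2 (B / 2) + 1 = Nat.log 2 B := by
          rw [Nat.log_div_base]
          have : 0 < Nat.log 2 B := Nat.log_pos (by norm_num) hB2
          omega
        have h9 : ((Nat.log 2 (B / 2) : ℕ) : ℝ) + 1 = (Nat.log 2 B : ℝ) := by exact_mod_cast h8
        rw [h9] at h5
        nlinarith

/-- the sum over a (part of a) dyadic block -/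
theorem block {κ : ℝ} (hκ : 0 < κ) : ∃ K : ℝ, 0 < K ∧ ∀ (v lam : ℝ) (N b : ℕ), 0 < v → 1 ≤ N →
    N ≤ b → b ≤ 2 * N → lam = κ * (κ + 1) * v * (2 * (N : ℝ)) ^ (-κ - 2) → lam ≤ 1 →
    |∑ n ∈ Ico N b, saw (v * (n : ℝ) ^ (-κ))| ≤
      K * ((N : ℝ) * lam ^ (1 / 3 : ℝ) + lam ^ (-(1 / 2) : ℝ)) := by
  obtain ⟨C, hC, H⟩ := psi_sum
  refine ⟨C * 2 ^ (κ + 2), by positivity, ?_⟩
  intro v lam N b hv hN hNb hb2 hlam hlam1
  have hN0 : (0 : ℝ) < N := by exact_mod_cast hN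
  have hlam0 : 0 < lam := by rw [hlam]; positivity
  have hA : (1 : ℝ) ≤ 2 ^ (κ + 2) := Real.one_le_rpow (by norm_num) (by linarith)
  have h1 := H (fun n => v * (n : ℝ) ^ (-κ)) N b lam (2 ^ (κ + 2)) hNb hlam0 hlam1 hA ?_
  · refine h1.trans ?_
    have hbN : ((b : ℝ) - N) ≤ N := by
      have : (b : ℝ) ≤ 2 * N := by exact_mod_cast hb2
      linarith
    have h2 : 0 ≤ lam ^ (1 / 3 : ℝ) := by positivity
    gcongr
  · intro n hn hn2
    have hn0 : (0 : ℝ) < n := by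
      have : 0 < n := by omega
      exact_mod_cast this
    obtain ⟨ζ, hζ, e⟩ := second_diff (κ := κ) (v := v) hn0
    have hζ1 : (N : ℝ) ≤ ζ := by
      have : (N : ℝ) ≤ n := by exact_mod_cast hn
      linarith [hζ.1]
    have hζ2 : ζ ≤ 2 * (N : ℝ) := by
      have h3 : n + 2 ≤ 2 * N := by omega
      have : (n : ℝ) + 2 ≤ 2 * N := by exact_mod_cast h3
      linarith [hζ.2]
    have hζ0 : 0 < ζ := by linarith
    have e' : v * ((n + 2 : ℕ) : ℝ) ^ (-κ) - 2 * (v * ((n + 1 : ℕ) : ℝ) ^ (-κ)) +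
        v * (n : ℝ) ^ (-κ) = κ * (κ + 1) * v * ζ ^ (-κ - 2) := by
      push_cast; exact e
    show lam ≤ v * ((n + 2 : ℕ) : ℝ) ^ (-κ) - 2 * (v * ((n + 1 : ℕ) : ℝ) ^ (-κ)) +
        v * (n : ℝ) ^ (-κ) ∧ v * ((n + 2 : ℕ) : ℝ) ^ (-κ) - 2 * (v * ((n + 1 : ℕ) : ℝ) ^ (-κ)) +
        v * (n : ℝ) ^ (-κ) ≤ 2 ^ (κ + 2) * lam
    rw [e']
    have hneg : -κ - 2 ≤ 0 := by linarith
    constructor
    · rw [hlam]
      have := Real.rpow_le_rpow_of_nonpos hζ0 hζ2 hneg
      gcongr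
    · have h4 := Real.rpow_le_rpow_of_nonpos hN0 hζ1 hneg
      have h5 : (N : ℝ) ^ (-κ - 2) = 2 ^ (κ + 2) * (2 * (N : ℝ)) ^ (-κ - 2) := by
        rw [Real.mul_rpow (by norm_num) hN0.le, ← mul_assoc, ← Real.rpow_add (by norm_num)]
        have : κ + 2 + (-κ - 2) = 0 := by ring
        rw [this, Real.rpow_zero, one_mul]
      calc κ * (κ + 1) * v * ζ ^ (-κ - 2) ≤ κ * (κ + 1) * v * (N : ℝ) ^ (-κ - 2) := by gcongr
        _ = 2 ^ (κ + 2) * lam := by rw [h5, hlam]; ring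

theorem abs_saw (x : ℝ) : |saw x| ≤ 1 / 2 := by
  unfold saw
  have h1 := Int.fract_nonneg x
  have h2 := (Int.fract_lt_one x).le
  rw [abs_le]; constructor <;> linarith

/-- log2 of a number below 3 u^(1/5) + 1 -/
theorem log_bound {u : ℝ} (hu : 1 ≤ u) (B : ℕ) (hB : (B : ℝ) ≤ 3 * u ^ (1 / 5 : ℝ)) :
    ((Nat.log 2 B : ℕ) : ℝ) + 1 ≤ 4 + Real.log u := by
  rcases Nat.eq_zero_or_pos B with h0 | hpos
  · subst h0; simp; linarith [Real.log_nonneg hu]
  have hB0 : (0 : ℝ) < B := by exact_mod_cast hpos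
  have hu0 : 0 < u := by linarith
  have h1 : 2 ^ Nat.log 2 B ≤ B := Nat.pow_log_le_self 2 (by omega)
  have h2 : (2 : ℝ) ^ Nat.log 2 B ≤ 3 * u ^ (1 / 5 : ℝ) := by
    have : ((2 ^ Nat.log 2 B : ℕ) : ℝ) ≤ B := by exact_mod_cast h1
    push_cast at this
    linarith
  have h3 := Real.log_le_log (by positivity) h2
  rw [Real.log_pow, Real.log_mul (by norm_num) (by positivity), Real.log_rpow hu0] at h3
  have h4 : (0.6931471803 : ℝ) < Real.log 2 := Real.log_two_gt_d9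
  have h5 : Real.log 3 ≤ 2 * Real.log 2 := by
    have : Real.log 3 ≤ Real.log 4 := Real.log_le_log (by norm_num) (by norm_num)
    have h6 : Real.log 4 = 2 * Real.log 2 := by
      rw [show (4 : ℝ) = 2 ^ 2 by norm_num, Real.log_pow]; norm_num
    linarith
  have h7 := Real.log_nonneg hu
  have h8 : (Nat.log 2 B : ℝ) ≤ 3 + Real.log u := by
    by_contra hc
    push Not at hc
    have : (3 + Real.log u) * Real.log 2 < (Nat.log 2 B : ℝ) * Real.log 2 :=
      mul_lt_mul_of_pos_right hc (by linarith)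
    nlinarith
  linarith

theorem rpow_exp {x y : ℝ} (hx : 0 < x) : x ^ y = Real.exp (y * Real.log x) := by
  rw [Real.rpow_def_of_pos hx, mul_comm]

theorem dy1 : ∃ C : ℝ, 0 < C ∧ ∀ (u : ℝ) (B : ℕ), 1 ≤ u → (B : ℝ) ≤ u ^ (1 / 5 : ℝ) →
    |∑ b ∈ Icc 1 B, saw ((u / (b : ℝ) ^ 3) ^ (1 / 2 : ℝ))| ≤ C * u ^ (3 / 20 : ℝ) := by
  obtain ⟨K, hK, H⟩ := block (κ := 3 / 2) (by norm_num)
  refine ⟨4 + 2 * K * Real.exp 8 * 144, by positivity, ?_⟩
  intro u B hu hB
  have hu0 : 0 < u := by linarith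
  have hl : 0 ≤ Real.log u := Real.log_nonneg hu
  have l2 : (0.6931471803 : ℝ) < Real.log 2 := Real.log_two_gt_d9
  have l2' : Real.log 2 < 0.6931471808 := Real.log_two_lt_d9
  have l4 : Real.log 4 = 2 * Real.log 2 := by
    rw [show (4 : ℝ) = 2 ^ 2 by norm_num, Real.log_pow]; norm_num
  have lc : Real.log (15 / 4) ≤ Real.log 4 := Real.log_le_log (by norm_num) (by norm_num)
  have lc' : 0 ≤ Real.log (15 / 4) := Real.log_nonneg (by norm_num)
  have hterm : ∀ b ∈ Icc 1 B, saw ((u / (b : ℝ) ^ 3) ^ (1 / 2 : ℝ)) =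
      saw (u ^ (1 / 2 : ℝ) * (b : ℝ) ^ (-(3 / 2) : ℝ)) := by
    intro b hb
    have hb0 : (0 : ℝ) < b := by
      have : 0 < b := (mem_Icc.1 hb).1
      exact_mod_cast this
    congr 1
    rw [Real.div_rpow hu0.le (by positivity), ← Real.rpow_natCast, ← Real.rpow_mul hb0.le,
      div_eq_mul_inv, ← Real.rpow_neg hb0.le]
    norm_num
  rw [sum_congr rfl hterm]
  have hmain := dyadic (fun b : ℕ => saw (u ^ (1 / 2 : ℝ) * (b : ℝ) ^ (-(3 / 2) : ℝ)))
    (4 * u ^ (1 / 7 : ℝ)) (2 * K * Real.exp 8 * u ^ (1 / 7 : ℝ)) B (by positivity) (by positivity)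
    (fun n => abs_saw _) ?_ B le_rfl
  · refine hmain.trans ?_
    have h1 := log_bound hu B (by have : 0 < u ^ (1 / 5 : ℝ) := by positivity
                                  linarith)
    have h2 : Real.log u ≤ u ^ (1 / 140 : ℝ) / (1 / 140) :=
      Real.log_le_rpow_div hu0.le (by norm_num)
    have h3 : (1 : ℝ) ≤ u ^ (1 / 140 : ℝ) := Real.one_le_rpow hu (by norm_num)
    have h4 : u ^ (1 / 7 : ℝ) * u ^ (1 / 140 : ℝ) = u ^ (3 / 20 : ℝ) := by
      rw [← Real.rpow_add hu0]; norm_num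
    have h5 : (0 : ℝ) < u ^ (1 / 7 : ℝ) := by positivity
    calc 4 * u ^ (1 / 7 : ℝ) + 2 * K * Real.exp 8 * u ^ (1 / 7 : ℝ) * ((Nat.log 2 B : ℕ) + 1)
        ≤ 4 * (u ^ (1 / 7 : ℝ) * u ^ (1 / 140 : ℝ)) +
          2 * K * Real.exp 8 * u ^ (1 / 7 : ℝ) * (144 * u ^ (1 / 140 : ℝ)) := by
          gcongr
          · nlinarith
          · linarith
      _ = (4 + 2 * K * Real.exp 8 * 144) * u ^ (3 / 20 : ℝ) := by rw [← h4]; ring
  · intro N b hXN hN1 hNb hb2 hbM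
    have hN0 : (0 : ℝ) < N := by exact_mod_cast hN1
    have hNB : (N : ℝ) ≤ 2 * u ^ (1 / 5 : ℝ) := by
      have h1 : N ≤ B + 1 := by omega
      have h2 : (N : ℝ) ≤ B + 1 := by exact_mod_cast h1
      have h3 : (1 : ℝ) ≤ u ^ (1 / 5 : ℝ) := Real.one_le_rpow hu (by norm_num)
      linarith
    -- logarithms
    have n1 : Real.log 4 + (1 / 7) * Real.log u ≤ Real.log N := by
      have := Real.log_le_log (by positivity) hXN
      rwa [Real.log_mul (by norm_num) (by positivity), Real.log_rpow hu0] at this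
    have n2 : Real.log N ≤ Real.log 2 + (1 / 5) * Real.log u := by
      have := Real.log_le_log hN0 hNB
      rwa [Real.log_mul (by norm_num) (by positivity), Real.log_rpow hu0] at this
    have elam : (3 / 2 : ℝ) * (3 / 2 + 1) * u ^ (1 / 2 : ℝ) * (2 * (N : ℝ)) ^ (-(3 / 2) - 2 : ℝ) =
        Real.exp (Real.log (15 / 4) + (1 / 2) * Real.log u -
          (7 / 2) * (Real.log 2 + Real.log N)) := by
      rw [rpow_exp hu0, rpow_exp (by positivity : (0 : ℝ) < 2 * N),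
        Real.log_mul (by norm_num) hN0.ne']
      have e0 : Real.exp (Real.log (15 / 4) + (1 / 2) * Real.log u -
          (7 / 2) * (Real.log 2 + Real.log N)) = Real.exp (Real.log (15 / 4)) *
          Real.exp ((1 / 2) * Real.log u) * Real.exp ((-(3 / 2) - 2) *
          (Real.log 2 + Real.log N)) := by
        rw [← Real.exp_add, ← Real.exp_add]; congr 1; ring
      rw [e0, Real.exp_log (by norm_num)]; norm_num
    have hb := H (u ^ (1 / 2 : ℝ)) _ N b (by positivity) hN1 hNb hb2 rfl ?_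
    · refine hb.trans ?_
      rw [elam, ← Real.exp_mul, ← Real.exp_mul]
      have e1 : (N : ℝ) * Real.exp ((Real.log (15 / 4) + (1 / 2) * Real.log u -
          (7 / 2) * (Real.log 2 + Real.log N)) * (1 / 3)) ≤ Real.exp 8 * u ^ (1 / 7 : ℝ) := by
        nth_rewrite 1 [← Real.exp_log hN0]
        rw [rpow_exp hu0, ← Real.exp_add, ← Real.exp_add]
        apply Real.exp_le_exp.2
        linarith
      have e2 : Real.exp ((Real.log (15 / 4) + (1 / 2) * Real.log u -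
          (7 / 2) * (Real.log 2 + Real.log N)) * (-(1 / 2))) ≤ Real.exp 8 * u ^ (1 / 7 : ℝ) := by
        rw [rpow_exp hu0, ← Real.exp_add]
        apply Real.exp_le_exp.2
        linarith
      calc K * ((N : ℝ) * Real.exp ((Real.log (15 / 4) + (1 / 2) * Real.log u -
          (7 / 2) * (Real.log 2 + Real.log N)) * (1 / 3)) +
          Real.exp ((Real.log (15 / 4) + (1 / 2) * Real.log u -
          (7 / 2) * (Real.log 2 + Real.log N)) * (-(1 / 2))))
          ≤ K * (Real.exp 8 * u ^ (1 / 7 : ℝ) + Real.exp 8 * u ^ (1 / 7 : ℝ)) := by gcongr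
        _ = 2 * K * Real.exp 8 * u ^ (1 / 7 : ℝ) := by ring
    · rw [elam]
      apply Real.exp_le_one_iff.2
      linarith

theorem dy2 : ∃ C : ℝ, 0 < C ∧ ∀ (u : ℝ) (N : ℕ), 1 ≤ u → (N : ℝ) ≤ 3 * u ^ (1 / 5 : ℝ) →
    |∑ a ∈ Icc 1 N, saw ((u / (a : ℝ) ^ 2) ^ (1 / 3 : ℝ))| ≤ C * u ^ (3 / 20 : ℝ) := by
  obtain ⟨K, hK, H⟩ := block (κ := 2 / 3) (by norm_num)
  refine ⟨4 + 2 * K * Real.exp 8 * 64, by positivity, ?_⟩
  intro u B hu hB
  have hu0 : 0 < u := by linarith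
  have hl : 0 ≤ Real.log u := Real.log_nonneg hu
  have l2 : (0.6931471803 : ℝ) < Real.log 2 := Real.log_two_gt_d9
  have l2' : Real.log 2 < 0.6931471808 := Real.log_two_lt_d9
  have l4 : Real.log 4 = 2 * Real.log 2 := by
    rw [show (4 : ℝ) = 2 ^ 2 by norm_num, Real.log_pow]; norm_num
  have lc : Real.log (10 / 9) ≤ Real.log 4 := Real.log_le_log (by norm_num) (by norm_num)
  have lc' : 0 ≤ Real.log (10 / 9) := Real.log_nonneg (by norm_num)
  have hterm : ∀ b ∈ Icc 1 B, saw ((u / (b : ℝ) ^ 2) ^ (1 / 3 : ℝ)) =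
      saw (u ^ (1 / 3 : ℝ) * (b : ℝ) ^ (-(2 / 3) : ℝ)) := by
    intro b hb
    have hb0 : (0 : ℝ) < b := by
      have : 0 < b := (mem_Icc.1 hb).1
      exact_mod_cast this
    congr 1
    rw [Real.div_rpow hu0.le (by positivity), ← Real.rpow_natCast, ← Real.rpow_mul hb0.le,
      div_eq_mul_inv, ← Real.rpow_neg hb0.le]
    norm_num
  rw [sum_congr rfl hterm]
  have hmain := dyadic (fun b : ℕ => saw (u ^ (1 / 3 : ℝ) * (b : ℝ) ^ (-(2 / 3) : ℝ)))
    (4 * u ^ (1 / 8 : ℝ)) (2 * K * Real.exp 8 * u ^ (2 / 15 : ℝ)) B (by positivity) (by positivity)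
    (fun n => abs_saw _) ?_ B le_rfl
  · refine hmain.trans ?_
    have h1 := log_bound hu B hB
    have h2 : Real.log u ≤ u ^ (1 / 60 : ℝ) / (1 / 60) :=
      Real.log_le_rpow_div hu0.le (by norm_num)
    have h3 : (1 : ℝ) ≤ u ^ (1 / 60 : ℝ) := Real.one_le_rpow hu (by norm_num)
    have h4 : u ^ (2 / 15 : ℝ) * u ^ (1 / 60 : ℝ) = u ^ (3 / 20 : ℝ) := by
      rw [← Real.rpow_add hu0]; norm_num
    have h5 : u ^ (1 / 8 : ℝ) ≤ u ^ (3 / 20 : ℝ) := Real.rpow_le_rpow_of_exponent_le hu (by norm_num)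
    calc 4 * u ^ (1 / 8 : ℝ) + 2 * K * Real.exp 8 * u ^ (2 / 15 : ℝ) * ((Nat.log 2 B : ℕ) + 1)
        ≤ 4 * u ^ (3 / 20 : ℝ) +
          2 * K * Real.exp 8 * u ^ (2 / 15 : ℝ) * (64 * u ^ (1 / 60 : ℝ)) := by
          gcongr
          linarith
      _ = (4 + 2 * K * Real.exp 8 * 64) * u ^ (3 / 20 : ℝ) := by rw [← h4]; ring
  · intro N b hXN hN1 hNb hb2 hbM
    have hN0 : (0 : ℝ) < N := by exact_mod_cast hN1
    have hNB : (N : ℝ) ≤ 4 * u ^ (1 / 5 : ℝ) := by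
      have h1 : N ≤ B + 1 := by omega
      have h2 : (N : ℝ) ≤ B + 1 := by exact_mod_cast h1
      have h3 : (1 : ℝ) ≤ u ^ (1 / 5 : ℝ) := Real.one_le_rpow hu (by norm_num)
      linarith
    -- logarithms
    have n1 : Real.log 4 + (1 / 8) * Real.log u ≤ Real.log N := by
      have := Real.log_le_log (by positivity) hXN
      rwa [Real.log_mul (by norm_num) (by positivity), Real.log_rpow hu0] at this
    have n2 : Real.log N ≤ Real.log 4 + (1 / 5) * Real.log u := by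
      have := Real.log_le_log hN0 hNB
      rwa [Real.log_mul (by norm_num) (by positivity), Real.log_rpow hu0] at this
    have elam : (2 / 3 : ℝ) * (2 / 3 + 1) * u ^ (1 / 3 : ℝ) * (2 * (N : ℝ)) ^ (-(2 / 3) - 2 : ℝ) =
        Real.exp (Real.log (10 / 9) + (1 / 3) * Real.log u -
          (8 / 3) * (Real.log 2 + Real.log N)) := by
      rw [rpow_exp hu0, rpow_exp (by positivity : (0 : ℝ) < 2 * N),
        Real.log_mul (by norm_num) hN0.ne']
      have e0 : Real.exp (Real.log (10 / 9) + (1 / 3) * Real.log u -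
          (8 / 3) * (Real.log 2 + Real.log N)) = Real.exp (Real.log (10 / 9)) *
          Real.exp ((1 / 3) * Real.log u) * Real.exp ((-(2 / 3) - 2) *
          (Real.log 2 + Real.log N)) := by
        rw [← Real.exp_add, ← Real.exp_add]; congr 1; ring
      rw [e0, Real.exp_log (by norm_num)]; norm_num
    have hb := H (u ^ (1 / 3 : ℝ)) _ N b (by positivity) hN1 hNb hb2 rfl ?_
    · refine hb.trans ?_
      rw [elam, ← Real.exp_mul, ← Real.exp_mul]
      have e1 : (N : ℝ) * Real.exp ((Real.log (10 / 9) + (1 / 3) * Real.log u -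
          (8 / 3) * (Real.log 2 + Real.log N)) * (1 / 3)) ≤ Real.exp 8 * u ^ (2 / 15 : ℝ) := by
        nth_rewrite 1 [← Real.exp_log hN0]
        rw [rpow_exp hu0, ← Real.exp_add, ← Real.exp_add]
        apply Real.exp_le_exp.2
        linarith
      have e2 : Real.exp ((Real.log (10 / 9) + (1 / 3) * Real.log u -
          (8 / 3) * (Real.log 2 + Real.log N)) * (-(1 / 2))) ≤ Real.exp 8 * u ^ (2 / 15 : ℝ) := by
        rw [rpow_exp hu0, ← Real.exp_add]
        apply Real.exp_le_exp.2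
        linarith
      calc K * ((N : ℝ) * Real.exp ((Real.log (10 / 9) + (1 / 3) * Real.log u -
          (8 / 3) * (Real.log 2 + Real.log N)) * (1 / 3)) +
          Real.exp ((Real.log (10 / 9) + (1 / 3) * Real.log u -
          (8 / 3) * (Real.log 2 + Real.log N)) * (-(1 / 2))))
          ≤ K * (Real.exp 8 * u ^ (2 / 15 : ℝ) + Real.exp 8 * u ^ (2 / 15 : ℝ)) := by gcongr
        _ = 2 * K * Real.exp 8 * u ^ (2 / 15 : ℝ) := by ring
    · rw [elam]
      apply Real.exp_le_one_iff.2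
      linarith

end Pool.PWE
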