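import Pool.Agent.PWE.Defs

/-!
# PWE EML: partial sums of n^(-κ) (Euler and Maclaurin, second order)

`f t = t ^ (-κ)` is convex: it lies above its tangents and below its chords, so
`0 ≤ (f a + f (a+1)) / 2 - ∫ f ≤ (κ / 4) (a ^ (-κ-1) - (a+1) ^ (-κ-1))`, which telescopes.
-/

set_option autoImplicit false

open Complex Finset Filter Topology MeasureTheory

namespace Pool.PWE

private theorem eml_tan {κ : ℝ} (hκ : 0 < κ) {t a : ℝ} (ht : 0 < t) (ha : 0 < a) :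
    a ^ (-κ) - κ * a ^ (-κ - 1) * (t - a) ≤ t ^ (-κ) := by
  have h1 : t ^ (-κ) = a ^ (-κ) * (t / a) ^ (-κ) := by
    rw [← Real.mul_rpow ha.le (div_pos ht ha).le, mul_div_cancel₀ _ ha.ne']
  have h2 : 1 - κ * (t / a - 1) ≤ (t / a) ^ (-κ) := by
    have hq := div_pos ht ha
    rw [Real.rpow_def_of_pos hq]
    have h3 := Real.add_one_le_exp (Real.log (t / a) * -κ)
    have h4 := Real.log_le_sub_one_of_pos hq
    nlinarith
  have h5 : a ^ (-κ - 1) = a ^ (-κ) / a := by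
    rw [Real.rpow_sub ha, Real.rpow_one]
  rw [h1, h5]
  have h6 : 0 ≤ a ^ (-κ) := Real.rpow_nonneg ha.le _
  have h7 := mul_le_mul_of_nonneg_left h2 h6
  refine le_trans (le_of_eq ?_) h7
  field_simp

private theorem eml_step {κ : ℝ} (hκ : 0 < κ) (hκ1 : κ ≠ 1) {a : ℝ} (ha : 0 < a) :
    0 ≤ (a ^ (-κ) + (a + 1) ^ (-κ)) / 2 - ((a + 1) ^ (1 - κ) - a ^ (1 - κ)) / (1 - κ) ∧
    (a ^ (-κ) + (a + 1) ^ (-κ)) / 2 - ((a + 1) ^ (1 - κ) - a ^ (1 - κ)) / (1 - κ) ≤
      κ / 4 * (a ^ (-κ - 1) - (a + 1) ^ (-κ - 1)) := by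
  have hab : a ≤ a + 1 := by linarith
  have ha1 : 0 < a + 1 := by linarith
  have hI : ∫ t in a..(a + 1), t ^ (-κ) = ((a + 1) ^ (1 - κ) - a ^ (1 - κ)) / (1 - κ) := by
    rw [integral_rpow (Or.inr ⟨by intro h; exact hκ1 (by linarith), by
      rw [Set.uIcc_of_le hab]
      rintro ⟨h, -⟩
      linarith⟩)]
    rw [show -κ + 1 = 1 - κ by ring]
  have hint : IntervalIntegrable (fun t : ℝ => t ^ (-κ)) volume a (a + 1) := by
    apply intervalIntegral.intervalIntegrable_rpow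
    right
    rw [Set.uIcc_of_le hab]
    rintro ⟨h, -⟩
    linarith
  rw [← hI]
  constructor
  · have h1 : ∫ t in a..(a + 1), t ^ (-κ) ≤
        ∫ t in a..(a + 1), ((a + 1 - t) * a ^ (-κ) + (t - a) * (a + 1) ^ (-κ)) := by
      refine intervalIntegral.integral_mono_on hab hint (Continuous.intervalIntegrable (by fun_prop) _ _) ?_
      intro t ht
      have ht0 : 0 < t := lt_of_lt_of_le ha ht.1
      have e1 := eml_tan hκ ha ht0
      have e2 := eml_tan hκ ha1 ht0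
      have e3 : 0 ≤ a + 1 - t := by linarith [ht.2]
      have e4 : 0 ≤ t - a := by linarith [ht.1]
      nlinarith [mul_le_mul_of_nonneg_left e1 e3, mul_le_mul_of_nonneg_left e2 e4]
    have h2 : ∫ t in a..(a + 1), ((a + 1 - t) * a ^ (-κ) + (t - a) * (a + 1) ^ (-κ)) =
        (a ^ (-κ) + (a + 1) ^ (-κ)) / 2 := by
      rw [intervalIntegral.integral_add (Continuous.intervalIntegrable (by fun_prop) _ _)
        (Continuous.intervalIntegrable (by fun_prop) _ _), intervalIntegral.integral_mul_const,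
        intervalIntegral.integral_mul_const]
      rw [intervalIntegral.integral_sub (Continuous.intervalIntegrable (by fun_prop) _ _)
        (Continuous.intervalIntegrable (by fun_prop) _ _),
        intervalIntegral.integral_sub (Continuous.intervalIntegrable (by fun_prop) _ _)
        (Continuous.intervalIntegrable (by fun_prop) _ _)]
      simp only [intervalIntegral.integral_const, integral_id, smul_eq_mul]
      ring
    linarith
  · have h1 : ∫ t in a..(a + 1), ((a ^ (-κ) - κ * a ^ (-κ - 1) * (t - a)) / 2 +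
        ((a + 1) ^ (-κ) - κ * (a + 1) ^ (-κ - 1) * (t - (a + 1))) / 2) ≤
        ∫ t in a..(a + 1), t ^ (-κ) := by
      refine intervalIntegral.integral_mono_on hab (Continuous.intervalIntegrable (by fun_prop) _ _) hint ?_
      intro t ht
      have ht0 : 0 < t := lt_of_lt_of_le ha ht.1
      have e1 := eml_tan hκ ht0 ha
      have e2 := eml_tan hκ ht0 ha1
      linarith
    have h2 : ∫ t in a..(a + 1), ((a ^ (-κ) - κ * a ^ (-κ - 1) * (t - a)) / 2 +
        ((a + 1) ^ (-κ) - κ * (a + 1) ^ (-κ - 1) * (t - (a + 1))) / 2) =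
        (a ^ (-κ) + (a + 1) ^ (-κ)) / 2 - κ / 4 * (a ^ (-κ - 1) - (a + 1) ^ (-κ - 1)) := by
      have e : ∀ t : ℝ, (a ^ (-κ) - κ * a ^ (-κ - 1) * (t - a)) / 2 +
          ((a + 1) ^ (-κ) - κ * (a + 1) ^ (-κ - 1) * (t - (a + 1))) / 2 =
          ((a ^ (-κ) + κ * a ^ (-κ - 1) * a + (a + 1) ^ (-κ) + κ * (a + 1) ^ (-κ - 1) * (a + 1)) / 2) -
          (κ * a ^ (-κ - 1) + κ * (a + 1) ^ (-κ - 1)) / 2 * t := by
        intro t
        ring
      simp only [e]
      rw [intervalIntegral.integral_sub (Continuous.intervalIntegrable (by fun_prop) _ _)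
        (Continuous.intervalIntegrable (by fun_prop) _ _), intervalIntegral.integral_const_mul]
      simp only [intervalIntegral.integral_const, integral_id, smul_eq_mul]
      ring
    linarith

theorem eml {κ : ℝ} (hκ : 0 < κ) (hκ1 : κ ≠ 1) : ∃ γ C : ℝ, 0 < C ∧ ∀ N : ℕ, 1 ≤ N →
    |∑ n ∈ Icc 1 N, (n : ℝ) ^ (-κ) - (N : ℝ) ^ (1 - κ) / (1 - κ) - (N : ℝ) ^ (-κ) / 2 - γ| ≤
      C * (N : ℝ) ^ (-κ - 1) := by
  obtain ⟨g, hg⟩ : ∃ g : ℕ → ℝ, g = fun N : ℕ => ∑ n ∈ Icc (1 : ℕ) (N + 1), (n : ℝ) ^ (-κ) -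
    ((N + 1 : ℕ) : ℝ) ^ (1 - κ) / (1 - κ) - ((N + 1 : ℕ) : ℝ) ^ (-κ) / 2 := ⟨_, rfl⟩
  obtain ⟨e, he⟩ : ∃ e : ℕ → ℝ, e = fun N : ℕ => κ / 4 * ((N + 1 : ℕ) : ℝ) ^ (-κ - 1) := ⟨_, rfl⟩
  have hstep : ∀ N, 0 ≤ g (N + 1) - g N ∧ g (N + 1) - g N ≤ e N - e (N + 1) := by
    intro N
    have h1 := eml_step hκ hκ1 (a := ((N + 1 : ℕ) : ℝ)) (by positivity)
    have h2 : g (N + 1) - g N = ((((N + 1 : ℕ) : ℝ)) ^ (-κ) + (((N + 1 : ℕ) : ℝ) + 1) ^ (-κ)) / 2 -
        ((((N + 1 : ℕ) : ℝ) + 1) ^ (1 - κ) - ((N + 1 : ℕ) : ℝ) ^ (1 - κ)) / (1 - κ) := by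
      rw [hg]
      simp only
      rw [Finset.sum_Icc_succ_top (by omega : 1 ≤ N + 1 + 1)]
      push_cast
      ring
    have h3 : e N - e (N + 1) = κ / 4 * ((((N + 1 : ℕ) : ℝ)) ^ (-κ - 1) -
        (((N + 1 : ℕ) : ℝ) + 1) ^ (-κ - 1)) := by
      rw [he]
      simp only
      push_cast
      ring
    rw [h2, h3]
    exact h1
  have hmono : Monotone g := monotone_nat_of_le_succ fun N => by linarith [(hstep N).1]
  have hanti : Antitone (fun N => g N + e N) := antitone_nat_of_succ_le fun N => by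
    have := (hstep N).2
    linarith
  have he0 : ∀ N, 0 ≤ e N := by
    intro N
    rw [he]
    positivity
  have hbdd : BddAbove (Set.range g) := by
    refine ⟨g 0 + e 0, ?_⟩
    rintro _ ⟨N, rfl⟩
    have h1 := hanti (Nat.zero_le N)
    simp only at h1
    linarith [he0 N]
  have hlim := tendsto_atTop_ciSup hmono hbdd
  refine ⟨⨆ i, g i, κ / 4, by positivity, ?_⟩
  intro N hN
  obtain ⟨M, rfl⟩ : ∃ M, N = M + 1 := ⟨N - 1, by omega⟩
  have hle : g M ≤ ⨆ i, g i := le_ciSup hbdd M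
  have hge : (⨆ i, g i) ≤ g M + e M := by
    refine le_of_tendsto hlim ?_
    filter_upwards [eventually_ge_atTop M] with i hi
    have h1 := hanti hi
    simp only at h1
    linarith [he0 i]
  have hgM : ∑ n ∈ Icc 1 (M + 1), (n : ℝ) ^ (-κ) - ((M + 1 : ℕ) : ℝ) ^ (1 - κ) / (1 - κ) -
    ((M + 1 : ℕ) : ℝ) ^ (-κ) / 2 = g M := by rw [hg]
  have heM : κ / 4 * ((M + 1 : ℕ) : ℝ) ^ (-κ - 1) = e M := by rw [he]
  rw [hgM, heM, abs_le]
  constructor <;> linarith [he0 M]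

end Pool.PWE
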