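import Pool.Agent.PWE.Defs

/-!
# PWE STEP: elementary properties of Q and E

E_bound: 0 ≤ Q x ≤ x. E_step: Q y - Q x ≤ ⌊y⌋ - ⌊x⌋ ≤ 2, the two other terms change by at
most |A| and |B|. E_sign: walk from a to b in steps of length ≤ 1; at a change of sign
two consecutive values differ by at most C, so both are at most C.
-/

set_option autoImplicit false

open Complex Finset Filter Topology MeasureTheory

namespace Pool.PWE

private theorem Q_measurable : Measurable fun x : ℝ => (Q x : ℝ) := by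
  classical
  have h : (fun x : ℝ => (Q x : ℝ)) =
      (fun n : ℕ => ((((Icc 1 n).filter (fun n : ℕ => Powerful n)).card : ℕ) : ℝ)) ∘
        fun x : ℝ => ⌊x⌋₊ := by
    funext x
    unfold Q
    simp only [Function.comp_apply]
  rw [h]
  exact (measurable_of_countable _).comp Nat.measurable_floor

theorem E_measurable : Measurable E := by
  have h : E = fun x => (Q x : ℝ) - cA * √x - cB * x ^ (1 / 3 : ℝ) := rfl
  rw [h]
  exact (Q_measurable.sub (Real.continuous_sqrt.measurable.const_mul _)).sub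
    ((measurable_id.pow_const _).const_mul _)

private theorem Q_le {x : ℝ} (hx : 0 ≤ x) : (Q x : ℝ) ≤ x := by
  classical
  have h1 : Q x ≤ ⌊x⌋₊ := by
    unfold Q
    refine (card_filter_le _ _).trans ?_
    rw [Nat.card_Icc, Nat.add_sub_cancel]
  exact (Nat.cast_le.2 h1).trans (Nat.floor_le hx)

private theorem Q_step {x y : ℝ} (hx : 0 ≤ x) (hxy : x ≤ y) :
    (Q x : ℝ) ≤ Q y ∧ (Q y : ℝ) ≤ Q x + (y - x + 1) := by
  classical
  have hfl : ⌊x⌋₊ ≤ ⌊y⌋₊ := Nat.floor_mono hxy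
  have hsub : Icc 1 ⌊x⌋₊ ⊆ Icc 1 ⌊y⌋₊ := Icc_subset_Icc_right hfl
  constructor
  · have h1 : Q x ≤ Q y := by
      unfold Q
      exact card_le_card (filter_subset_filter _ hsub)
    exact_mod_cast h1
  · have h1 : Q y ≤ Q x + (⌊y⌋₊ - ⌊x⌋₊) := by
      unfold Q
      have h2 : (Icc 1 ⌊y⌋₊).filter (fun n : ℕ => Powerful n) ⊆
          (Icc 1 ⌊x⌋₊).filter (fun n : ℕ => Powerful n) ∪ (Icc 1 ⌊y⌋₊ \ Icc 1 ⌊x⌋₊) := by
        intro n hn
        rw [mem_filter] at hn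
        rw [mem_union, mem_filter]
        by_cases h : n ∈ Icc 1 ⌊x⌋₊
        · exact Or.inl ⟨h, hn.2⟩
        · exact Or.inr (Finset.mem_sdiff.2 ⟨hn.1, h⟩)
      have h3 := (card_le_card h2).trans (card_union_le _ _)
      rw [card_sdiff_of_subset hsub, Nat.card_Icc, Nat.card_Icc, Nat.add_sub_cancel,
        Nat.add_sub_cancel] at h3
      exact h3
    have h2 : (Q y : ℝ) ≤ Q x + ((⌊y⌋₊ - ⌊x⌋₊ : ℕ) : ℝ) := by exact_mod_cast h1
    rw [Nat.cast_sub hfl] at h2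
    have a1 := Nat.floor_le (hx.trans hxy)
    have a2 := Nat.lt_floor_add_one x
    linarith

private theorem sqrt_le_of_one_le {x : ℝ} (hx : 1 ≤ x) : √x ≤ x := by
  rw [Real.sqrt_le_left (by linarith)]
  nlinarith

private theorem cbrt_le_of_one_le {x : ℝ} (hx : 1 ≤ x) : x ^ (1 / 3 : ℝ) ≤ x := by
  calc x ^ (1 / 3 : ℝ) ≤ x ^ (1 : ℝ) := Real.rpow_le_rpow_of_exponent_le hx (by norm_num)
    _ = x := Real.rpow_one x

theorem E_bound : ∃ C : ℝ, 0 < C ∧ ∀ x : ℝ, 1 ≤ x → |E x| ≤ C * x := by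
  refine ⟨1 + |cA| + |cB|, by positivity, fun x hx => ?_⟩
  have hx0 : 0 ≤ x := by linarith
  have h1 := Q_le hx0
  have h2 : |cA * √x| ≤ |cA| * x := by
    rw [abs_mul, abs_of_nonneg (Real.sqrt_nonneg x)]
    exact mul_le_mul_of_nonneg_left (sqrt_le_of_one_le hx) (abs_nonneg _)
  have h3 : |cB * x ^ (1 / 3 : ℝ)| ≤ |cB| * x := by
    rw [abs_mul, abs_of_nonneg (by positivity : (0 : ℝ) ≤ x ^ (1 / 3 : ℝ))]
    exact mul_le_mul_of_nonneg_left (cbrt_le_of_one_le hx) (abs_nonneg _)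
  have h4 : |(Q x : ℝ)| ≤ x := by
    rw [abs_of_nonneg (by positivity)]
    exact h1
  unfold E
  calc |(Q x : ℝ) - cA * √x - cB * x ^ (1 / 3 : ℝ)|
      ≤ |(Q x : ℝ) - cA * √x| + |cB * x ^ (1 / 3 : ℝ)| := abs_sub _ _
    _ ≤ (|(Q x : ℝ)| + |cA * √x|) + |cB * x ^ (1 / 3 : ℝ)| := by
        gcongr
        exact abs_sub _ _
    _ ≤ (x + |cA| * x) + |cB| * x := by linarith
    _ = _ := by ring

private theorem sqrt_step {x y : ℝ} (hx : 0 ≤ x) (hxy : x ≤ y) (hy : y ≤ x + 1) :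
    |√y - √x| ≤ 1 := by
  have h1 : √x ≤ √y := Real.sqrt_le_sqrt hxy
  rw [abs_of_nonneg (by linarith)]
  have h2 : √y ≤ √x + 1 := by
    rw [Real.sqrt_le_left (by positivity)]
    have h3 := Real.sq_sqrt hx
    have h4 := Real.sqrt_nonneg x
    nlinarith
  linarith

private theorem cbrt_step {x y : ℝ} (hx : 0 ≤ x) (hxy : x ≤ y) (hy : y ≤ x + 1) :
    |y ^ (1 / 3 : ℝ) - x ^ (1 / 3 : ℝ)| ≤ 1 := by
  have h1 : x ^ (1 / 3 : ℝ) ≤ y ^ (1 / 3 : ℝ) := Real.rpow_le_rpow hx hxy (by norm_num)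
  rw [abs_of_nonneg (by linarith)]
  have hy0 : 0 ≤ y := hx.trans hxy
  obtain ⟨a, ha⟩ : ∃ a, x ^ (1 / 3 : ℝ) = a := ⟨_, rfl⟩
  obtain ⟨b, hb⟩ : ∃ b, y ^ (1 / 3 : ℝ) = b := ⟨_, rfl⟩
  have ha0 : 0 ≤ a := by rw [← ha]; positivity
  have hb0 : 0 ≤ b := by rw [← hb]; positivity
  have ha3 : a ^ 3 = x := by
    rw [← ha, ← Real.rpow_natCast, ← Real.rpow_mul hx]
    norm_num
  have hb3 : b ^ 3 = y := by
    rw [← hb, ← Real.rpow_natCast, ← Real.rpow_mul hy0]
    norm_num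
  rw [ha, hb]
  by_contra hcon
  push Not at hcon
  have h2 : (a + 1) ^ 3 < b ^ 3 := by
    apply pow_lt_pow_left₀ (by linarith) (by linarith) (by norm_num)
  nlinarith [mul_nonneg ha0 ha0]

theorem E_step : ∃ C : ℝ, 0 < C ∧ ∀ x y : ℝ, 1 ≤ x → x ≤ y → y ≤ x + 1 → |E y - E x| ≤ C := by
  refine ⟨2 + |cA| + |cB|, by positivity, fun x y hx hxy hy => ?_⟩
  have hx0 : 0 ≤ x := by linarith
  obtain ⟨h1, h2⟩ := Q_step hx0 hxy
  have h3 : |(Q y : ℝ) - Q x| ≤ 2 := by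
    rw [abs_of_nonneg (by linarith)]
    linarith
  have h4 : |cA * (√y - √x)| ≤ |cA| := by
    rw [abs_mul]
    exact mul_le_of_le_one_right (abs_nonneg _) (sqrt_step hx0 hxy hy)
  have h5 : |cB * (y ^ (1 / 3 : ℝ) - x ^ (1 / 3 : ℝ))| ≤ |cB| := by
    rw [abs_mul]
    exact mul_le_of_le_one_right (abs_nonneg _) (cbrt_step hx0 hxy hy)
  have e : E y - E x = ((Q y : ℝ) - Q x) - cA * (√y - √x) -
      cB * (y ^ (1 / 3 : ℝ) - x ^ (1 / 3 : ℝ)) := by
    unfold E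
    ring
  rw [e]
  calc _ ≤ |((Q y : ℝ) - Q x) - cA * (√y - √x)| +
        |cB * (y ^ (1 / 3 : ℝ) - x ^ (1 / 3 : ℝ))| := abs_sub _ _
    _ ≤ (|(Q y : ℝ) - Q x| + |cA * (√y - √x)|) +
        |cB * (y ^ (1 / 3 : ℝ) - x ^ (1 / 3 : ℝ))| := by
        gcongr
        exact abs_sub _ _
    _ ≤ _ := by linarith

/-- walking in steps of length at most one -/
private theorem walk {G : ℝ → ℝ} {C : ℝ}
    (hG : ∀ x y : ℝ, 1 ≤ x → x ≤ y → y ≤ x + 1 → |G y - G x| ≤ C) {a b : ℝ} (ha : 1 ≤ a)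
    (h : ∀ x, a ≤ x → x ≤ b → C < |G x|) (hpos : 0 < G a) (n : ℕ) :
    ∀ x, a ≤ x → x ≤ b → x ≤ a + n → 0 < G x := by
  induction n with
  | zero =>
    intro x h1 _ h3
    rw [Nat.cast_zero, add_zero] at h3
    rw [le_antisymm h3 h1]
    exact hpos
  | succ n ih =>
    intro x h1 h2 h3
    push_cast at h3
    have b1 : a ≤ max a (x - 1) := le_max_left _ _
    have b2 : max a (x - 1) ≤ x := max_le h1 (by linarith)
    have b3 : x ≤ max a (x - 1) + 1 := by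
      have := le_max_right a (x - 1)
      linarith
    have b4 : max a (x - 1) ≤ a + n := max_le (by
      have : (0 : ℝ) ≤ n := by positivity
      linarith) (by linarith)
    have h4 := ih _ b1 (b2.trans h2) b4
    have h5 := h _ b1 (b2.trans h2)
    rw [abs_of_pos h4] at h5
    have h6 := hG _ x (ha.trans b1) b2 b3
    rw [abs_le] at h6
    linarith [h6.1]

/-- if |E| > C on [a, b] then E has a constant sign there -/
theorem E_sign : ∃ C : ℝ, 0 < C ∧ ∀ a b : ℝ, 1 ≤ a → (∀ x, a ≤ x → x ≤ b → C < |E x|) →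
    (∀ x, a ≤ x → x ≤ b → 0 < E x) ∨ (∀ x, a ≤ x → x ≤ b → E x < 0) := by
  obtain ⟨C, hC, hE⟩ := E_step
  refine ⟨C, hC, fun a b ha h => ?_⟩
  rcases lt_or_ge b a with hba | hab
  · left
    intro x h1 h2
    linarith
  have h0 : E a ≠ 0 := by
    intro h0
    have := h a le_rfl hab
    rw [h0, abs_zero] at this
    linarith
  rcases lt_or_gt_of_ne h0 with hneg | hpos
  · right
    intro x h1 h2
    obtain ⟨n, hn⟩ := exists_nat_ge (x - a)
    have hw := walk (G := fun x => -E x) (C := C) (fun x y hx hxy hy => by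
      have h3 := hE x y hx hxy hy
      have e : -E y - -E x = -(E y - E x) := by ring
      rw [e, abs_neg]
      exact h3) ha (fun x h1 h2 => by
      rw [abs_neg]
      exact h x h1 h2) (by linarith) n x h1 h2 (by linarith)
    linarith
  · left
    intro x h1 h2
    obtain ⟨n, hn⟩ := exists_nat_ge (x - a)
    exact walk hE ha h hpos n x h1 h2 (by linarith)

end Pool.PWE
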