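import Pool.Agent.PWE.Ana
import Pool.Agent.PWE.Step
import Pool.Agent.OMG.Tay

/-!
# PWE LAP: the averages J s0 k are Taylor coefficients, and their bound

Adapted from Pool/Agent/OMG/Int.lean: LSeries pw s / s = int_0^oo Q(e^y) e^(-s y) dy for Re s > 1
(LSeries_eq_mul_integral), int_0^oo e^(y/2) e^(-s y) dy = 1/(s-1/2),
int_0^oo e^(y/3) e^(-s y) dy = 1/(s-1/3); then T_unique, T_congr, ana and T_bound
(with a radius q between s0 - 1/6 and the radius of ana).
-/

set_option autoImplicit false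

open Complex Finset Filter Topology MeasureTheory

namespace Pool.PWE

private theorem pow_exp_integrable {b : ℝ} (hb : 0 < b) (k : ℕ) :
    IntegrableOn (fun y : ℝ => y ^ k * Real.exp (-b * y)) (Set.Ioi 0) := by
  have h := integrableOn_rpow_mul_exp_neg_mul_rpow (p := 1) (s := (k : ℝ)) (b := b)
    (by have : (0 : ℝ) ≤ k := Nat.cast_nonneg k
        linarith) one_pos hb
  refine h.congr_fun ?_ measurableSet_Ioi
  intro y _
  simp only [Real.rpow_natCast, Real.rpow_one]

/-- the bound |E(e^y)| e^(-s0 y) e^(v y) has a finite integral for v < s0 - 1 -/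
private theorem E_exp_integrable {s0 v : ℝ} (h : v < s0 - 1) (k : ℕ) :
    IntegrableOn (fun y : ℝ => E (Real.exp y) * Real.exp (-s0 * y) * Real.exp (v * y) * y ^ k)
      (Set.Ioi 0) := by
  obtain ⟨C, hC0, hC⟩ := E_bound
  have hb : 0 < s0 - 1 - v := by linarith
  have h1 := (pow_exp_integrable hb k).const_mul C
  refine Integrable.mono' h1 ?_ ?_
  · refine Measurable.aestronglyMeasurable ?_
    exact (((E_measurable.comp Real.measurable_exp).mul
      (Real.measurable_exp.comp (measurable_const.mul measurable_id))).mul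
      (Real.measurable_exp.comp (measurable_const.mul measurable_id))).mul
      (measurable_id.pow_const k)
  · refine (ae_restrict_iff' measurableSet_Ioi).2 (Filter.Eventually.of_forall ?_)
    intro y hy
    have hy0 : 0 < y := hy
    have hE := hC (Real.exp y) (Real.one_le_exp hy0.le)
    rw [Real.norm_eq_abs, abs_mul, abs_mul, abs_mul, Real.abs_exp, Real.abs_exp,
      abs_of_nonneg (pow_nonneg hy0.le k)]
    have e : Real.exp y * Real.exp (-s0 * y) * Real.exp (v * y) =
        Real.exp (-(s0 - 1 - v) * y) := by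
      rw [← Real.exp_add, ← Real.exp_add]
      congr 1
      ring
    calc |E (Real.exp y)| * Real.exp (-s0 * y) * Real.exp (v * y) * y ^ k
        ≤ C * Real.exp y * Real.exp (-s0 * y) * Real.exp (v * y) * y ^ k := by
          gcongr
      _ = C * (Real.exp y * Real.exp (-s0 * y) * Real.exp (v * y)) * y ^ k := by ring
      _ = C * (y ^ k * Real.exp (-(s0 - 1 - v) * y)) := by
          rw [e]
          ring

theorem J_integrable {s0 : ℝ} (h : 1 < s0) (k : ℕ) :
    IntegrableOn (fun y : ℝ => E (Real.exp y) * Real.exp (-s0 * y) * y ^ k / (k.factorial : ℝ))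
      (Set.Ioi 0) := by
  have h1 := (E_exp_integrable (s0 := s0) (v := 0) (by linarith) k).div_const (k.factorial : ℝ)
  simp only [zero_mul, Real.exp_zero, mul_one] at h1
  exact h1

private theorem Q_eq (x : ℝ) : (((Q x : ℕ) : ℝ) : ℂ) = ∑ k ∈ Icc 1 ⌊x⌋₊, pw k := by
  classical
  unfold Q pw
  rw [Finset.sum_ite, Finset.sum_const_zero, add_zero, Finset.sum_const, nsmul_eq_mul, mul_one]
  push_cast
  congr 2

private theorem pw_isBigO :
    (fun n : ℕ ↦ ∑ k ∈ Icc 1 n, ‖pw k‖) =O[atTop] fun n : ℕ ↦ (n : ℝ) ^ (1 : ℝ) := by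
  refine Asymptotics.IsBigO.of_bound 1 (Filter.Eventually.of_forall fun n => ?_)
  have h1 : ∑ k ∈ Icc 1 n, ‖pw k‖ ≤ ∑ _k ∈ Icc 1 n, (1 : ℝ) := by
    refine Finset.sum_le_sum fun k _ => ?_
    unfold pw
    split_ifs
    · simp
    · simp
  have h2 : ∑ _k ∈ Icc 1 n, (1 : ℝ) = n := by simp
  rw [Real.norm_of_nonneg (Finset.sum_nonneg fun k _ => norm_nonneg _), Real.rpow_one,
    Real.norm_of_nonneg (Nat.cast_nonneg n), one_mul]
  linarith

private theorem L_div_eq_integral {s : ℂ} (hs : 1 < s.re) :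
    LSeries pw s / s = ∫ y in Set.Ioi (0 : ℝ), ((Q (Real.exp y) : ℝ) : ℂ) * Complex.exp (-s * y) := by
  have hs0 : s ≠ 0 := by
    intro h
    rw [h] at hs
    norm_num at hs
  have h := LSeries_eq_mul_integral' pw (r := 1) zero_le_one (s := s) hs pw_isBigO
  have hF : LSeries pw s / s =
      ∫ t in Set.Ioi (1 : ℝ), ((Q t : ℝ) : ℂ) * (t : ℂ) ^ (-(s + 1)) := by
    rw [h, mul_div_assoc, mul_comm, div_mul_cancel₀ _ hs0]
    simp only [Q_eq]
  have himg : Real.exp '' Set.Ioi 0 = Set.Ioi 1 := by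
    ext t
    constructor
    · rintro ⟨y, hy, rfl⟩
      exact Real.one_lt_exp_iff.2 hy
    · intro ht
      have ht1 : (1 : ℝ) < t := ht
      exact ⟨Real.log t, Real.log_pos ht1, Real.exp_log (by linarith)⟩
  rw [hF, ← himg, integral_image_eq_integral_abs_deriv_smul measurableSet_Ioi
    (fun x _ => (Real.hasDerivAt_exp x).hasDerivWithinAt) (Real.exp_injective.injOn)]
  refine setIntegral_congr_fun measurableSet_Ioi ?_
  intro y _
  simp only
  rw [Real.abs_exp, Complex.real_smul, Complex.cpow_def_of_ne_zero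
    (by exact_mod_cast (Real.exp_pos y).ne'), ← Complex.ofReal_log (Real.exp_pos y).le,
    Real.log_exp, Complex.ofReal_exp, mul_left_comm, ← Complex.exp_add]
  congr 2
  ring

/-- integrability of E(e^y) e^(-s y) for Re s > 1 -/
private theorem E_cexp_integrable {s : ℂ} (hs : 1 < s.re) :
    IntegrableOn (fun y : ℝ => (E (Real.exp y) : ℂ) * Complex.exp (-s * y)) (Set.Ioi 0) := by
  have h1 := E_exp_integrable (s0 := s.re) (v := 0) (by linarith) 0
  simp only [zero_mul, Real.exp_zero, mul_one, pow_zero] at h1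
  refine Integrable.mono h1 ?_ ?_
  · refine Measurable.aestronglyMeasurable ?_
    exact (Complex.measurable_ofReal.comp (E_measurable.comp Real.measurable_exp)).mul
      (Complex.measurable_exp.comp (measurable_const.mul Complex.measurable_ofReal))
  · refine Filter.Eventually.of_forall fun y => ?_
    rw [norm_mul, Complex.norm_exp, Complex.norm_real, norm_mul,
      Real.norm_of_nonneg (Real.exp_pos (-s.re * y)).le]
    simp

private theorem E_int {s : ℂ} (hs : 1 < s.re) :
    ∫ y in Set.Ioi (0 : ℝ), (E (Real.exp y) : ℂ) * Complex.exp (-s * y) =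
      LSeries pw s / s - cA / (s - 1 / 2) - cB / (s - 1 / 3) := by
  have ha : (1 / 2 - s).re < 0 := by
    rw [Complex.sub_re]
    have : (1 / 2 : ℂ).re = 1 / 2 := by norm_num
    rw [this]
    linarith
  have hb : (1 / 3 - s).re < 0 := by
    rw [Complex.sub_re]
    have : (1 / 3 : ℂ).re = 1 / 3 := by norm_num
    rw [this]
    linarith
  have hEI := E_cexp_integrable hs
  have hAI : IntegrableOn (fun y : ℝ => (cA : ℂ) * Complex.exp ((1 / 2 - s) * y)) (Set.Ioi 0) :=
    (integrableOn_exp_mul_complex_Ioi ha 0).const_mul _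
  have hBI : IntegrableOn (fun y : ℝ => (cB : ℂ) * Complex.exp ((1 / 3 - s) * y)) (Set.Ioi 0) :=
    (integrableOn_exp_mul_complex_Ioi hb 0).const_mul _
  have hq : ∀ y : ℝ, ((Q (Real.exp y) : ℝ) : ℂ) * Complex.exp (-s * y) =
      (E (Real.exp y) : ℂ) * Complex.exp (-s * y) + (cA : ℂ) * Complex.exp ((1 / 2 - s) * y) +
        (cB : ℂ) * Complex.exp ((1 / 3 - s) * y) := by
    intro y
    have e1 : √(Real.exp y) = Real.exp (1 / 2 * y) := by
      rw [Real.sqrt_eq_rpow, ← Real.exp_mul]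
      congr 1
      ring
    have e2 : (Real.exp y) ^ (1 / 3 : ℝ) = Real.exp (1 / 3 * y) := by
      rw [← Real.exp_mul]
      congr 1
      ring
    have e3 : (Q (Real.exp y) : ℝ) = E (Real.exp y) + cA * Real.exp (1 / 2 * y) +
        cB * Real.exp (1 / 3 * y) := by
      unfold E
      rw [e1, e2]
      ring
    rw [e3]
    have e4 : Complex.exp ((1 / 2 - s) * y) = Complex.exp (1 / 2 * y) * Complex.exp (-s * y) := by
      rw [← Complex.exp_add]
      congr 1
      ring
    have e5 : Complex.exp ((1 / 3 - s) * y) = Complex.exp (1 / 3 * y) * Complex.exp (-s * y) := by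
      rw [← Complex.exp_add]
      congr 1
      ring
    rw [e4, e5]
    push_cast
    ring
  have h1 := L_div_eq_integral hs
  have h2 : ∫ y in Set.Ioi (0 : ℝ), ((Q (Real.exp y) : ℝ) : ℂ) * Complex.exp (-s * y) =
      (∫ y in Set.Ioi (0 : ℝ), (E (Real.exp y) : ℂ) * Complex.exp (-s * y)) +
        (∫ y in Set.Ioi (0 : ℝ), (cA : ℂ) * Complex.exp ((1 / 2 - s) * y)) +
        ∫ y in Set.Ioi (0 : ℝ), (cB : ℂ) * Complex.exp ((1 / 3 - s) * y) := by
    have h5 := integral_add (hEI.add hAI) hBI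
    have h6 := integral_add hEI hAI
    simp only [Pi.add_apply] at h5 h6
    rw [← h6, ← h5]
    refine setIntegral_congr_fun measurableSet_Ioi fun y _ => ?_
    exact hq y
  have h3 : ∫ y in Set.Ioi (0 : ℝ), (cA : ℂ) * Complex.exp ((1 / 2 - s) * y) =
      cA / (s - 1 / 2) := by
    have hne : s - 1 / 2 ≠ 0 := by
      intro h0
      have : (1 / 2 - s) = 0 := by rw [← neg_sub, h0, neg_zero]
      rw [this] at ha
      simp at ha
    have hne2 : (1 / 2 : ℂ) - s ≠ 0 := by
      rw [← neg_sub]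
      exact neg_ne_zero.mpr hne
    rw [integral_const_mul, integral_exp_mul_complex_Ioi ha]
    simp only [Complex.ofReal_zero, mul_zero, Complex.exp_zero]
    have : (1 / 2 : ℂ) - s = -(s - 1 / 2) := by ring
    rw [this, neg_div_neg_eq]
    ring
  have h4 : ∫ y in Set.Ioi (0 : ℝ), (cB : ℂ) * Complex.exp ((1 / 3 - s) * y) =
      cB / (s - 1 / 3) := by
    rw [integral_const_mul, integral_exp_mul_complex_Ioi hb]
    simp only [Complex.ofReal_zero, mul_zero, Complex.exp_zero]
    have : (1 / 3 : ℂ) - s = -(s - 1 / 3) := by ring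
    rw [this, neg_div_neg_eq]
    ring
  rw [h1, h2, h3, h4]
  ring

private theorem summable_aux {s0 v : ℝ} (hv0 : 0 ≤ v) (hv : v < s0 - 1) (u : ℂ) (hu : ‖u‖ = v) :
    Summable fun k : ℕ => ∫ y in Set.Ioi (0 : ℝ),
      ‖((E (Real.exp y) * Real.exp (-s0 * y) * y ^ k / (k.factorial : ℝ) : ℝ) : ℂ) * u ^ k‖ := by
  have hint : ∀ k : ℕ, IntegrableOn (fun y : ℝ =>
      ‖((E (Real.exp y) * Real.exp (-s0 * y) * y ^ k / (k.factorial : ℝ) : ℝ) : ℂ) * u ^ k‖)
      (Set.Ioi 0) := by
    intro k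
    exact (((J_integrable (s0 := s0) (by linarith) k).ofReal (𝕜 := ℂ)).mul_const (u ^ k)).norm
  have hI := (E_exp_integrable (s0 := s0) (v := v) hv 0).norm
  refine summable_of_sum_le (c := ∫ y in Set.Ioi (0 : ℝ),
    ‖E (Real.exp y) * Real.exp (-s0 * y) * Real.exp (v * y) * y ^ 0‖)
    (fun k => integral_nonneg fun y => norm_nonneg _) ?_
  intro S
  rw [← integral_finsetSum S (fun k _ => hint k)]
  refine setIntegral_mono_on (integrable_finsetSum S fun k _ => hint k) hI measurableSet_Ioi ?_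
  intro y hy
  have hy0 : 0 < y := hy
  have hterm : ∀ k : ℕ,
      ‖((E (Real.exp y) * Real.exp (-s0 * y) * y ^ k / (k.factorial : ℝ) : ℝ) : ℂ) * u ^ k‖ =
      |E (Real.exp y)| * Real.exp (-s0 * y) * ((v * y) ^ k / (k.factorial : ℝ)) := by
    intro k
    rw [norm_mul, norm_pow, hu, Complex.norm_real, Real.norm_eq_abs, abs_div, abs_mul, abs_mul,
      Real.abs_exp, abs_of_nonneg (pow_nonneg hy0.le k), Nat.abs_cast, mul_pow]
    ring
  simp only [hterm]
  rw [← Finset.mul_sum, pow_zero, mul_one, Real.norm_eq_abs, abs_mul, abs_mul, Real.abs_exp,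
    Real.abs_exp]
  refine mul_le_mul_of_nonneg_left ?_ (by positivity)
  have hs := NormedSpace.expSeries_div_hasSum_exp (v * y)
  rw [← Real.exp_eq_exp_ℝ] at hs
  exact sum_le_hasSum S (fun k _ => by positivity) hs

private theorem J_eq {s0 : ℝ} (h : 1 < s0) (k : ℕ) :
    (J s0 k : ℂ) = PowerSeries.coeff k (OMG.T (s0 : ℂ)
      (fun s => LSeries pw s / s - cA / (s - 1 / 2) - cB / (s - 1 / 3))) := by
  symm
  refine OMG.T_unique (r := (s0 - 1) / 2) (by linarith) (a := fun k => (J s0 k : ℂ)) ?_ k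
  intro s hs
  obtain ⟨u, hu⟩ : ∃ u : ℂ, u = (s0 : ℂ) - s := ⟨_, rfl⟩
  have hnorm : ‖u‖ < (s0 - 1) / 2 := by
    rw [hu, ← dist_eq_norm, dist_comm]
    exact hs
  have hre : 1 < s.re := by
    have h1 : |u.re| ≤ ‖u‖ := Complex.abs_re_le_norm u
    have h2 : u.re = s0 - s.re := by rw [hu]; simp
    rw [h2] at h1
    have := (abs_le.1 h1).2
    linarith
  have hFint : ∀ k : ℕ, Integrable (fun y : ℝ =>
      ((E (Real.exp y) * Real.exp (-s0 * y) * y ^ k / (k.factorial : ℝ) : ℝ) : ℂ) * u ^ k)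
      (volume.restrict (Set.Ioi 0)) := fun k =>
    ((J_integrable h k).ofReal (𝕜 := ℂ)).mul_const (u ^ k)
  have hsum := hasSum_integral_of_summable_integral_norm hFint
    (summable_aux (norm_nonneg u) (by linarith [norm_nonneg u]) u rfl)
  have e1 : ∀ k : ℕ, ∫ y in Set.Ioi (0 : ℝ),
      ((E (Real.exp y) * Real.exp (-s0 * y) * y ^ k / (k.factorial : ℝ) : ℝ) : ℂ) * u ^ k =
      (J s0 k : ℂ) * ((s0 : ℂ) - s) ^ k := by
    intro k
    rw [integral_mul_const, ← hu]
    congr 1
    unfold J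
    exact integral_ofReal
  have e2 : ∫ y in Set.Ioi (0 : ℝ), (∑' k : ℕ,
      ((E (Real.exp y) * Real.exp (-s0 * y) * y ^ k / (k.factorial : ℝ) : ℝ) : ℂ) * u ^ k) =
      LSeries pw s / s - cA / (s - 1 / 2) - cB / (s - 1 / 3) := by
    rw [← E_int hre]
    refine setIntegral_congr_fun measurableSet_Ioi ?_
    intro y _
    simp only
    have h3 : ∀ k : ℕ,
        ((E (Real.exp y) * Real.exp (-s0 * y) * y ^ k / (k.factorial : ℝ) : ℝ) : ℂ) * u ^ k =
        (E (Real.exp y) : ℂ) * Complex.exp (-(s0 : ℂ) * y) *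
          ((u * y) ^ k / (k.factorial : ℂ)) := by
      intro k
      push_cast
      rw [mul_pow]
      ring
    simp only [h3]
    rw [tsum_mul_left]
    have h4 := (NormedSpace.expSeries_div_hasSum_exp (u * (y : ℂ))).tsum_eq
    rw [← Complex.exp_eq_exp_ℂ] at h4
    rw [h4, mul_assoc, ← Complex.exp_add, hu]
    congr 2
    ring
  rw [e2] at hsum
  simp only [e1] at hsum
  exact hsum

theorem J_bound {s0 : ℝ} (h : 1 < s0) : ∃ C r : ℝ, 0 < C ∧ s0 - 1 / 6 < r ∧
    ∀ k : ℕ, |J s0 k| ≤ C * (1 / r) ^ k := by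
  obtain ⟨r, g, hr, hg, he⟩ := ana h
  have hq0 : 0 < (s0 - 1 / 6 + r) / 2 := by linarith
  obtain ⟨C, hC⟩ := OMG.T_bound hg (q := (s0 - 1 / 6 + r) / 2) hq0 (by linarith)
  refine ⟨|C| + 1, (s0 - 1 / 6 + r) / 2, by positivity, by linarith, fun k => ?_⟩
  have h1 := hC k
  rw [← OMG.T_congr he, ← J_eq h, Complex.norm_real, Real.norm_eq_abs] at h1
  have h2 : 0 ≤ (1 / ((s0 - 1 / 6 + r) / 2)) ^ k := by positivity
  have h3 : C ≤ |C| + 1 := by linarith [le_abs_self C]
  exact h1.trans (mul_le_mul_of_nonneg_right h3 h2)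

end Pool.PWE
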