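import Pool.Agent.PWE.Mob
import Pool.Agent.PWE.Dtwo
import Pool.Agent.PWE.Cnt

/-!
# PWE LOCA: global and local asymptotics of Q with abstract constants

dtwo: α, β, C. A' = α sum_m mu(m)/m^3, B' = β sum_m mu(m)/m^2 (absolutely convergent).
GLOBAL: Q x = sum_{m^6 <= x} mu(m) D(x/m^6) (mob, D_zero), insert dtwo (x/m^6 >= 1):
errors |α| x^(1/2) sum_{m > x^(1/6)} m^(-3) << x^(1/6), |β| x^(1/3) sum_{m > x^(1/6)} m^(-2) <<
x^(1/6), C x^(3/20) sum_{m^6 <= x} m^(-9/10) << x^(3/20 + 1/60) = x^(1/6); x^(1/6) <= x^(1/5).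
LOCAL: η = ε/100, M = ⌊x^(1/6-η)⌋. For m <= M insert dtwo for x and for x+h
(x/m^6 >= 1): errors 2C sum_{m<=M} (2x/m^6)^(3/20) << x^(3/20) M^(1/10) <= x^(1/6-η/10);
completing the sums over m: |α| (sqrt(x+h) - sqrt x) sum_{m>M} m^(-3) << h x^(-1/2) M^(-2) <<
x^(1/6-ε+2η), |β| ((x+h)^(1/3) - x^(1/3)) sum_{m>M} m^(-2) << h x^(-2/3) M^(-1) <<
x^(1/6-ε+η). For m > M: cnt with P = 2^7 x^(6η) (M >= x^(1/6-η)/2) or so: at most
C x^(12η) (1 + x^(1/6-ε)). So δ = η/10 works (12η < 1/6 - δ as ε < 1).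
-/

set_option autoImplicit false

open Complex Finset Filter Topology MeasureTheory

namespace Pool.PWE

/-- tails of absolutely convergent sums -/
private theorem lo_tail {s : ℕ → ℝ} (hs : Summable s) (h0 : s 0 = 0) {M : ℕ} {c : ℝ}
    (hc : 0 ≤ c) (h : ∀ m : ℕ, M ≤ m → |s (m + 1)| ≤ c * (1 / (m : ℝ) - 1 / ((m : ℝ) + 1))) :
    |∑' m, s m - ∑ m ∈ Icc 1 M, s m| ≤ c / M := by
  have hpart : ∀ N : ℕ, M ≤ N → |∑ m ∈ Icc 1 N, s m - ∑ m ∈ Icc 1 M, s m| ≤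
      c * (1 / (M : ℝ) - 1 / (N : ℝ)) := by
    intro N hN
    induction N, hN using Nat.le_induction with
    | base => simp
    | succ N hN ih =>
      rw [Finset.sum_Icc_succ_top (by omega)]
      have h1 := h N hN
      have h2 : |∑ m ∈ Icc 1 N, s m + s (N + 1) - ∑ m ∈ Icc 1 M, s m| ≤
          |∑ m ∈ Icc 1 N, s m - ∑ m ∈ Icc 1 M, s m| + |s (N + 1)| := by
        have e : ∑ m ∈ Icc 1 N, s m + s (N + 1) - ∑ m ∈ Icc 1 M, s m =
            (∑ m ∈ Icc 1 N, s m - ∑ m ∈ Icc 1 M, s m) + s (N + 1) := by ring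
        rw [e]
        exact abs_add_le _ _
      push_cast
      linarith
  have hr : ∀ N : ℕ, ∑ m ∈ Finset.range (N + 1), s m = ∑ m ∈ Icc 1 N, s m := by
    intro N
    induction N with
    | zero => simp [h0]
    | succ N ih => rw [Finset.sum_range_succ, ih, Finset.sum_Icc_succ_top (by omega)]
  have ht : Tendsto (fun N : ℕ => |∑ m ∈ Icc 1 N, s m - ∑ m ∈ Icc 1 M, s m|) atTop
      (𝓝 |∑' m, s m - ∑ m ∈ Icc 1 M, s m|) := by
    have h1 := (hs.hasSum.tendsto_sum_nat.comp (tendsto_add_atTop_nat 1))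
    have h2 : Tendsto (fun N : ℕ => ∑ m ∈ Icc 1 N, s m) atTop (𝓝 (∑' m, s m)) := by
      refine h1.congr fun N => ?_
      exact hr N
    exact (h2.sub_const _).abs
  refine le_of_tendsto ht ?_
  filter_upwards [eventually_ge_atTop M] with N hN
  refine (hpart N hN).trans ?_
  have h3 : (0 : ℝ) ≤ 1 / (N : ℝ) := by positivity
  calc c * (1 / (M : ℝ) - 1 / (N : ℝ)) ≤ c * (1 / (M : ℝ)) := by
        apply mul_le_mul_of_nonneg_left _ hc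
        linarith
    _ = c / M := by ring

private theorem lo_mu (m : ℕ) : |(ArithmeticFunction.moebius m : ℝ)| ≤ 1 := by
  have h := ArithmeticFunction.abs_moebius_le_one (n := m)
  exact_mod_cast h

private theorem lo_sum3 : Summable fun m : ℕ => (ArithmeticFunction.moebius m : ℝ) / (m : ℝ) ^ 3 := by
  refine Summable.of_norm_bounded (g := fun m : ℕ => 1 / (m : ℝ) ^ 3)
    (Real.summable_one_div_nat_pow.2 (by norm_num)) fun m => ?_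
  rw [norm_div, Real.norm_eq_abs, Real.norm_eq_abs, abs_of_nonneg (by positivity : (0 : ℝ) ≤ (m : ℝ) ^ 3)]
  exact div_le_div_of_nonneg_right (lo_mu m) (by positivity)

private theorem lo_sum2 : Summable fun m : ℕ => (ArithmeticFunction.moebius m : ℝ) / (m : ℝ) ^ 2 := by
  refine Summable.of_norm_bounded (g := fun m : ℕ => 1 / (m : ℝ) ^ 2)
    (Real.summable_one_div_nat_pow.2 (by norm_num)) fun m => ?_
  rw [norm_div, Real.norm_eq_abs, Real.norm_eq_abs, abs_of_nonneg (by positivity : (0 : ℝ) ≤ (m : ℝ) ^ 2)]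
  exact div_le_div_of_nonneg_right (lo_mu m) (by positivity)

private theorem lo_R2 {M : ℕ} (hM : 1 ≤ M) :
    |∑' m : ℕ, (ArithmeticFunction.moebius m : ℝ) / (m : ℝ) ^ 2 -
      ∑ m ∈ Icc 1 M, (ArithmeticFunction.moebius m : ℝ) / (m : ℝ) ^ 2| ≤ 1 / M := by
  refine lo_tail lo_sum2 (by simp) zero_le_one fun m hm => ?_
  have hm0 : (0 : ℝ) < m := by exact_mod_cast (by omega : 0 < m)
  rw [abs_div, abs_of_nonneg (by positivity : (0 : ℝ) ≤ ((m + 1 : ℕ) : ℝ) ^ 2), one_mul]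
  have h1 : |(ArithmeticFunction.moebius (m + 1) : ℝ)| / ((m + 1 : ℕ) : ℝ) ^ 2 ≤
      1 / ((m + 1 : ℕ) : ℝ) ^ 2 := div_le_div_of_nonneg_right (lo_mu _) (by positivity)
  refine h1.trans ?_
  push_cast
  rw [div_sub_div _ _ hm0.ne' (by positivity), div_le_div_iff₀ (by positivity) (by positivity)]
  nlinarith

private theorem lo_R3 {M : ℕ} (hM : 1 ≤ M) :
    |∑' m : ℕ, (ArithmeticFunction.moebius m : ℝ) / (m : ℝ) ^ 3 -
      ∑ m ∈ Icc 1 M, (ArithmeticFunction.moebius m : ℝ) / (m : ℝ) ^ 3| ≤ 1 / (M : ℝ) ^ 2 := by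
  have hM0 : (0 : ℝ) < M := by exact_mod_cast (by omega : 0 < M)
  have h := lo_tail (M := M) (c := 1 / (M : ℝ)) lo_sum3 (by simp) (by positivity) fun m hm => ?_
  · refine h.trans (le_of_eq ?_)
    field_simp
  have hm0 : (0 : ℝ) < m := by exact_mod_cast (by omega : 0 < m)
  have hMm : (M : ℝ) ≤ m := by exact_mod_cast hm
  rw [abs_div, abs_of_nonneg (by positivity : (0 : ℝ) ≤ ((m + 1 : ℕ) : ℝ) ^ 3)]
  have h1 : |(ArithmeticFunction.moebius (m + 1) : ℝ)| / ((m + 1 : ℕ) : ℝ) ^ 3 ≤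
      1 / ((m + 1 : ℕ) : ℝ) ^ 3 := div_le_div_of_nonneg_right (lo_mu _) (by positivity)
  refine h1.trans ?_
  push_cast
  have e : 1 / (m : ℝ) - 1 / ((m : ℝ) + 1) = 1 / ((m : ℝ) * ((m : ℝ) + 1)) := by
    field_simp
    ring
  rw [e, div_mul_div_comm, one_mul, div_le_div_iff₀ (by positivity) (by positivity)]
  nlinarith [mul_pos hm0 hm0, mul_pos hM0 hm0, mul_le_mul_of_nonneg_right hMm hm0.le,
    mul_le_mul_of_nonneg_right hMm (mul_pos hm0 hm0).le]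

/-- the sum of `m ^ (-9/10)` -/
private theorem lo_910 (M : ℕ) : ∑ m ∈ Icc 1 M, (m : ℝ) ^ (-(9 / 10) : ℝ) ≤
    10 * (M : ℝ) ^ (1 / 10 : ℝ) := by
  induction M with
  | zero => simp
  | succ M ih =>
    rw [Finset.sum_Icc_succ_top (by omega)]
    have hp : (0 : ℝ) < ((M + 1 : ℕ) : ℝ) := by positivity
    have h1 : (1 + (-(1 / ((M + 1 : ℕ) : ℝ)))) ^ (1 / 10 : ℝ) ≤ 1 + (1 / 10) * (-(1 / ((M + 1 : ℕ) : ℝ))) := by
      refine rpow_one_add_le_one_add_mul_self ?_ (by norm_num) (by norm_num)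
      have h2 : 1 / ((M + 1 : ℕ) : ℝ) ≤ 1 := by
        rw [div_le_one hp]
        push_cast
        linarith [(Nat.cast_nonneg M : (0 : ℝ) ≤ (M : ℝ))]
      linarith
    have h2 : (1 + (-(1 / ((M + 1 : ℕ) : ℝ)))) = (M : ℝ) / ((M + 1 : ℕ) : ℝ) := by
      field_simp
      push_cast
      ring
    rw [h2, Real.div_rpow (Nat.cast_nonneg M) hp.le, div_le_iff₀ (Real.rpow_pos_of_pos hp _)] at h1
    have h3 : ((M + 1 : ℕ) : ℝ) ^ (1 / 10 : ℝ) = ((M + 1 : ℕ) : ℝ) ^ (-(9 / 10) : ℝ) * ((M + 1 : ℕ) : ℝ) := by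
      rw [← Real.rpow_add_one hp.ne']
      norm_num
    have h4 : (1 + 1 / 10 * -(1 / ((M + 1 : ℕ) : ℝ))) * ((M + 1 : ℕ) : ℝ) ^ (1 / 10 : ℝ) =
        ((M + 1 : ℕ) : ℝ) ^ (1 / 10 : ℝ) - (1 / 10) * ((M + 1 : ℕ) : ℝ) ^ (-(9 / 10) : ℝ) := by
      have h5 : (1 / ((M + 1 : ℕ) : ℝ)) * ((M + 1 : ℕ) : ℝ) ^ (1 / 10 : ℝ) =
          ((M + 1 : ℕ) : ℝ) ^ (-(9 / 10) : ℝ) := by
        rw [h3]
        field_simp
      linear_combination (-(1 / 10)) * h5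
    rw [h4] at h1
    linarith

/-- increments of a concave power -/
private theorem lo_inc {x h p : ℝ} (hx : 1 ≤ x) (hh : 0 ≤ h) (hp : 0 ≤ p) (hp1 : p ≤ 1) :
    0 ≤ (x + h) ^ p - x ^ p ∧ (x + h) ^ p - x ^ p ≤ h * x ^ (p - 1) := by
  have hx0 : 0 < x := by linarith
  refine ⟨sub_nonneg.2 (Real.rpow_le_rpow hx0.le (by linarith) hp), ?_⟩
  have h1 : (1 + h / x) ^ p ≤ 1 + p * (h / x) :=
    rpow_one_add_le_one_add_mul_self (by linarith [div_nonneg hh hx0.le]) hp hp1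
  have h2 : x + h = x * (1 + h / x) := by field_simp
  rw [h2, Real.mul_rpow hx0.le (by positivity)]
  have h3 : x ^ (p - 1) = x ^ p / x := by rw [Real.rpow_sub_one hx0.ne']
  have h4 : 0 < x ^ p := Real.rpow_pos_of_pos hx0 p
  have h5 : 1 + p * (h / x) ≤ 1 + h / x := by
    have := mul_le_mul_of_nonneg_right hp1 (div_nonneg hh hx0.le)
    linarith
  have h6 := mul_le_mul_of_nonneg_left (h1.trans h5) h4.le
  rw [h3]
  have h7 : x ^ p * (1 + h / x) = x ^ p + h * (x ^ p / x) := by field_simp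
  linarith

/-- the sum over `m ≤ M` -/
private theorem lo_part {α β C : ℝ} (hC : 0 < C) (hD : ∀ u : ℝ, 1 ≤ u →
    |(D u : ℝ) - α * √u - β * u ^ (1 / 3 : ℝ)| ≤ C * u ^ (3 / 20 : ℝ)) {x : ℝ} (hx : 1 ≤ x)
    {M : ℕ} (hM : (M : ℝ) ^ 6 ≤ x) :
    |∑ m ∈ Icc 1 M, (ArithmeticFunction.moebius m : ℝ) * (D (x / (m : ℝ) ^ 6) : ℝ) -
      α * √x * (∑ m ∈ Icc 1 M, (ArithmeticFunction.moebius m : ℝ) / (m : ℝ) ^ 3) -
      β * x ^ (1 / 3 : ℝ) * (∑ m ∈ Icc 1 M, (ArithmeticFunction.moebius m : ℝ) / (m : ℝ) ^ 2)| ≤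
    10 * C * x ^ (3 / 20 : ℝ) * (M : ℝ) ^ (1 / 10 : ℝ) := by
  have hx0 : 0 ≤ x := by linarith
  have e : ∑ m ∈ Icc 1 M, (ArithmeticFunction.moebius m : ℝ) * (D (x / (m : ℝ) ^ 6) : ℝ) -
      α * √x * (∑ m ∈ Icc 1 M, (ArithmeticFunction.moebius m : ℝ) / (m : ℝ) ^ 3) -
      β * x ^ (1 / 3 : ℝ) * (∑ m ∈ Icc 1 M, (ArithmeticFunction.moebius m : ℝ) / (m : ℝ) ^ 2) =
      ∑ m ∈ Icc 1 M, (ArithmeticFunction.moebius m : ℝ) * ((D (x / (m : ℝ) ^ 6) : ℝ) -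
        α * √(x / (m : ℝ) ^ 6) - β * (x / (m : ℝ) ^ 6) ^ (1 / 3 : ℝ)) := by
    rw [Finset.mul_sum, Finset.mul_sum, ← Finset.sum_sub_distrib, ← Finset.sum_sub_distrib]
    refine Finset.sum_congr rfl fun m hm => ?_
    have hm1 : 1 ≤ m := (Finset.mem_Icc.1 hm).1
    have hm0 : (0 : ℝ) < m := by exact_mod_cast (by omega : 0 < m)
    have e1 : √(x / (m : ℝ) ^ 6) = √x / (m : ℝ) ^ 3 := by
      rw [Real.sqrt_div hx0, show (m : ℝ) ^ 6 = ((m : ℝ) ^ 3) ^ 2 by ring,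
        Real.sqrt_sq (by positivity)]
    have e2 : (x / (m : ℝ) ^ 6) ^ (1 / 3 : ℝ) = x ^ (1 / 3 : ℝ) / (m : ℝ) ^ 2 := by
      rw [Real.div_rpow hx0 (by positivity), ← Real.rpow_natCast (m : ℝ) 6, ← Real.rpow_mul hm0.le,
        ← Real.rpow_natCast (m : ℝ) 2]
      norm_num
    rw [e1, e2]
    ring
  rw [e]
  refine (Finset.abs_sum_le_sum_abs _ _).trans ?_
  have h1 : ∀ m ∈ Icc 1 M, |(ArithmeticFunction.moebius m : ℝ) * ((D (x / (m : ℝ) ^ 6) : ℝ) -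
        α * √(x / (m : ℝ) ^ 6) - β * (x / (m : ℝ) ^ 6) ^ (1 / 3 : ℝ))| ≤
      C * x ^ (3 / 20 : ℝ) * (m : ℝ) ^ (-(9 / 10) : ℝ) := by
    intro m hm
    have hm1 : 1 ≤ m := (Finset.mem_Icc.1 hm).1
    have hm2 : m ≤ M := (Finset.mem_Icc.1 hm).2
    have hm0 : (0 : ℝ) < m := by exact_mod_cast (by omega : 0 < m)
    have hmx : (m : ℝ) ^ 6 ≤ x :=
      (pow_le_pow_left₀ hm0.le (by exact_mod_cast hm2) 6).trans hM
    have h2 := hD (x / (m : ℝ) ^ 6) ((one_le_div (by positivity)).2 hmx)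
    have e3 : (x / (m : ℝ) ^ 6) ^ (3 / 20 : ℝ) = x ^ (3 / 20 : ℝ) * (m : ℝ) ^ (-(9 / 10) : ℝ) := by
      rw [Real.div_rpow hx0 (by positivity), ← Real.rpow_natCast (m : ℝ) 6, ← Real.rpow_mul hm0.le,
        div_eq_mul_inv, ← Real.rpow_neg hm0.le]
      norm_num
    rw [e3] at h2
    rw [abs_mul]
    calc |(ArithmeticFunction.moebius m : ℝ)| * |(D (x / (m : ℝ) ^ 6) : ℝ) -
        α * √(x / (m : ℝ) ^ 6) - β * (x / (m : ℝ) ^ 6) ^ (1 / 3 : ℝ)| ≤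
        1 * (C * (x ^ (3 / 20 : ℝ) * (m : ℝ) ^ (-(9 / 10) : ℝ))) :=
          mul_le_mul (lo_mu m) h2 (abs_nonneg _) zero_le_one
      _ = C * x ^ (3 / 20 : ℝ) * (m : ℝ) ^ (-(9 / 10) : ℝ) := by ring
  refine (Finset.sum_le_sum h1).trans ?_
  rw [← Finset.mul_sum]
  have h3 := mul_le_mul_of_nonneg_left (lo_910 M)
    (by positivity : (0 : ℝ) ≤ C * x ^ (3 / 20 : ℝ))
  refine h3.trans (le_of_eq ?_)
  ring

/-- `Q` as a sum over `m ≤ K` -/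
private theorem lo_Q {x : ℝ} (hx : 0 ≤ x) {K : ℕ} (hK : ∀ m : ℕ, K < m → x < (m : ℝ) ^ 6) :
    (Q x : ℝ) = ∑ m ∈ Icc 1 K, (ArithmeticFunction.moebius m : ℝ) * (D (x / (m : ℝ) ^ 6) : ℝ) := by
  rw [mob x hx]
  have hz : ∀ m : ℕ, x < (m : ℝ) ^ 6 → (ArithmeticFunction.moebius m : ℝ) * (D (x / (m : ℝ) ^ 6) : ℝ) = 0 := by
    intro m hm
    have hm0 : (0 : ℝ) < (m : ℝ) ^ 6 := lt_of_le_of_lt hx hm
    rw [D_zero ((div_lt_one hm0).2 hm), Nat.cast_zero, mul_zero]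
  have hfl : ∀ m : ℕ, ⌊x⌋₊ < m → x < (m : ℝ) ^ 6 := by
    intro m hm
    have h1 : x < (m : ℝ) := Nat.lt_of_floor_lt hm
    have h2 : 1 ≤ m := by omega
    have h3 : (1 : ℝ) ≤ m := by exact_mod_cast h2
    exact h1.trans_le (le_self_pow₀ h3 (by norm_num))
  have h1 : ∑ m ∈ Icc 1 ⌊x⌋₊, (ArithmeticFunction.moebius m : ℝ) * (D (x / (m : ℝ) ^ 6) : ℝ) =
      ∑ m ∈ Icc 1 (max K ⌊x⌋₊), (ArithmeticFunction.moebius m : ℝ) * (D (x / (m : ℝ) ^ 6) : ℝ) := by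
    refine Finset.sum_subset (Finset.Icc_subset_Icc_right (le_max_right _ _)) fun m hm hm' => ?_
    refine hz m (hfl m ?_)
    rw [Finset.mem_Icc] at hm hm'
    omega
  have h2 : ∑ m ∈ Icc 1 K, (ArithmeticFunction.moebius m : ℝ) * (D (x / (m : ℝ) ^ 6) : ℝ) =
      ∑ m ∈ Icc 1 (max K ⌊x⌋₊), (ArithmeticFunction.moebius m : ℝ) * (D (x / (m : ℝ) ^ 6) : ℝ) := by
    refine Finset.sum_subset (Finset.Icc_subset_Icc_right (le_max_left _ _)) fun m hm hm' => ?_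
    refine hz m (hK m ?_)
    rw [Finset.mem_Icc] at hm hm'
    omega
  rw [h1, h2]

private theorem lo_glob {α β C : ℝ} (hC : 0 < C) (hD : ∀ u : ℝ, 1 ≤ u →
    |(D u : ℝ) - α * √u - β * u ^ (1 / 3 : ℝ)| ≤ C * u ^ (3 / 20 : ℝ)) {x : ℝ} (hx : 1 ≤ x) :
    |(Q x : ℝ) - α * (∑' m : ℕ, (ArithmeticFunction.moebius m : ℝ) / (m : ℝ) ^ 3) * √x -
      β * (∑' m : ℕ, (ArithmeticFunction.moebius m : ℝ) / (m : ℝ) ^ 2) * x ^ (1 / 3 : ℝ)| ≤
      (10 * C + 4 * |α| + 2 * |β|) * x ^ (1 / 5 : ℝ) := by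
  have hx0 : 0 < x := by linarith
  set T : ℝ := x ^ (1 / 6 : ℝ) with hT
  have hT1 : 1 ≤ T := Real.one_le_rpow hx (by norm_num)
  have hT0 : 0 < T := by linarith
  set M : ℕ := ⌊T⌋₊ with hM
  have hM1 : 1 ≤ M := by
    rw [hM]
    exact (Nat.one_le_floor_iff _).2 hT1
  have hMT : (M : ℝ) ≤ T := Nat.floor_le hT0.le
  have hMT2 : T < (M : ℝ) + 1 := Nat.lt_floor_add_one T
  have hM1' : (1 : ℝ) ≤ M := by exact_mod_cast hM1
  have hM0 : (0 : ℝ) < M := by linarith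
  have hT6 : T ^ 6 = x := by
    rw [hT, ← Real.rpow_natCast, ← Real.rpow_mul hx0.le]
    norm_num
  have hM6 : (M : ℝ) ^ 6 ≤ x := by
    rw [← hT6]
    exact pow_le_pow_left₀ hM0.le hMT 6
  have hK : ∀ m : ℕ, M < m → x < (m : ℝ) ^ 6 := by
    intro m hm
    rw [← hT6]
    have h1 : (M : ℝ) + 1 ≤ m := by exact_mod_cast hm
    exact pow_lt_pow_left₀ (by linarith) hT0.le (by norm_num)
  rw [lo_Q hx0.le hK]
  have h1 := lo_part hC hD hx hM6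
  have h3 := lo_R3 hM1
  have h2 := lo_R2 hM1
  set S3 := ∑' m : ℕ, (ArithmeticFunction.moebius m : ℝ) / (m : ℝ) ^ 3
  set S2 := ∑' m : ℕ, (ArithmeticFunction.moebius m : ℝ) / (m : ℝ) ^ 2
  set s3 := ∑ m ∈ Icc 1 M, (ArithmeticFunction.moebius m : ℝ) / (m : ℝ) ^ 3
  set s2 := ∑ m ∈ Icc 1 M, (ArithmeticFunction.moebius m : ℝ) / (m : ℝ) ^ 2
  set q := ∑ m ∈ Icc 1 M, (ArithmeticFunction.moebius m : ℝ) * (D (x / (m : ℝ) ^ 6) : ℝ)
  have e : q - α * S3 * √x - β * S2 * x ^ (1 / 3 : ℝ) =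
      (q - α * √x * s3 - β * x ^ (1 / 3 : ℝ) * s2) + (-(α * √x * (S3 - s3))) +
        (-(β * x ^ (1 / 3 : ℝ) * (S2 - s2))) := by ring
  rw [e]
  refine (abs_add_three _ _ _).trans ?_
  have c2 : |-(α * √x * (S3 - s3))| = |α| * √x * |S3 - s3| := by
    rw [abs_neg, abs_mul, abs_mul, abs_of_nonneg (Real.sqrt_nonneg x)]
  have c3 : |-(β * x ^ (1 / 3 : ℝ) * (S2 - s2))| = |β| * x ^ (1 / 3 : ℝ) * |S2 - s2| := by
    rw [abs_neg, abs_mul, abs_mul, abs_of_nonneg (by positivity : (0 : ℝ) ≤ x ^ (1 / 3 : ℝ))]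
  rw [c2, c3]
  have hsq : √x = T ^ 3 := by
    rw [Real.sqrt_eq_rpow, hT, ← Real.rpow_natCast, ← Real.rpow_mul hx0.le]
    norm_num
  have hcb : x ^ (1 / 3 : ℝ) = T ^ 2 := by
    rw [hT, ← Real.rpow_natCast, ← Real.rpow_mul hx0.le]
    norm_num
  have hT5 : T ≤ x ^ (1 / 5 : ℝ) := Real.rpow_le_rpow_of_exponent_le hx (by norm_num)
  have b1 : 10 * C * x ^ (3 / 20 : ℝ) * (M : ℝ) ^ (1 / 10 : ℝ) ≤ 10 * C * T := by
    have h4 : (M : ℝ) ^ (1 / 10 : ℝ) ≤ x ^ (1 / 60 : ℝ) := by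
      have h5 : x ^ (1 / 60 : ℝ) = T ^ (1 / 10 : ℝ) := by
        rw [hT, ← Real.rpow_mul hx0.le]
        norm_num
      rw [h5]
      exact Real.rpow_le_rpow hM0.le hMT (by norm_num)
    have h6 : x ^ (3 / 20 : ℝ) * x ^ (1 / 60 : ℝ) = T := by
      rw [← Real.rpow_add hx0, hT]
      norm_num
    calc 10 * C * x ^ (3 / 20 : ℝ) * (M : ℝ) ^ (1 / 10 : ℝ) ≤
        10 * C * x ^ (3 / 20 : ℝ) * x ^ (1 / 60 : ℝ) :=
          mul_le_mul_of_nonneg_left h4 (by positivity)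
      _ = 10 * C * T := by rw [mul_assoc, h6]
  have h2M : T ≤ 2 * M := by linarith
  have b2 : |α| * √x * |S3 - s3| ≤ 4 * |α| * T := by
    have h4 : √x * |S3 - s3| ≤ 4 * T := by
      rw [hsq]
      calc T ^ 3 * |S3 - s3| ≤ T ^ 3 * (1 / (M : ℝ) ^ 2) := mul_le_mul_of_nonneg_left h3 (by positivity)
        _ ≤ 4 * T := by
          rw [mul_one_div, div_le_iff₀ (by positivity)]
          nlinarith [mul_self_le_mul_self hT0.le h2M]
    calc |α| * √x * |S3 - s3| = |α| * (√x * |S3 - s3|) := by ring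
      _ ≤ |α| * (4 * T) := mul_le_mul_of_nonneg_left h4 (abs_nonneg _)
      _ = 4 * |α| * T := by ring
  have b3 : |β| * x ^ (1 / 3 : ℝ) * |S2 - s2| ≤ 2 * |β| * T := by
    have h4 : x ^ (1 / 3 : ℝ) * |S2 - s2| ≤ 2 * T := by
      rw [hcb]
      calc T ^ 2 * |S2 - s2| ≤ T ^ 2 * (1 / (M : ℝ)) := mul_le_mul_of_nonneg_left h2 (by positivity)
        _ ≤ 2 * T := by
          rw [mul_one_div, div_le_iff₀ (by positivity)]
          nlinarith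
    calc |β| * x ^ (1 / 3 : ℝ) * |S2 - s2| = |β| * (x ^ (1 / 3 : ℝ) * |S2 - s2|) := by ring
      _ ≤ |β| * (2 * T) := mul_le_mul_of_nonneg_left h4 (abs_nonneg _)
      _ = 2 * |β| * T := by ring
  have b4 : (10 * C + 4 * |α| + 2 * |β|) * T ≤ (10 * C + 4 * |α| + 2 * |β|) * x ^ (1 / 5 : ℝ) :=
    mul_le_mul_of_nonneg_left hT5 (by positivity)
  nlinarith [h1, b1, b2, b3, b4]

private theorem lo_loc {α β C : ℝ} (hC : 0 < C) (hD : ∀ u : ℝ, 1 ≤ u →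
    |(D u : ℝ) - α * √u - β * u ^ (1 / 3 : ℝ)| ≤ C * u ^ (3 / 20 : ℝ)) {x h η : ℝ} (hx : 1 ≤ x)
    (hh : 0 ≤ h) (hη : 0 < η) (hη1 : η < 1 / 100) (hhx : h ≤ x ^ (1 - 100 * η)) :
    |((Q (x + h) : ℝ) - α * (∑' m : ℕ, (ArithmeticFunction.moebius m : ℝ) / (m : ℝ) ^ 3) * √(x + h) -
      β * (∑' m : ℕ, (ArithmeticFunction.moebius m : ℝ) / (m : ℝ) ^ 2) * (x + h) ^ (1 / 3 : ℝ)) -
      ((Q x : ℝ) - α * (∑' m : ℕ, (ArithmeticFunction.moebius m : ℝ) / (m : ℝ) ^ 3) * √x -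
      β * (∑' m : ℕ, (ArithmeticFunction.moebius m : ℝ) / (m : ℝ) ^ 2) * x ^ (1 / 3 : ℝ))| ≤
      (30 * C + 4 * |α| + 2 * |β| + 32768) * x ^ (1 / 6 - η / 10) := by
  have hx0 : 0 < x := by linarith
  set X := x + h with hXdef
  have hX1 : 1 ≤ X := by linarith
  have hX0 : 0 < X := by linarith
  set T : ℝ := x ^ (1 / 6 - η) with hT
  have hT1 : 1 ≤ T := Real.one_le_rpow hx (by linarith)
  have hT0 : 0 < T := by linarith
  set M : ℕ := ⌊T⌋₊ with hM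
  have hM1 : 1 ≤ M := by
    rw [hM]
    exact (Nat.one_le_floor_iff _).2 hT1
  have hMT : (M : ℝ) ≤ T := Nat.floor_le hT0.le
  have hMT2 : T < (M : ℝ) + 1 := Nat.lt_floor_add_one T
  have hM1' : (1 : ℝ) ≤ M := by exact_mod_cast hM1
  have hM0 : (0 : ℝ) < M := by linarith
  have h2M : T ≤ 2 * M := by linarith
  have hT6 : T ^ 6 = x ^ (1 - 6 * η) := by
    rw [hT, ← Real.rpow_natCast, ← Real.rpow_mul hx0.le]
    congr 1
    push_cast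
    ring
  have hT6x : T ^ 6 ≤ x := by
    rw [hT6]
    calc x ^ (1 - 6 * η) ≤ x ^ (1 : ℝ) := Real.rpow_le_rpow_of_exponent_le hx (by linarith)
      _ = x := Real.rpow_one x
  have hM6 : (M : ℝ) ^ 6 ≤ x := (pow_le_pow_left₀ hM0.le hMT 6).trans hT6x
  have hhx' : h ≤ x := by
    refine hhx.trans ?_
    calc x ^ (1 - 100 * η) ≤ x ^ (1 : ℝ) := Real.rpow_le_rpow_of_exponent_le hx (by linarith)
      _ = x := Real.rpow_one x
  have hMX : (M : ℝ) ≤ X := by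
    have h1 : (M : ℝ) ≤ (M : ℝ) ^ 6 := le_self_pow₀ hM1' (by norm_num)
    linarith
  have hML : M ≤ ⌊X⌋₊ := Nat.le_floor hMX
  have hfl : ∀ m : ℕ, ⌊X⌋₊ < m → X < (m : ℝ) ^ 6 := by
    intro m hm
    have h1 : X < (m : ℝ) := Nat.lt_of_floor_lt hm
    have h2 : 1 ≤ m := by omega
    have h3 : (1 : ℝ) ≤ m := by exact_mod_cast h2
    exact h1.trans_le (le_self_pow₀ h3 (by norm_num))
  have hQX := lo_Q hX0.le hfl
  have hQx := lo_Q hx0.le fun m hm => lt_of_le_of_lt (by linarith : x ≤ X) (hfl m hm)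
  have hsub : Icc 1 M ⊆ Icc 1 ⌊X⌋₊ := Finset.Icc_subset_Icc_right hML
  rw [← Finset.sum_sdiff hsub] at hQX hQx
  have h1 := lo_part hC hD hx hM6
  have h1' := lo_part hC hD hX1 (M := M) (by linarith)
  have h3 := lo_R3 hM1
  have h2 := lo_R2 hM1
  have hcnt : |∑ m ∈ Icc 1 ⌊X⌋₊ \ Icc 1 M, (ArithmeticFunction.moebius m : ℝ) * (D (X / (m : ℝ) ^ 6) : ℝ) -
      ∑ m ∈ Icc 1 ⌊X⌋₊ \ Icc 1 M, (ArithmeticFunction.moebius m : ℝ) * (D (x / (m : ℝ) ^ 6) : ℝ)| ≤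
      (128 * x ^ (6 * η)) ^ 2 * (1 + h * x ^ (-(5 / 6) : ℝ)) := by
    rw [← Finset.sum_sub_distrib]
    refine (Finset.abs_sum_le_sum_abs _ _).trans ?_
    have hP : X / (M : ℝ) ^ 6 ≤ 128 * x ^ (6 * η) := by
      rw [div_le_iff₀ (by positivity)]
      have h4 : T ^ 6 ≤ 64 * (M : ℝ) ^ 6 := by
        calc T ^ 6 ≤ (2 * (M : ℝ)) ^ 6 := pow_le_pow_left₀ hT0.le h2M 6
          _ = 64 * (M : ℝ) ^ 6 := by ring
      have h5 : x ^ (6 * η) * T ^ 6 = x := by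
        rw [hT6, ← Real.rpow_add hx0]
        have : 6 * η + (1 - 6 * η) = 1 := by ring
        rw [this, Real.rpow_one]
      have h6 : x ^ (6 * η) * T ^ 6 ≤ x ^ (6 * η) * (64 * (M : ℝ) ^ 6) :=
        mul_le_mul_of_nonneg_left h4 (by positivity)
      rw [h5] at h6
      linarith
    refine le_trans (Finset.sum_le_sum fun m hm => ?_)
      (cnt hx hh hM1 hP (Icc 1 ⌊X⌋₊ \ Icc 1 M) fun m hm => ?_)
    · have h7 : (D (x / (m : ℝ) ^ 6) : ℝ) ≤ (D (X / (m : ℝ) ^ 6) : ℝ) := by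
        exact_mod_cast D_mono (div_le_div_of_nonneg_right (by linarith) (by positivity))
      rw [← mul_sub, abs_mul, abs_of_nonneg (sub_nonneg.2 h7)]
      calc |(ArithmeticFunction.moebius m : ℝ)| * ((D (X / (m : ℝ) ^ 6) : ℝ) - (D (x / (m : ℝ) ^ 6) : ℝ)) ≤
          1 * ((D (X / (m : ℝ) ^ 6) : ℝ) - (D (x / (m : ℝ) ^ 6) : ℝ)) :=
            mul_le_mul_of_nonneg_right (lo_mu m) (sub_nonneg.2 h7)
        _ = _ := one_mul _
    · rw [Finset.mem_sdiff, Finset.mem_Icc, Finset.mem_Icc] at hm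
      omega
  rw [hQX, hQx]
  set S3 := ∑' m : ℕ, (ArithmeticFunction.moebius m : ℝ) / (m : ℝ) ^ 3
  set S2 := ∑' m : ℕ, (ArithmeticFunction.moebius m : ℝ) / (m : ℝ) ^ 2
  set s3 := ∑ m ∈ Icc 1 M, (ArithmeticFunction.moebius m : ℝ) / (m : ℝ) ^ 3
  set s2 := ∑ m ∈ Icc 1 M, (ArithmeticFunction.moebius m : ℝ) / (m : ℝ) ^ 2
  set q := ∑ m ∈ Icc 1 M, (ArithmeticFunction.moebius m : ℝ) * (D (x / (m : ℝ) ^ 6) : ℝ)
  set qX := ∑ m ∈ Icc 1 M, (ArithmeticFunction.moebius m : ℝ) * (D (X / (m : ℝ) ^ 6) : ℝ)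
  set rX := ∑ m ∈ Icc 1 ⌊X⌋₊ \ Icc 1 M, (ArithmeticFunction.moebius m : ℝ) * (D (X / (m : ℝ) ^ 6) : ℝ)
  set r := ∑ m ∈ Icc 1 ⌊X⌋₊ \ Icc 1 M, (ArithmeticFunction.moebius m : ℝ) * (D (x / (m : ℝ) ^ 6) : ℝ)
  -- the five parts
  have i2 := lo_inc hx hh (by norm_num : (0 : ℝ) ≤ 1 / 2) (by norm_num)
  have i3 := lo_inc hx hh (by norm_num : (0 : ℝ) ≤ 1 / 3) (by norm_num)
  rw [← hXdef, ← Real.sqrt_eq_rpow, ← Real.sqrt_eq_rpow] at i2
  rw [← hXdef] at i3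
  set Y : ℝ := x ^ (1 / 6 - η / 10) with hY
  have a1 : |qX - α * √X * s3 - β * X ^ (1 / 3 : ℝ) * s2| ≤ 20 * C * Y := by
    refine h1'.trans ?_
    have h4 : X ^ (3 / 20 : ℝ) ≤ 2 * x ^ (3 / 20 : ℝ) := by
      calc X ^ (3 / 20 : ℝ) ≤ (2 * x) ^ (3 / 20 : ℝ) :=
            Real.rpow_le_rpow hX0.le (by linarith) (by norm_num)
        _ = 2 ^ (3 / 20 : ℝ) * x ^ (3 / 20 : ℝ) := Real.mul_rpow (by norm_num) hx0.le
        _ ≤ 2 * x ^ (3 / 20 : ℝ) := by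
          apply mul_le_mul_of_nonneg_right _ (by positivity)
          calc (2 : ℝ) ^ (3 / 20 : ℝ) ≤ 2 ^ (1 : ℝ) :=
                Real.rpow_le_rpow_of_exponent_le (by norm_num) (by norm_num)
            _ = 2 := Real.rpow_one 2
    have h5 : (M : ℝ) ^ (1 / 10 : ℝ) ≤ x ^ (1 / 60 - η / 10) := by
      have h6 : x ^ (1 / 60 - η / 10) = T ^ (1 / 10 : ℝ) := by
        rw [hT, ← Real.rpow_mul hx0.le]
        congr 1
        ring
      rw [h6]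
      exact Real.rpow_le_rpow hM0.le hMT (by norm_num)
    have h7 : x ^ (3 / 20 : ℝ) * x ^ (1 / 60 - η / 10) = Y := by
      rw [← Real.rpow_add hx0, hY]
      congr 1
      ring
    calc 10 * C * X ^ (3 / 20 : ℝ) * (M : ℝ) ^ (1 / 10 : ℝ) ≤
        10 * C * (2 * x ^ (3 / 20 : ℝ)) * x ^ (1 / 60 - η / 10) := by
          apply mul_le_mul _ h5 (by positivity) (by positivity)
          exact mul_le_mul_of_nonneg_left h4 (by positivity)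
      _ = 20 * C * (x ^ (3 / 20 : ℝ) * x ^ (1 / 60 - η / 10)) := by ring
      _ = 20 * C * Y := by rw [h7]
  have a2 : |q - α * √x * s3 - β * x ^ (1 / 3 : ℝ) * s2| ≤ 10 * C * Y := by
    refine h1.trans ?_
    have h5 : (M : ℝ) ^ (1 / 10 : ℝ) ≤ x ^ (1 / 60 - η / 10) := by
      have h6 : x ^ (1 / 60 - η / 10) = T ^ (1 / 10 : ℝ) := by
        rw [hT, ← Real.rpow_mul hx0.le]
        congr 1
        ring
      rw [h6]
      exact Real.rpow_le_rpow hM0.le hMT (by norm_num)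
    have h7 : x ^ (3 / 20 : ℝ) * x ^ (1 / 60 - η / 10) = Y := by
      rw [← Real.rpow_add hx0, hY]
      congr 1
      ring
    calc 10 * C * x ^ (3 / 20 : ℝ) * (M : ℝ) ^ (1 / 10 : ℝ) ≤
        10 * C * x ^ (3 / 20 : ℝ) * x ^ (1 / 60 - η / 10) :=
          mul_le_mul_of_nonneg_left h5 (by positivity)
      _ = 10 * C * (x ^ (3 / 20 : ℝ) * x ^ (1 / 60 - η / 10)) := by ring
      _ = 10 * C * Y := by rw [h7]
  have a3 : |rX - r| ≤ 32768 * Y := by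
    refine hcnt.trans ?_
    have h4 : (128 * x ^ (6 * η)) ^ 2 = 16384 * x ^ (12 * η) := by
      have h5 : (x ^ (6 * η)) ^ 2 = x ^ (12 * η) := by
        rw [← Real.rpow_natCast, ← Real.rpow_mul hx0.le]
        congr 1
        push_cast
        ring
      rw [mul_pow, h5]
      norm_num
    have h5 : h * x ^ (-(5 / 6) : ℝ) ≤ x ^ (1 / 6 - 100 * η) := by
      calc h * x ^ (-(5 / 6) : ℝ) ≤ x ^ (1 - 100 * η) * x ^ (-(5 / 6) : ℝ) :=
            mul_le_mul_of_nonneg_right hhx (by positivity)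
        _ = x ^ (1 / 6 - 100 * η) := by
          rw [← Real.rpow_add hx0]
          congr 1
          ring
    have h6 : x ^ (12 * η) ≤ Y := Real.rpow_le_rpow_of_exponent_le hx (by linarith)
    have h7 : x ^ (12 * η) * x ^ (1 / 6 - 100 * η) ≤ Y := by
      rw [← Real.rpow_add hx0]
      exact Real.rpow_le_rpow_of_exponent_le hx (by linarith)
    rw [h4]
    have h8 : x ^ (12 * η) * (h * x ^ (-(5 / 6) : ℝ)) ≤ x ^ (12 * η) * x ^ (1 / 6 - 100 * η) :=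
      mul_le_mul_of_nonneg_left h5 (by positivity)
    have h9 : 16384 * x ^ (12 * η) * (1 + h * x ^ (-(5 / 6) : ℝ)) =
        16384 * (x ^ (12 * η) + x ^ (12 * η) * (h * x ^ (-(5 / 6) : ℝ))) := by ring
    rw [h9]
    linarith
  have a4 : |α * (√X - √x) * (S3 - s3)| ≤ 4 * |α| * Y := by
    rw [abs_mul, abs_mul, abs_of_nonneg i2.1]
    have h4 : (√X - √x) * |S3 - s3| ≤ 4 * Y := by
      have h5 : √X - √x ≤ x ^ (1 - 100 * η) * x ^ ((1 : ℝ) / 2 - 1) :=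
        i2.2.trans (mul_le_mul_of_nonneg_right hhx (by positivity))
      have h6 : |S3 - s3| ≤ 4 / T ^ 2 := by
        refine h3.trans ?_
        rw [div_le_div_iff₀ (by positivity) (by positivity)]
        nlinarith [mul_self_le_mul_self hT0.le h2M]
      have h7 : x ^ (1 - 100 * η) * x ^ ((1 : ℝ) / 2 - 1) * (4 / T ^ 2) ≤ 4 * Y := by
        have h8 : x ^ (1 - 100 * η) * x ^ ((1 : ℝ) / 2 - 1) ≤ Y * T ^ 2 := by
          have h9 : T ^ 2 = x ^ (1 / 3 - 2 * η) := by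
            rw [hT, ← Real.rpow_natCast, ← Real.rpow_mul hx0.le]
            congr 1
            push_cast
            ring
          rw [h9, ← Real.rpow_add hx0, hY, ← Real.rpow_add hx0]
          exact Real.rpow_le_rpow_of_exponent_le hx (by linarith)
        rw [mul_div_assoc', div_le_iff₀ (by positivity)]
        linarith
      calc (√X - √x) * |S3 - s3| ≤ (x ^ (1 - 100 * η) * x ^ ((1 : ℝ) / 2 - 1)) * (4 / T ^ 2) :=
            mul_le_mul h5 h6 (abs_nonneg _) (by positivity)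
        _ ≤ 4 * Y := h7
    calc |α| * (√X - √x) * |S3 - s3| = |α| * ((√X - √x) * |S3 - s3|) := by ring
      _ ≤ |α| * (4 * Y) := mul_le_mul_of_nonneg_left h4 (abs_nonneg _)
      _ = 4 * |α| * Y := by ring
  have a5 : |β * (X ^ (1 / 3 : ℝ) - x ^ (1 / 3 : ℝ)) * (S2 - s2)| ≤ 2 * |β| * Y := by
    rw [abs_mul, abs_mul, abs_of_nonneg i3.1]
    have h4 : (X ^ (1 / 3 : ℝ) - x ^ (1 / 3 : ℝ)) * |S2 - s2| ≤ 2 * Y := by
      have h5 : X ^ (1 / 3 : ℝ) - x ^ (1 / 3 : ℝ) ≤ x ^ (1 - 100 * η) * x ^ ((1 : ℝ) / 3 - 1) :=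
        i3.2.trans (mul_le_mul_of_nonneg_right hhx (by positivity))
      have h6 : |S2 - s2| ≤ 2 / T := by
        refine h2.trans ?_
        rw [div_le_div_iff₀ (by positivity) (by positivity)]
        linarith
      have h7 : x ^ (1 - 100 * η) * x ^ ((1 : ℝ) / 3 - 1) * (2 / T) ≤ 2 * Y := by
        have h8 : x ^ (1 - 100 * η) * x ^ ((1 : ℝ) / 3 - 1) ≤ Y * T := by
          rw [hT, ← Real.rpow_add hx0, hY, ← Real.rpow_add hx0]
          exact Real.rpow_le_rpow_of_exponent_le hx (by linarith)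
        rw [mul_div_assoc', div_le_iff₀ (by positivity)]
        linarith
      calc (X ^ (1 / 3 : ℝ) - x ^ (1 / 3 : ℝ)) * |S2 - s2| ≤
          (x ^ (1 - 100 * η) * x ^ ((1 : ℝ) / 3 - 1)) * (2 / T) :=
            mul_le_mul h5 h6 (abs_nonneg _) (by positivity)
        _ ≤ 2 * Y := h7
    calc |β| * (X ^ (1 / 3 : ℝ) - x ^ (1 / 3 : ℝ)) * |S2 - s2| =
        |β| * ((X ^ (1 / 3 : ℝ) - x ^ (1 / 3 : ℝ)) * |S2 - s2|) := by ring
      _ ≤ |β| * (2 * Y) := mul_le_mul_of_nonneg_left h4 (abs_nonneg _)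
      _ = 2 * |β| * Y := by ring
  have e : rX + qX - α * S3 * √X - β * S2 * X ^ (1 / 3 : ℝ) -
      (r + q - α * S3 * √x - β * S2 * x ^ (1 / 3 : ℝ)) =
      (qX - α * √X * s3 - β * X ^ (1 / 3 : ℝ) * s2) - (q - α * √x * s3 - β * x ^ (1 / 3 : ℝ) * s2) +
      (rX - r) - α * (√X - √x) * (S3 - s3) - β * (X ^ (1 / 3 : ℝ) - x ^ (1 / 3 : ℝ)) * (S2 - s2) := by
    ring
  rw [e]
  rw [abs_le] at a1 a2 a3 a4 a5 ⊢
  constructor
  · linarith [a1.1, a2.2, a3.1, a4.2, a5.2]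
  · linarith [a1.2, a2.1, a3.2, a4.1, a5.1]

theorem loca : ∃ A' B' : ℝ,
    (∃ C : ℝ, 0 < C ∧ ∀ x : ℝ, 1 ≤ x →
      |(Q x : ℝ) - A' * √x - B' * x ^ (1 / 3 : ℝ)| ≤ C * x ^ (1 / 5 : ℝ)) ∧
    ∀ ε : ℝ, 0 < ε → ε < 1 → ∃ δ C : ℝ, 0 < δ ∧ δ < 1 / 6 ∧ 0 < C ∧ ∀ x h : ℝ, 1 ≤ x → 0 ≤ h →
      h ≤ x ^ (1 - ε) →
      |((Q (x + h) : ℝ) - A' * √(x + h) - B' * (x + h) ^ (1 / 3 : ℝ)) -
        ((Q x : ℝ) - A' * √x - B' * x ^ (1 / 3 : ℝ))| ≤ C * x ^ (1 / 6 - δ) := by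
  obtain ⟨α, β, C, hC, hD⟩ := dtwo
  refine ⟨α * (∑' m : ℕ, (ArithmeticFunction.moebius m : ℝ) / (m : ℝ) ^ 3),
    β * (∑' m : ℕ, (ArithmeticFunction.moebius m : ℝ) / (m : ℝ) ^ 2),
    ⟨10 * C + 4 * |α| + 2 * |β|, by positivity, fun x hx => lo_glob hC hD hx⟩, fun ε hε hε1 => ?_⟩
  refine ⟨ε / 100 / 10, 30 * C + 4 * |α| + 2 * |β| + 32768, by positivity, by linarith,
    by positivity, fun x h hx hh hhx => ?_⟩
  refine lo_loc hC hD hx hh (by positivity) (by linarith) ?_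
  have e : 1 - 100 * (ε / 100) = 1 - ε := by ring
  rw [e]
  exact hhx

end Pool.PWE
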