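import Pool.Agent.PWE.Defs

/-!
# PWE MOB: Q(x) = sum_m mu(m) D(x / m^6)
-/

set_option autoImplicit false

open Complex Finset Filter Topology MeasureTheory

namespace Pool.PWE

private lemma sqdvd {d b s : ℕ} (hb : 0 < b) (hs : Squarefree s) (h : d ^ 2 ∣ b ^ 2 * s) : d ∣ b := by
  obtain ⟨g, d', b', hg, hco, hd, hb'⟩ := Nat.exists_coprime' (m := d) (n := b)
    (Nat.gcd_pos_of_pos_right d hb)
  rw [hd, hb', mul_pow, mul_pow] at h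
  have h1 : d' ^ 2 * g ^ 2 ∣ b' ^ 2 * s * g ^ 2 := by
    refine h.trans (dvd_of_eq ?_)
    ring
  have h2 : d' ^ 2 ∣ b' ^ 2 * s := Nat.dvd_of_mul_dvd_mul_right (pow_pos hg 2) h1
  have h3 : d' ^ 2 ∣ s := by
    have hc : Nat.Coprime (d' ^ 2) (b' ^ 2) := Nat.Coprime.pow 2 2 hco
    exact hc.dvd_of_dvd_mul_left h2
  have h4 : IsUnit d' := hs d' (by rw [← sq]; exact h3)
  rw [hd, hb', Nat.isUnit_iff.1 h4, one_mul]
  exact dvd_mul_left _ _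

private lemma mu_sum (N c : ℕ) (hc : c ∈ Icc 1 N) :
    ∑ m ∈ (Icc 1 N).filter (fun m => m ^ 2 ∣ c), ArithmeticFunction.moebius m =
      if Squarefree c then 1 else 0 := by
  rw [mem_Icc] at hc
  obtain ⟨s, b, hs0, hb0, hbs, hs⟩ := Nat.sq_mul_squarefree_of_pos hc.1
  have hset : (Icc 1 N).filter (fun m => m ^ 2 ∣ c) = b.divisors := by
    ext m
    rw [mem_filter, mem_Icc, Nat.mem_divisors]
    constructor
    · rintro ⟨-, h⟩
      rw [← hbs] at h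
      exact ⟨sqdvd hb0 hs h, hb0.ne'⟩
    · rintro ⟨h, -⟩
      refine ⟨⟨Nat.pos_of_dvd_of_pos h hb0, ?_⟩, ?_⟩
      · calc m ≤ b := Nat.le_of_dvd hb0 h
          _ ≤ b ^ 2 * s := by nlinarith [hs0, hb0, Nat.le_self_pow (two_ne_zero) b,
              Nat.le_mul_of_pos_right (b ^ 2) hs0]
          _ = c := hbs
          _ ≤ N := hc.2
      · rw [← hbs]
        exact (pow_dvd_pow_of_dvd h 2).trans (dvd_mul_right _ _)
  rw [hset]
  have h1 : ∑ m ∈ b.divisors, ArithmeticFunction.moebius m = if b = 1 then 1 else 0 := by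
    rw [← ArithmeticFunction.coe_mul_zeta_apply, ArithmeticFunction.moebius_mul_coe_zeta,
      ArithmeticFunction.one_apply]
  rw [h1]
  have h2 : b = 1 ↔ Squarefree c := by
    constructor
    · rintro rfl
      rw [← hbs, one_pow, one_mul]
      exact hs
    · intro h
      have := h b (by rw [← hbs, sq]; exact dvd_mul_right _ _)
      exact Nat.isUnit_iff.1 this
  simp only [h2]

private lemma powerful_iff {n : ℕ} (hn : 0 < n) :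
    Powerful n ↔ ∃ a c : ℕ, 0 < a ∧ 0 < c ∧ Squarefree c ∧ a ^ 2 * c ^ 3 = n := by
  constructor
  · intro h
    obtain ⟨s, b, hs0, hb0, hbs, hs⟩ := Nat.sq_mul_squarefree_of_pos hn
    have hsb : s ∣ b := by
      rw [← Nat.prod_primeFactors_of_squarefree hs]
      refine (Finset.prod_dvd_prod_of_subset _ _ _ ?_).trans (Nat.prod_primeFactors_dvd b)
      intro p hp
      have hpp := Nat.prime_of_mem_primeFactors hp
      have hps := Nat.dvd_of_mem_primeFactors hp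
      rw [Nat.mem_primeFactors]
      refine ⟨hpp, ?_, hb0.ne'⟩
      have h1 : p ^ 2 ∣ b ^ 2 * s := by
        rw [hbs]
        exact h p hpp (by rw [← hbs]; exact dvd_mul_of_dvd_right hps _)
      exact sqdvd hb0 hs h1
    obtain ⟨a, rfl⟩ := hsb
    refine ⟨a, s, Nat.pos_of_mul_pos_left hb0, hs0, hs, ?_⟩
    rw [← hbs]
    ring
  · rintro ⟨a, c, ha, hc, hs, rfl⟩ p hp hd
    rcases (Nat.Prime.dvd_mul hp).1 hd with h | h
    · have h1 := hp.dvd_of_dvd_pow h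
      exact dvd_mul_of_dvd_left (pow_dvd_pow_of_dvd h1 2) _
    · have h1 := hp.dvd_of_dvd_pow h
      refine dvd_mul_of_dvd_right ?_ _
      exact (pow_dvd_pow p (by norm_num)).trans (pow_dvd_pow_of_dvd h1 3)

private lemma inj_aux {a c a' c' : ℕ} (ha : 0 < a) (hc : 0 < c) (ha' : 0 < a') (hc' : 0 < c')
    (hs : Squarefree c) (hs' : Squarefree c') (h : a ^ 2 * c ^ 3 = a' ^ 2 * c' ^ 3) :
    a = a' ∧ c = c' := by
  have h1 : (a * c) ^ 2 * c = (a' * c') ^ 2 * c' := by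
    calc (a * c) ^ 2 * c = a ^ 2 * c ^ 3 := by ring
      _ = a' ^ 2 * c' ^ 3 := h
      _ = _ := by ring
  have h2 : a * c ∣ a' * c' := sqdvd (Nat.mul_pos ha' hc') hs' (h1 ▸ dvd_mul_right _ _)
  have h3 : a' * c' ∣ a * c := sqdvd (Nat.mul_pos ha hc) hs (h1.symm ▸ dvd_mul_right _ _)
  have h4 : a * c = a' * c' := Nat.dvd_antisymm h2 h3
  rw [h4] at h1
  have h5 : c = c' := Nat.eq_of_mul_eq_mul_left (pow_pos (Nat.mul_pos ha' hc') 2) h1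
  subst h5
  exact ⟨Nat.eq_of_mul_eq_mul_right hc h4, rfl⟩

private lemma Q_eq (x : ℝ) : (Q x : ℤ) =
    ∑ a ∈ Icc 1 ⌊x⌋₊, ∑ c ∈ Icc 1 ⌊x⌋₊, if a ^ 2 * c ^ 3 ≤ ⌊x⌋₊ then
      (if Squarefree c then (1 : ℤ) else 0) else 0 := by
  classical
  set N := ⌊x⌋₊ with hN
  have h1 : Q x = (((Icc 1 N ×ˢ Icc 1 N).filter
      (fun t : ℕ × ℕ => t.1 ^ 2 * t.2 ^ 3 ≤ N ∧ Squarefree t.2)).image
      (fun t : ℕ × ℕ => t.1 ^ 2 * t.2 ^ 3)).card := by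
    unfold Q
    congr 1
    ext n
    rw [mem_filter, mem_image, mem_Icc]
    constructor
    · rintro ⟨⟨h1, h2⟩, h3⟩
      obtain ⟨a, c, ha, hc, hs, h4⟩ := (powerful_iff h1).1 h3
      refine ⟨(a, c), ?_, h4⟩
      rw [mem_filter, mem_product, mem_Icc, mem_Icc]
      have hcp : 0 < c ^ 3 := pow_pos hc 3
      have hap : 0 < a ^ 2 := pow_pos ha 2
      have h5 : a ≤ a ^ 2 := Nat.le_self_pow (two_ne_zero) a
      have h6 : c ≤ c ^ 3 := Nat.le_self_pow (three_ne_zero) c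
      refine ⟨⟨⟨ha, ?_⟩, ⟨hc, ?_⟩⟩, ?_, hs⟩
      · calc a ≤ a ^ 2 := h5
          _ ≤ a ^ 2 * c ^ 3 := Nat.le_mul_of_pos_right _ hcp
          _ ≤ N := by rw [h4]; exact h2
      · calc c ≤ c ^ 3 := h6
          _ ≤ a ^ 2 * c ^ 3 := Nat.le_mul_of_pos_left _ hap
          _ ≤ N := by rw [h4]; exact h2
      · change a ^ 2 * c ^ 3 ≤ N
        rw [h4]
        exact h2
    · rintro ⟨⟨a, c⟩, ht, rfl⟩
      rw [mem_filter, mem_product, mem_Icc, mem_Icc] at ht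
      obtain ⟨⟨⟨ha, -⟩, ⟨hc, -⟩⟩, hle, hs⟩ := ht
      have hpos : 0 < a ^ 2 * c ^ 3 := Nat.mul_pos (pow_pos ha 2) (pow_pos hc 3)
      exact ⟨⟨hpos, hle⟩, (powerful_iff hpos).2 ⟨a, c, ha, hc, hs, rfl⟩⟩
  rw [h1, card_image_of_injOn, card_filter]
  · push_cast
    rw [sum_product]
    refine sum_congr rfl fun a _ => sum_congr rfl fun c _ => ?_
    simp only
    by_cases h2 : a ^ 2 * c ^ 3 ≤ N
    · by_cases h3 : Squarefree c <;> simp [h2, h3]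
    · simp [h2]
  · rintro ⟨a, c⟩ ht ⟨a', c'⟩ ht' h2
    rw [mem_coe, mem_filter, mem_product, mem_Icc, mem_Icc] at ht ht'
    obtain ⟨h3, h4⟩ := inj_aux ht.1.1.1 ht.1.2.1 ht'.1.1.1 ht'.1.2.1 ht.2.2 ht'.2.2 h2
    exact Prod.ext h3 h4

private lemma D_eq (x : ℝ) (m : ℕ) (hm : 1 ≤ m) : (D (x / (m : ℝ) ^ 6) : ℤ) =
    ∑ a ∈ Icc 1 ⌊x⌋₊, ∑ b ∈ Icc 1 ⌊x⌋₊, if a ^ 2 * (m ^ 2 * b) ^ 3 ≤ ⌊x⌋₊ then (1 : ℤ) else 0 := by
  classical
  set N := ⌊x⌋₊ with hN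
  have hfl : ⌊x / (m : ℝ) ^ 6⌋₊ = N / m ^ 6 := by
    have := Nat.floor_div_natCast x (m ^ 6)
    rw [Nat.cast_pow] at this
    exact this
  have hm6 : 0 < m ^ 6 := pow_pos hm 6
  have h1 : D (x / (m : ℝ) ^ 6) = ((Icc 1 N ×ˢ Icc 1 N).filter
      (fun t : ℕ × ℕ => t.1 ^ 2 * (m ^ 2 * t.2) ^ 3 ≤ N)).card := by
    unfold D
    rw [hfl]
    congr 1
    ext ⟨a, b⟩
    rw [mem_filter, mem_filter, mem_product, mem_product, mem_Icc, mem_Icc, mem_Icc, mem_Icc]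
    have key : a ^ 2 * b ^ 3 ≤ N / m ^ 6 ↔ a ^ 2 * (m ^ 2 * b) ^ 3 ≤ N := by
      rw [Nat.le_div_iff_mul_le hm6]
      have : a ^ 2 * b ^ 3 * m ^ 6 = a ^ 2 * (m ^ 2 * b) ^ 3 := by ring
      rw [this]
    have hdN : N / m ^ 6 ≤ N := Nat.div_le_self _ _
    constructor
    · rintro ⟨⟨⟨h1, h2⟩, ⟨h3, h4⟩⟩, h5⟩
      exact ⟨⟨⟨h1, h2.trans hdN⟩, ⟨h3, h4.trans hdN⟩⟩, key.1 h5⟩
    · rintro ⟨⟨⟨h1, h2⟩, ⟨h3, h4⟩⟩, h5⟩
      have h6 := key.2 h5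
      have hbp : 0 < b ^ 3 := pow_pos h3 3
      have hap : 0 < a ^ 2 := pow_pos h1 2
      refine ⟨⟨⟨h1, ?_⟩, ⟨h3, ?_⟩⟩, h6⟩
      · calc a ≤ a ^ 2 := Nat.le_self_pow (two_ne_zero) a
          _ ≤ a ^ 2 * b ^ 3 := Nat.le_mul_of_pos_right _ hbp
          _ ≤ _ := h6
      · calc b ≤ b ^ 3 := Nat.le_self_pow (three_ne_zero) b
          _ ≤ a ^ 2 * b ^ 3 := Nat.le_mul_of_pos_left _ hap
          _ ≤ _ := h6
  rw [h1, card_filter]
  push_cast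
  rw [sum_product]

private lemma re_index (N m : ℕ) (hm : 1 ≤ m) (a : ℕ) (ha : 1 ≤ a) :
    (∑ b ∈ Icc 1 N, if a ^ 2 * (m ^ 2 * b) ^ 3 ≤ N then (1 : ℤ) else 0) =
      ∑ c ∈ Icc 1 N, if m ^ 2 ∣ c then (if a ^ 2 * c ^ 3 ≤ N then (1 : ℤ) else 0) else 0 := by
  classical
  rw [← sum_filter, ← sum_filter]
  have hm2 : 0 < m ^ 2 := pow_pos hm 2
  rw [← sum_filter]
  refine sum_bij (fun b _ => m ^ 2 * b) ?_ ?_ ?_ ?_
  · intro b hb
    rw [mem_filter, mem_Icc] at hb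
    rw [mem_filter, mem_filter, mem_Icc]
    have hpos : 0 < m ^ 2 * b := Nat.mul_pos hm2 hb.1.1
    refine ⟨⟨⟨hpos, ?_⟩, dvd_mul_right _ _⟩, hb.2⟩
    calc m ^ 2 * b ≤ (m ^ 2 * b) ^ 3 := Nat.le_self_pow (three_ne_zero) _
      _ ≤ a ^ 2 * (m ^ 2 * b) ^ 3 := Nat.le_mul_of_pos_left _ (pow_pos ha 2)
      _ ≤ N := hb.2
  · intro b _ b' _ h
    exact Nat.eq_of_mul_eq_mul_left hm2 h
  · intro c hc
    rw [mem_filter, mem_filter, mem_Icc] at hc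
    obtain ⟨⟨⟨h1, h2⟩, ⟨b, rfl⟩⟩, h3⟩ := hc
    refine ⟨b, ?_, rfl⟩
    rw [mem_filter, mem_Icc]
    have hb : 0 < b := Nat.pos_of_mul_pos_left h1
    exact ⟨⟨hb, (Nat.le_mul_of_pos_left b hm2).trans h2⟩, h3⟩
  · intro b _
    rfl

theorem mob (x : ℝ) (hx : 0 ≤ x) : (Q x : ℝ) =
    ∑ m ∈ Icc 1 ⌊x⌋₊, (ArithmeticFunction.moebius m : ℝ) * (D (x / (m : ℝ) ^ 6) : ℝ) := by
  classical
  have main : (Q x : ℤ) =
      ∑ m ∈ Icc 1 ⌊x⌋₊, ArithmeticFunction.moebius m * (D (x / (m : ℝ) ^ 6) : ℤ) := by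
    rw [Q_eq]
    set N := ⌊x⌋₊ with hN
    have h1 : ∀ m ∈ Icc 1 N, ArithmeticFunction.moebius m * (D (x / (m : ℝ) ^ 6) : ℤ) =
        ∑ a ∈ Icc 1 N, ∑ c ∈ Icc 1 N, if m ^ 2 ∣ c then
          (if a ^ 2 * c ^ 3 ≤ N then ArithmeticFunction.moebius m else 0) else 0 := by
      intro m hm
      rw [mem_Icc] at hm
      rw [D_eq x m hm.1, mul_sum]
      refine sum_congr rfl fun a ha => ?_
      rw [mem_Icc] at ha
      rw [re_index N m hm.1 a ha.1, mul_sum]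
      refine sum_congr rfl fun c _ => ?_
      split_ifs <;> simp
    have h3 : ∀ F : ℕ → ℕ → ℕ → ℤ, (∑ m ∈ Icc 1 N, ∑ a ∈ Icc 1 N, ∑ c ∈ Icc 1 N, F m a c) =
        ∑ a ∈ Icc 1 N, ∑ c ∈ Icc 1 N, ∑ m ∈ Icc 1 N, F m a c := by
      intro F
      rw [sum_comm]
      exact sum_congr rfl fun a _ => sum_comm
    rw [sum_congr rfl h1, h3]
    refine sum_congr rfl fun a _ => sum_congr rfl fun c hc => ?_
    rw [← mu_sum N c hc, ← sum_filter]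
    split_ifs
    · rfl
    · rw [sum_const_zero]
  have h2 := congrArg (fun z : ℤ => (z : ℝ)) main
  push_cast at h2
  exact h2

end Pool.PWE
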