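import Pool.Agent.PWE.Defs
import Pool.Agent.WYL.Sdt

/-!
# PWE PSI: van der Corput's bound for sums of the sawtooth function

For K >= 1 (integer) and every real x, as saw has slope 1 and jumps -1:
saw x <= K int_0^(1/K) saw (x - t) dt + 1/(2K) and saw x >= K int_0^(1/K) saw (x + t) dt - 1/(2K).
With b2 x = {x}^2 - {x} + 1/6 = (1/π^2) sum_{h >= 1} cos(2π h x)/h^2 (Mathlib
hasSum_one_div_nat_pow_mul_cos with k = 1, periodicity) the averages are
(K/2)(b2 x - b2 (x - 1/K)) and (K/2)(b2 (x + 1/K) - b2 x) (elementary: check by cases of the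
fractional parts, no integral needed: for instance
saw x <= (K/2)(b2 x - b2 (x-1/K)) + 1/(2K)). So with S_h = |sum_n e(h f(n))|
|sum_n saw (f n)| <= (b-a)/(2K) + (K/(2π^2)) sum_{h>=1} min(2, 2π h/K) S_h / h^2.
WYL.sdt applied to h f (second differences in [h lam, A h lam]):
S_h <= C A ((b-a) sqrt(h lam) + 1/sqrt(h lam)). sum_{h <= K} h^(-1/2) <= 2 sqrt K,
sum_{h > K} K h^(-3/2) <= 2 sqrt K and so on: total
<< A ((b-a)/K + (b-a) sqrt(K lam) + lam^(-1/2)); take K = ⌈lam^(-1/3)⌉.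
-/

set_option autoImplicit false

open Complex Finset Filter Topology MeasureTheory

namespace Pool.PWE

/-- the periodic second Bernoulli function -/
private noncomputable def b2 (x : ℝ) : ℝ := Int.fract x ^ 2 - Int.fract x + 1 / 6

private theorem b2_hasSum (x : ℝ) :
    HasSum (fun n : ℕ => 1 / (n : ℝ) ^ 2 * Real.cos (2 * Real.pi * n * x))
      (Real.pi ^ 2 * b2 x) := by
  have h := hasSum_one_div_nat_pow_mul_cos (k := 1) one_ne_zero (x := Int.fract x)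
    ⟨Int.fract_nonneg x, (Int.fract_lt_one x).le⟩
  have e1 : ∀ n : ℕ, Real.cos (2 * Real.pi * n * Int.fract x) =
      Real.cos (2 * Real.pi * n * x) := by
    intro n
    have h1 : 2 * Real.pi * n * x = 2 * Real.pi * n * Int.fract x +
        (((n : ℤ) * ⌊x⌋ : ℤ) : ℝ) * (2 * Real.pi) := by
      have h2 : Int.fract x = x - ⌊x⌋ := rfl
      rw [h2]
      push_cast
      ring
    rw [h1, Real.cos_add_int_mul_two_pi]
  simp only [e1, mul_one] at h
  convert h using 1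
  have h3 : (Polynomial.map (algebraMap ℚ ℝ) (Polynomial.bernoulli 2)).eval (Int.fract x) =
      b2 x := by
    unfold b2
    simp only [Polynomial.bernoulli, Finset.sum_range_succ, Finset.sum_range_zero]
    simp [bernoulli_one, bernoulli_two]
    ring
  rw [h3]
  have h4 : ((Nat.factorial 2 : ℕ) : ℝ) = 2 := by norm_num [Nat.factorial]
  rw [h4]
  ring

private theorem saw_upper {δ : ℝ} (h0 : 0 < δ) (h1 : δ ≤ 1) (x : ℝ) :
    saw x ≤ 1 / (2 * δ) * (b2 x - b2 (x - δ)) + δ / 2 := by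
  unfold saw b2
  have hs0 := Int.fract_nonneg x
  have hs1 := Int.fract_lt_one x
  set s := Int.fract x with hs
  have hx : x = ⌊x⌋ + s := (Int.floor_add_fract x).symm
  rcases le_or_gt δ s with h | h
  · have e : Int.fract (x - δ) = s - δ := by
      rw [Int.fract_eq_iff]
      refine ⟨by linarith, by linarith, ⌊x⌋, by linarith⟩
    rw [e]
    have : 1 / (2 * δ) * (s ^ 2 - s + 1 / 6 - ((s - δ) ^ 2 - (s - δ) + 1 / 6)) + δ / 2 =
        s - 1 / 2 := by
      field_simp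
      ring
    rw [this]
  · have e : Int.fract (x - δ) = s - δ + 1 := by
      rw [Int.fract_eq_iff]
      refine ⟨by linarith, by linarith, ⌊x⌋ - 1, by push_cast; linarith⟩
    rw [e]
    have h2 : 1 / (2 * δ) * (s ^ 2 - s + 1 / 6 - ((s - δ + 1) ^ 2 - (s - δ + 1) + 1 / 6)) + δ / 2 =
        s + 1 / 2 - s / δ := by
      field_simp
      ring
    rw [h2]
    have h3 : s / δ ≤ 1 := by
      rw [div_le_one h0]
      exact h.le
    linarith

private theorem saw_lower {δ : ℝ} (h0 : 0 < δ) (h1 : δ ≤ 1) (x : ℝ) :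
    1 / (2 * δ) * (b2 (x + δ) - b2 x) - δ / 2 ≤ saw x := by
  unfold saw b2
  have hs0 := Int.fract_nonneg x
  have hs1 := Int.fract_lt_one x
  set s := Int.fract x with hs
  have hx : x = ⌊x⌋ + s := (Int.floor_add_fract x).symm
  rcases lt_or_ge (s + δ) 1 with h | h
  · have e : Int.fract (x + δ) = s + δ := by
      rw [Int.fract_eq_iff]
      refine ⟨by linarith, by linarith, ⌊x⌋, by linarith⟩
    rw [e]
    have : 1 / (2 * δ) * ((s + δ) ^ 2 - (s + δ) + 1 / 6 - (s ^ 2 - s + 1 / 6)) - δ / 2 =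
        s - 1 / 2 := by
      field_simp
      ring
    rw [this]
  · have e : Int.fract (x + δ) = s + δ - 1 := by
      rw [Int.fract_eq_iff]
      refine ⟨by linarith, by linarith, ⌊x⌋ + 1, by push_cast; linarith⟩
    rw [e]
    have h2 : 1 / (2 * δ) * ((s + δ - 1) ^ 2 - (s + δ - 1) + 1 / 6 - (s ^ 2 - s + 1 / 6)) - δ / 2 =
        s - 3 / 2 + (1 - s) / δ := by
      field_simp
      ring
    rw [h2]
    have h3 : (1 - s) / δ ≤ 1 := by
      rw [div_le_one h0]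
      linarith
    linarith

/-- one frequency -/
private theorem freq (f : ℕ → ℝ) (s : Finset ℕ) (h : ℕ) (θ θ' δ : ℝ) (hδ : |θ - θ'| ≤ δ) :
    |∑ n ∈ s, (Real.cos (2 * Real.pi * h * (f n + θ)) - Real.cos (2 * Real.pi * h * (f n + θ')))| ≤
      (2 * Real.pi * min 1 (h * δ)) *
        ‖∑ n ∈ s, Complex.exp (((2 * Real.pi * (h * f n) : ℝ) : ℂ) * Complex.I)‖ := by
  have e : ∑ n ∈ s, (Real.cos (2 * Real.pi * h * (f n + θ)) -
      Real.cos (2 * Real.pi * h * (f n + θ'))) =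
      ((Complex.exp (((2 * Real.pi * h * θ : ℝ) : ℂ) * Complex.I) -
        Complex.exp (((2 * Real.pi * h * θ' : ℝ) : ℂ) * Complex.I)) *
        ∑ n ∈ s, Complex.exp (((2 * Real.pi * (h * f n) : ℝ) : ℂ) * Complex.I)).re := by
    rw [Finset.mul_sum, Complex.re_sum]
    refine Finset.sum_congr rfl fun n _ => ?_
    rw [sub_mul, ← Complex.exp_add, ← Complex.exp_add, Complex.sub_re]
    have h1 : ∀ t : ℝ, ((2 * Real.pi * h * t : ℝ) : ℂ) * Complex.I +
        ((2 * Real.pi * (h * f n) : ℝ) : ℂ) * Complex.I =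
        ((2 * Real.pi * h * (f n + t) : ℝ) : ℂ) * Complex.I := by
      intro t
      push_cast
      ring
    rw [h1, h1, Complex.exp_ofReal_mul_I_re, Complex.exp_ofReal_mul_I_re]
  rw [e]
  refine (Complex.abs_re_le_norm _).trans ?_
  rw [norm_mul]
  refine mul_le_mul_of_nonneg_right ?_ (norm_nonneg _)
  have hpi := Real.pi_pos
  have hh : (0 : ℝ) ≤ h := Nat.cast_nonneg _
  rcases le_total 1 ((h : ℝ) * δ) with h1 | h1
  · rw [min_eq_left h1]
    refine (norm_sub_le _ _).trans ?_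
    rw [Complex.norm_exp_ofReal_mul_I, Complex.norm_exp_ofReal_mul_I]
    have := Real.pi_gt_three
    linarith
  · rw [min_eq_right h1]
    have e2 : Complex.exp (((2 * Real.pi * h * θ : ℝ) : ℂ) * Complex.I) -
        Complex.exp (((2 * Real.pi * h * θ' : ℝ) : ℂ) * Complex.I) =
        Complex.exp (((2 * Real.pi * h * θ' : ℝ) : ℂ) * Complex.I) *
          (Complex.exp (Complex.I * ((2 * Real.pi * h * (θ - θ') : ℝ) : ℂ)) - 1) := by
      rw [mul_sub, ← Complex.exp_add, mul_one]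
      congr 2
      push_cast
      ring
    rw [e2, norm_mul, Complex.norm_exp_ofReal_mul_I, one_mul]
    refine (Real.norm_exp_I_mul_ofReal_sub_one_le).trans ?_
    rw [Real.norm_eq_abs, abs_mul, abs_of_nonneg (by positivity : 0 ≤ 2 * Real.pi * (h : ℝ))]
    calc 2 * Real.pi * h * |θ - θ'| ≤ 2 * Real.pi * h * δ :=
          mul_le_mul_of_nonneg_left hδ (by positivity)
      _ = _ := by ring

private theorem aux1 {r X K : ℝ} (hr : 0 < r) (hK : 0 < K) (h : r ^ 2 = X) :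
    1 / X ^ 2 * (X * (1 / K)) * r = 1 / r / K := by
  subst h
  field_simp

private theorem aux2 {r X : ℝ} (hr : 0 < r) (h : r ^ 2 = X) :
    1 / X ^ 2 * 1 * r = 1 / r ^ 3 := by
  subst h
  field_simp

private theorem aux3 {r X K : ℝ} (hr : 0 < r) (hK : 0 < K) (h : r ^ 2 = X) :
    1 / X ^ 2 * (X * (1 / K)) * r⁻¹ = 1 / r ^ 3 / K := by
  subst h
  field_simp

/-- the first weight -/
private theorem wt1 {K : ℕ} (hK : 1 ≤ K) (H : ℕ) :
    ∑ h ∈ range H, 1 / (h : ℝ) ^ 2 * (min 1 (h * (1 / (K : ℝ)))) * √(h : ℝ) ≤ 4 / √(K : ℝ) := by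
  have hK0 : (0 : ℝ) < K := by exact_mod_cast hK
  have hsK : 0 < √(K : ℝ) := Real.sqrt_pos.2 hK0
  have key : ∀ H : ℕ, ∑ h ∈ range (H + 1), 1 / (h : ℝ) ^ 2 * (min 1 (h * (1 / (K : ℝ)))) * √(h : ℝ) ≤
      (if H ≤ K then 2 * √(H : ℝ) / K else 4 / √(K : ℝ) - 2 / √(H : ℝ)) := by
    intro H
    induction H with
    | zero => simp
    | succ H ih =>
      rw [sum_range_succ]
      have hH0 : (0 : ℝ) ≤ H := Nat.cast_nonneg _
      have hH1 : (0 : ℝ) < (H : ℝ) + 1 := by linarith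
      have hs1 : 0 < √((H : ℝ) + 1) := Real.sqrt_pos.2 hH1
      have hs0 : 0 ≤ √(H : ℝ) := Real.sqrt_nonneg _
      have q1 : √((H : ℝ) + 1) ^ 2 = H + 1 := Real.sq_sqrt hH1.le
      have q0 : √(H : ℝ) ^ 2 = H := Real.sq_sqrt hH0
      have hle : √(H : ℝ) ≤ √((H : ℝ) + 1) := Real.sqrt_le_sqrt (by linarith)
      push_cast
      rcases Nat.lt_or_ge H K with h | h
      · rw [if_pos (by omega)] at ih
        rw [if_pos (by omega)]
        have h1 : ((H : ℝ) + 1) * (1 / K) ≤ 1 := by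
          rw [mul_one_div, div_le_one hK0]
          exact_mod_cast h
        rw [min_eq_right h1]
        have h2 : 1 / ((H : ℝ) + 1) ^ 2 * (((H : ℝ) + 1) * (1 / K)) * √((H : ℝ) + 1) =
            1 / √((H : ℝ) + 1) / K := aux1 hs1 hK0 q1
        rw [h2]
        have h3 : 1 / √((H : ℝ) + 1) ≤ 2 * √((H : ℝ) + 1) - 2 * √(H : ℝ) := by
          rw [div_le_iff₀ hs1]
          nlinarith [sq_nonneg (√((H : ℝ) + 1) - √(H : ℝ))]
        have h4 := div_le_div_of_nonneg_right h3 hK0.le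
        rw [sub_div] at h4
        linarith
      · have hHpos : (0 : ℝ) < H := lt_of_lt_of_le hK0 (by exact_mod_cast h)
        have hsp : 0 < √(H : ℝ) := Real.sqrt_pos.2 hHpos
        have ih' : ∑ h ∈ range (H + 1), 1 / (h : ℝ) ^ 2 * (min 1 (h * (1 / (K : ℝ)))) * √(h : ℝ) ≤
            4 / √(K : ℝ) - 2 / √(H : ℝ) := by
          refine ih.trans ?_
          split_ifs with h5
          · have h6 : H = K := le_antisymm h5 h
            subst h6
            have : 2 * √(H : ℝ) / H = 2 / √(H : ℝ) := by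
              rw [div_eq_div_iff hHpos.ne' hsp.ne']
              nlinarith
            rw [this]
            apply le_of_eq
            ring
          · exact le_rfl
        rw [if_neg (by omega)]
        have h1 : min 1 (((H : ℝ) + 1) * (1 / K)) ≤ 1 := min_le_left _ _
        have h2 : 1 / ((H : ℝ) + 1) ^ 2 * min 1 (((H : ℝ) + 1) * (1 / K)) * √((H : ℝ) + 1) ≤
            1 / ((H : ℝ) + 1) ^ 2 * 1 * √((H : ℝ) + 1) := by
          gcongr
        have h3 : 1 / ((H : ℝ) + 1) ^ 2 * 1 * √((H : ℝ) + 1) = 1 / √((H : ℝ) + 1) ^ 3 :=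
          aux2 hs1 q1
        have h4 : 1 / √((H : ℝ) + 1) ^ 3 ≤ 2 / √(H : ℝ) - 2 / √((H : ℝ) + 1) := by
          rw [div_sub_div _ _ hsp.ne' hs1.ne', div_le_div_iff₀ (by positivity) (by positivity)]
          have h7 : √((H : ℝ) + 1) ^ 3 = (H + 1) * √((H : ℝ) + 1) := by
            rw [pow_succ, q1]
          rw [h7]
          have h8 : 1 ≤ 2 * √((H : ℝ) + 1) * (√((H : ℝ) + 1) - √(H : ℝ)) := by
            nlinarith [sq_nonneg (√((H : ℝ) + 1) - √(H : ℝ))]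
          have h9 : √(H : ℝ) * √((H : ℝ) + 1) ≤ (H + 1) := by
            nlinarith
          nlinarith [mul_pos hsp hs1]
        linarith
  rcases Nat.eq_zero_or_pos H with h | h
  · subst h
    simp only [range_zero, sum_empty]
    positivity
  · obtain ⟨H, rfl⟩ := Nat.exists_eq_succ_of_ne_zero h.ne'
    refine (key H).trans ?_
    split_ifs with h1
    · have h2 : √(H : ℝ) ≤ √(K : ℝ) := Real.sqrt_le_sqrt (by exact_mod_cast h1)
      have h3 : 2 * √(H : ℝ) / K ≤ 2 * √(K : ℝ) / K := by gcongr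
      have h4 : 2 * √(K : ℝ) / K = 2 / √(K : ℝ) := by
        rw [div_eq_div_iff hK0.ne' hsK.ne']
        have := Real.sq_sqrt hK0.le
        nlinarith
      have h5 : 2 / √(K : ℝ) ≤ 4 / √(K : ℝ) := by gcongr; norm_num
      linarith
    · have : 0 ≤ 2 / √(H : ℝ) := by positivity
      linarith

/-- the second weight -/
private theorem wt2 {K : ℕ} (hK : 1 ≤ K) (H : ℕ) :
    ∑ h ∈ range H, 1 / (h : ℝ) ^ 2 * (min 1 (h * (1 / (K : ℝ)))) * (√(h : ℝ))⁻¹ ≤ 3 / (K : ℝ) := by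
  have hK0 : (0 : ℝ) < K := by exact_mod_cast hK
  have key : ∀ H : ℕ, ∑ h ∈ range (H + 2), 1 / (h : ℝ) ^ 2 * (min 1 (h * (1 / (K : ℝ)))) *
      (√(h : ℝ))⁻¹ ≤ (3 - 2 / √((H : ℝ) + 1)) / K := by
    intro H
    induction H with
    | zero =>
      rw [sum_range_succ, sum_range_succ]
      simp only [range_zero, sum_empty, Nat.cast_zero, zero_mul, Nat.cast_one, zero_add,
        Real.sqrt_one, inv_one, one_mul, mul_one, one_pow, div_one]
      have h1 : min 1 (1 / (K : ℝ)) ≤ 1 / K := min_le_right _ _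
      simp only [ne_eq, OfNat.ofNat_ne_zero, not_false_eq_true, zero_pow, div_zero, zero_mul,
        zero_add, Real.sqrt_zero, inv_zero, mul_zero]
      refine h1.trans ?_
      gcongr
      norm_num
    | succ H ih =>
      rw [sum_range_succ]
      have hH0 : (0 : ℝ) ≤ H := Nat.cast_nonneg _
      have hp1 : (0 : ℝ) < (H : ℝ) + 1 := by linarith
      have hp2 : (0 : ℝ) < (H : ℝ) + 2 := by linarith
      have hs1 : 0 < √((H : ℝ) + 1) := Real.sqrt_pos.2 hp1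
      have hs2 : 0 < √((H : ℝ) + 2) := Real.sqrt_pos.2 hp2
      have q1 : √((H : ℝ) + 1) ^ 2 = H + 1 := Real.sq_sqrt hp1.le
      have q2 : √((H : ℝ) + 2) ^ 2 = H + 2 := Real.sq_sqrt hp2.le
      have hle : √((H : ℝ) + 1) ≤ √((H : ℝ) + 2) := Real.sqrt_le_sqrt (by linarith)
      have ec : ((H + 2 : ℕ) : ℝ) = (H : ℝ) + 2 := by push_cast; ring
      have ec2 : (((H + 1 : ℕ) : ℝ) + 1) = (H : ℝ) + 2 := by push_cast; ring
      rw [ec, ec2]
      have h1 : min 1 (((H : ℝ) + 2) * (1 / K)) ≤ ((H : ℝ) + 2) * (1 / K) := min_le_right _ _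
      have h2 : 1 / ((H : ℝ) + 2) ^ 2 * min 1 (((H : ℝ) + 2) * (1 / K)) * (√((H : ℝ) + 2))⁻¹ ≤
          1 / ((H : ℝ) + 2) ^ 2 * (((H : ℝ) + 2) * (1 / K)) * (√((H : ℝ) + 2))⁻¹ := by
        gcongr
      have h3 : 1 / ((H : ℝ) + 2) ^ 2 * (((H : ℝ) + 2) * (1 / K)) * (√((H : ℝ) + 2))⁻¹ =
          1 / √((H : ℝ) + 2) ^ 3 / K := aux3 hs2 hK0 q2
      have h4 : 1 / √((H : ℝ) + 2) ^ 3 ≤ 2 / √((H : ℝ) + 1) - 2 / √((H : ℝ) + 2) := by
        rw [div_sub_div _ _ hs1.ne' hs2.ne', div_le_div_iff₀ (by positivity) (by positivity)]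
        have h7 : √((H : ℝ) + 2) ^ 3 = (H + 2) * √((H : ℝ) + 2) := by
          rw [pow_succ, q2]
        rw [h7]
        have h8 : 1 ≤ 2 * √((H : ℝ) + 2) * (√((H : ℝ) + 2) - √((H : ℝ) + 1)) := by
          nlinarith [sq_nonneg (√((H : ℝ) + 2) - √((H : ℝ) + 1))]
        have h9 : √((H : ℝ) + 1) * √((H : ℝ) + 2) ≤ (H + 2) := by
          nlinarith
        nlinarith [mul_pos hs1 hs2]
      have h5 := div_le_div_of_nonneg_right h4 hK0.le
      have h6 : (3 - 2 / √((H : ℝ) + 2)) / K = (3 - 2 / √((H : ℝ) + 1)) / K +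
          (2 / √((H : ℝ) + 1) - 2 / √((H : ℝ) + 2)) / K := by ring
      rw [h6]
      linarith
  have h0 : ∀ h : ℕ, 0 ≤ 1 / (h : ℝ) ^ 2 * (min 1 (h * (1 / (K : ℝ)))) * (√(h : ℝ))⁻¹ := by
    intro h
    have : 0 ≤ min 1 ((h : ℝ) * (1 / K)) := le_min zero_le_one (by positivity)
    positivity
  have h1 : ∑ h ∈ range H, 1 / (h : ℝ) ^ 2 * (min 1 (h * (1 / (K : ℝ)))) * (√(h : ℝ))⁻¹ ≤
      ∑ h ∈ range (H + 2), 1 / (h : ℝ) ^ 2 * (min 1 (h * (1 / (K : ℝ)))) * (√(h : ℝ))⁻¹ :=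
    sum_le_sum_of_subset_of_nonneg (range_subset_range.2 (by omega)) fun h _ _ => h0 h
  refine h1.trans ((key H).trans ?_)
  have h2 : 0 ≤ 2 / √((H : ℝ) + 1) := by positivity
  gcongr
  linarith

/-- sums of differences of the second Bernoulli function -/
private theorem diff_bound {C0 : ℝ} (hC0 : 0 < C0)
    (hsdt : ∀ (g : ℕ → ℝ) (a b : ℕ) (lam A : ℝ), a ≤ b → 0 < lam → 1 ≤ A →
      (∀ n, a ≤ n → n + 2 < b → lam ≤ g (n + 2) - 2 * g (n + 1) + g n ∧
        g (n + 2) - 2 * g (n + 1) + g n ≤ A * lam) →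
      ‖∑ n ∈ Ico a b, Complex.exp (((2 * Real.pi * g n : ℝ) : ℂ) * Complex.I)‖ ≤
        C0 * A * (((b : ℝ) - a) * √lam + (√lam)⁻¹))
    (f : ℕ → ℝ) (a b : ℕ) (lam A : ℝ) (hab : a ≤ b) (hl : 0 < lam) (hA : 1 ≤ A)
    (hf : ∀ n, a ≤ n → n + 2 < b → lam ≤ f (n + 2) - 2 * f (n + 1) + f n ∧
      f (n + 2) - 2 * f (n + 1) + f n ≤ A * lam)
    {K : ℕ} (hK : 1 ≤ K) (θ θ' : ℝ) (hθ : |θ - θ'| ≤ 1 / (K : ℝ)) :
    Real.pi ^ 2 * |∑ n ∈ Ico a b, (b2 (f n + θ) - b2 (f n + θ'))| ≤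
      2 * Real.pi * C0 * A * (((b : ℝ) - a) * √lam * (4 / √(K : ℝ)) +
        (√lam)⁻¹ * (3 / (K : ℝ))) := by
  have hpi := Real.pi_pos
  have hA0 : 0 < A := by linarith
  have hba : (0 : ℝ) ≤ (b : ℝ) - a := by
    have : (a : ℝ) ≤ b := by exact_mod_cast hab
    linarith
  have hsl : 0 < √lam := Real.sqrt_pos.2 hl
  have h1 : HasSum (fun h : ℕ => ∑ n ∈ Ico a b,
      (1 / (h : ℝ) ^ 2 * Real.cos (2 * Real.pi * h * (f n + θ)) -
        1 / (h : ℝ) ^ 2 * Real.cos (2 * Real.pi * h * (f n + θ'))))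
      (∑ n ∈ Ico a b, (Real.pi ^ 2 * b2 (f n + θ) - Real.pi ^ 2 * b2 (f n + θ'))) :=
    hasSum_sum fun n _ => (b2_hasSum (f n + θ)).sub (b2_hasSum (f n + θ'))
  have h2 := h1.tendsto_sum_nat.abs
  have h3 : Real.pi ^ 2 * |∑ n ∈ Ico a b, (b2 (f n + θ) - b2 (f n + θ'))| =
      |∑ n ∈ Ico a b, (Real.pi ^ 2 * b2 (f n + θ) - Real.pi ^ 2 * b2 (f n + θ'))| := by
    rw [← abs_of_pos (show 0 < Real.pi ^ 2 by positivity), ← abs_mul, mul_sum,
      abs_of_pos (show 0 < Real.pi ^ 2 by positivity)]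
    congr 1
    refine sum_congr rfl fun n _ => ?_
    ring
  rw [h3]
  refine le_of_tendsto' h2 fun H => ?_
  have h4 : ∀ h ∈ range H, |∑ n ∈ Ico a b,
      (1 / (h : ℝ) ^ 2 * Real.cos (2 * Real.pi * h * (f n + θ)) -
        1 / (h : ℝ) ^ 2 * Real.cos (2 * Real.pi * h * (f n + θ')))| ≤
      2 * Real.pi * C0 * A * (((b : ℝ) - a) * √lam *
        (1 / (h : ℝ) ^ 2 * (min 1 (h * (1 / (K : ℝ)))) * √(h : ℝ)) + (√lam)⁻¹ *
        (1 / (h : ℝ) ^ 2 * (min 1 (h * (1 / (K : ℝ)))) * (√(h : ℝ))⁻¹)) := by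
    intro h _
    rcases Nat.eq_zero_or_pos h with h0 | h0
    · subst h0
      simp
    · have hh : (0 : ℝ) < h := by exact_mod_cast h0
      have e1 : ∑ n ∈ Ico a b, (1 / (h : ℝ) ^ 2 * Real.cos (2 * Real.pi * h * (f n + θ)) -
          1 / (h : ℝ) ^ 2 * Real.cos (2 * Real.pi * h * (f n + θ'))) =
          1 / (h : ℝ) ^ 2 * ∑ n ∈ Ico a b, (Real.cos (2 * Real.pi * h * (f n + θ)) -
            Real.cos (2 * Real.pi * h * (f n + θ'))) := by
        rw [mul_sum]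
        refine sum_congr rfl fun n _ => ?_
        ring
      rw [e1, abs_mul, abs_of_pos (show 0 < 1 / (h : ℝ) ^ 2 by positivity)]
      have h5 := freq f (Ico a b) h θ θ' (1 / (K : ℝ)) hθ
      have h6 := hsdt (fun n => h * f n) a b (h * lam) A hab (by positivity) hA (by
        intro n hn hn'
        obtain ⟨l1, l2⟩ := hf n hn hn'
        constructor
        · nlinarith
        · nlinarith)
      rw [Real.sqrt_mul hh.le, mul_inv] at h6
      have hmin : 0 ≤ min 1 ((h : ℝ) * (1 / K)) := le_min zero_le_one (by positivity)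
      have h7 : |∑ n ∈ Ico a b, (Real.cos (2 * Real.pi * h * (f n + θ)) -
          Real.cos (2 * Real.pi * h * (f n + θ')))| ≤ (2 * Real.pi * min 1 (h * (1 / (K : ℝ)))) *
          (C0 * A * (((b : ℝ) - a) * (√(h : ℝ) * √lam) + (√(h : ℝ))⁻¹ * (√lam)⁻¹)) :=
        h5.trans (mul_le_mul_of_nonneg_left h6 (by positivity))
      have h8 := mul_le_mul_of_nonneg_left h7 (show 0 ≤ 1 / (h : ℝ) ^ 2 by positivity)
      refine h8.trans (le_of_eq ?_)
      ring
  refine (abs_sum_le_sum_abs _ _).trans ((sum_le_sum h4).trans ?_)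
  rw [← mul_sum, sum_add_distrib, ← mul_sum, ← mul_sum]
  refine mul_le_mul_of_nonneg_left (add_le_add ?_ ?_) (by positivity)
  · exact mul_le_mul_of_nonneg_left (wt1 hK H) (by positivity)
  · exact mul_le_mul_of_nonneg_left (wt2 hK H) (by positivity)

theorem psi_sum : ∃ C : ℝ, 0 < C ∧ ∀ (f : ℕ → ℝ) (a b : ℕ) (lam A : ℝ), a ≤ b → 0 < lam →
    lam ≤ 1 → 1 ≤ A →
    (∀ n, a ≤ n → n + 2 < b → lam ≤ f (n + 2) - 2 * f (n + 1) + f n ∧
      f (n + 2) - 2 * f (n + 1) + f n ≤ A * lam) →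
    |∑ n ∈ Ico a b, saw (f n)| ≤
      C * A * (((b : ℝ) - a) * lam ^ (1 / 3 : ℝ) + lam ^ (-(1 / 2) : ℝ)) := by
  obtain ⟨C0, hC0, hsdt⟩ := WYL.sdt
  refine ⟨1 + 2 * C0, by linarith, fun f a b lam A hab hl hl1 hA hf => ?_⟩
  have hpi := Real.pi_pos
  have hpi3 := Real.pi_gt_three
  have hA0 : 0 < A := by linarith
  have hba : (0 : ℝ) ≤ (b : ℝ) - a := by
    have : (a : ℝ) ≤ b := by exact_mod_cast hab
    linarith
  have hsl : 0 < √lam := Real.sqrt_pos.2 hl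
  -- the parameter
  obtain ⟨t, ht⟩ : ∃ t : ℝ, t = lam ^ (1 / 3 : ℝ) := ⟨_, rfl⟩
  have ht0 : 0 < t := by rw [ht]; positivity
  have ht1 : t ≤ 1 := by rw [ht]; exact Real.rpow_le_one hl.le hl1 (by norm_num)
  have ht3 : t ^ 3 = lam := by
    rw [ht, ← Real.rpow_natCast, ← Real.rpow_mul hl.le]
    norm_num
  obtain ⟨K, hKdef⟩ : ∃ K : ℕ, K = ⌈1 / t⌉₊ := ⟨_, rfl⟩
  have hK1 : 1 / t ≤ K := by rw [hKdef]; exact Nat.le_ceil _
  have hK2 : (K : ℝ) ≤ 2 / t := by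
    rw [hKdef]
    have h1 := Nat.ceil_lt_add_one (show (0 : ℝ) ≤ 1 / t by positivity)
    have h2 : 1 ≤ 1 / t := by rw [le_div_iff₀ ht0]; linarith
    have h3 : 2 / t = 1 / t + 1 / t := by ring
    linarith
  have hK0 : (0 : ℝ) < K := lt_of_lt_of_le (by positivity) hK1
  have hK : 1 ≤ K := by exact_mod_cast hK0
  have hKr : (1 : ℝ) ≤ K := by exact_mod_cast hK
  have hδ0 : (0 : ℝ) < 1 / K := by positivity
  have hδ1 : 1 / (K : ℝ) ≤ 1 := by rw [div_le_one hK0]; exact hKr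
  have hδt : 1 / (K : ℝ) ≤ t := by
    rw [div_le_iff₀ hK0]
    rw [div_le_iff₀ ht0] at hK1
    linarith
  have hsK : 0 < √(K : ℝ) := Real.sqrt_pos.2 hK0
  have hsKsq : √(K : ℝ) ^ 2 = K := Real.sq_sqrt hK0.le
  have hslsq : √lam ^ 2 = lam := Real.sq_sqrt hl.le
  -- √lam √K ≤ 3/2 t
  have hprod : √lam * √(K : ℝ) ≤ 3 / 2 * t := by
    rw [← Real.sqrt_mul hl.le]
    apply Real.sqrt_le_iff.2
    refine ⟨by positivity, ?_⟩
    calc lam * K ≤ lam * (2 / t) := mul_le_mul_of_nonneg_left hK2 hl.le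
      _ = 2 * t ^ 2 := by rw [← ht3]; field_simp
      _ ≤ (3 / 2 * t) ^ 2 := by nlinarith [sq_nonneg t]
  -- the two bounds
  have hB : ∀ θ θ' : ℝ, |θ - θ'| ≤ 1 / (K : ℝ) →
      1 / (2 * (1 / (K : ℝ))) * |∑ n ∈ Ico a b, (b2 (f n + θ) - b2 (f n + θ'))| ≤
        2 * C0 * A * (((b : ℝ) - a) * t + (√lam)⁻¹) := by
    intro θ θ' hθ
    have h1 := diff_bound hC0 hsdt f a b lam A hab hl hA hf hK θ θ' hθ
    set S := |∑ n ∈ Ico a b, (b2 (f n + θ) - b2 (f n + θ'))| with hS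
    have hS0 : 0 ≤ S := abs_nonneg _
    have h2 : 1 / (2 * (1 / (K : ℝ))) * S = K / 2 * S := by
      field_simp
    rw [h2]
    have h3 : Real.pi * S ≤ 2 * C0 * A * (((b : ℝ) - a) * √lam * (4 / √(K : ℝ)) +
        (√lam)⁻¹ * (3 / (K : ℝ))) := by
      have h4 : Real.pi * (Real.pi * S) ≤ Real.pi * (2 * C0 * A * (((b : ℝ) - a) * √lam *
          (4 / √(K : ℝ)) + (√lam)⁻¹ * (3 / (K : ℝ)))) := by
        calc Real.pi * (Real.pi * S) = Real.pi ^ 2 * S := by ring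
          _ ≤ _ := h1
          _ = _ := by ring
      exact le_of_mul_le_mul_left h4 hpi
    have h5 : K * (((b : ℝ) - a) * √lam * (4 / √(K : ℝ)) + (√lam)⁻¹ * (3 / (K : ℝ))) =
        4 * (((b : ℝ) - a) * (√lam * √(K : ℝ))) + 3 * (√lam)⁻¹ := by
      have h6 : K * (4 / √(K : ℝ)) = 4 * √(K : ℝ) := by
        rw [mul_div_assoc', div_eq_iff hsK.ne']
        nlinarith
      have h7 : K * (3 / (K : ℝ)) = 3 := by field_simp
      calc K * (((b : ℝ) - a) * √lam * (4 / √(K : ℝ)) + (√lam)⁻¹ * (3 / (K : ℝ))) =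
          ((b : ℝ) - a) * √lam * (K * (4 / √(K : ℝ))) + (√lam)⁻¹ * (K * (3 / (K : ℝ))) := by ring
        _ = _ := by rw [h6, h7]; ring
    have h8 : ((b : ℝ) - a) * (√lam * √(K : ℝ)) ≤ ((b : ℝ) - a) * (3 / 2 * t) :=
      mul_le_mul_of_nonneg_left hprod hba
    have hi : 0 < (√lam)⁻¹ := inv_pos.2 hsl
    have h9 : Real.pi * (K / 2 * S) ≤ C0 * A * (6 * (((b : ℝ) - a) * t) + 3 * (√lam)⁻¹) := by
      calc Real.pi * (K / 2 * S) = K / 2 * (Real.pi * S) := by ring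
        _ ≤ K / 2 * (2 * C0 * A * (((b : ℝ) - a) * √lam * (4 / √(K : ℝ)) +
            (√lam)⁻¹ * (3 / (K : ℝ)))) := mul_le_mul_of_nonneg_left h3 (by positivity)
        _ = C0 * A * (K * (((b : ℝ) - a) * √lam * (4 / √(K : ℝ)) + (√lam)⁻¹ * (3 / (K : ℝ)))) := by
            ring
        _ = C0 * A * (4 * (((b : ℝ) - a) * (√lam * √(K : ℝ))) + 3 * (√lam)⁻¹) := by rw [h5]
        _ ≤ C0 * A * (6 * (((b : ℝ) - a) * t) + 3 * (√lam)⁻¹) := by
            refine mul_le_mul_of_nonneg_left ?_ (by positivity)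
            linarith
    have h10 : 3 * (K / 2 * S) ≤ Real.pi * (K / 2 * S) :=
      mul_le_mul_of_nonneg_right hpi3.le (by positivity)
    have h11 : C0 * A * (6 * (((b : ℝ) - a) * t) + 3 * (√lam)⁻¹) ≤
        3 * (2 * C0 * A * (((b : ℝ) - a) * t + (√lam)⁻¹)) := by
      have h12 : 0 < C0 * A := by positivity
      nlinarith [mul_pos h12 hi]
    linarith
  have hlam : lam ^ (-(1 / 2) : ℝ) = (√lam)⁻¹ := by
    rw [Real.rpow_neg hl.le, ← Real.sqrt_eq_rpow]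
  rw [hlam, ← ht]
  have hi : 0 < (√lam)⁻¹ := inv_pos.2 hsl
  have hcard : ∑ _n ∈ Ico a b, (1 / (K : ℝ)) / 2 = ((b : ℝ) - a) * (1 / (K : ℝ)) / 2 := by
    rw [sum_const, Nat.card_Ico, nsmul_eq_mul, Nat.cast_sub hab]
    ring
  have hmain : ((b : ℝ) - a) * (1 / (K : ℝ)) / 2 + 2 * C0 * A * (((b : ℝ) - a) * t + (√lam)⁻¹) ≤
      (1 + 2 * C0) * A * (((b : ℝ) - a) * t + (√lam)⁻¹) := by
    have h1 : ((b : ℝ) - a) * (1 / (K : ℝ)) ≤ ((b : ℝ) - a) * t :=
      mul_le_mul_of_nonneg_left hδt hba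
    have h2 : ((b : ℝ) - a) * t + (√lam)⁻¹ ≤ A * (((b : ℝ) - a) * t + (√lam)⁻¹) :=
      le_mul_of_one_le_left (by positivity) hA
    have h3 : 0 ≤ ((b : ℝ) - a) * t := by positivity
    nlinarith
  rw [abs_le]
  constructor
  · have h1 : ∑ n ∈ Ico a b, (1 / (2 * (1 / (K : ℝ))) * (b2 (f n + 1 / (K : ℝ)) - b2 (f n + 0)) -
        (1 / (K : ℝ)) / 2) ≤ ∑ n ∈ Ico a b, saw (f n) :=
      sum_le_sum fun n _ => by
        have := saw_lower hδ0 hδ1 (f n)
        rw [add_zero]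
        exact this
    rw [sum_sub_distrib, ← mul_sum, hcard] at h1
    have h2 := hB (1 / (K : ℝ)) 0 (by rw [sub_zero, abs_of_pos hδ0])
    have h3 := neg_abs_le (∑ n ∈ Ico a b, (b2 (f n + 1 / (K : ℝ)) - b2 (f n + 0)))
    have h4 := mul_le_mul_of_nonneg_left h3 (show 0 ≤ 1 / (2 * (1 / (K : ℝ))) by positivity)
    rw [mul_neg] at h4
    linarith only [h1, h2, h4, hmain]
  · have h1 : ∑ n ∈ Ico a b, saw (f n) ≤ ∑ n ∈ Ico a b,
        (1 / (2 * (1 / (K : ℝ))) * (b2 (f n + 0) - b2 (f n + (-(1 / (K : ℝ))))) +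
        (1 / (K : ℝ)) / 2) :=
      sum_le_sum fun n _ => by
        have := saw_upper hδ0 hδ1 (f n)
        rw [add_zero, ← sub_eq_add_neg]
        exact this
    rw [sum_add_distrib, ← mul_sum, hcard] at h1
    have h2 := hB 0 (-(1 / (K : ℝ))) (by
      rw [sub_neg_eq_add, zero_add, abs_of_pos hδ0])
    have h3 := le_abs_self (∑ n ∈ Ico a b, (b2 (f n + 0) - b2 (f n + (-(1 / (K : ℝ))))))
    have h4 := mul_le_mul_of_nonneg_left h3 (show 0 ≤ 1 / (2 * (1 / (K : ℝ))) by positivity)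
    linarith only [h1, h2, h4, hmain]

end Pool.PWE
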